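import Mathlib

/-!
# Base: element-wise interface to group cohomology
-/

open CategoryTheory

namespace Pool.Agent.PD3

/-- the `i`-th cohomology group of `G` with coefficients in `M`, as a type. -/
noncomputable abbrev HH {k G : Type} [CommRing k] [Group G] (M : Rep.{0} k G) (i : ℕ) : Type :=
  (groupCohomology M i : ModuleCat k)

/-- the induced map in cohomology. -/
noncomputable def Hm {k G : Type} [CommRing k] [Group G] {M M' : Rep.{0} k G} (f : M ⟶ M')
    (i : ℕ) : HH M i →ₗ[k] HH M' i :=
  ((groupCohomology.functor k G i).map f).hom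

variable {k G : Type} [CommRing k] [Group G]

theorem Hm_eq {M M' : Rep.{0} k G} (f : M ⟶ M') (i : ℕ) (x : HH M i) :
    Hm f i x = (groupCohomology.map (MonoidHom.id G) f i).hom x := rfl

theorem Hm_id (M : Rep.{0} k G) (i : ℕ) (x : HH M i) : Hm (𝟙 M) i x = x := by
  simp only [Hm, CategoryTheory.Functor.map_id]
  rfl

theorem Hm_comp {A B C : Rep.{0} k G} (f : A ⟶ B) (g : B ⟶ C) (i : ℕ) (x : HH A i) :
    Hm (f ≫ g) i x = Hm g i (Hm f i x) := by
  simp only [Hm, Functor.map_comp]
  rfl

instance (i : ℕ) : (groupCohomology.functor k G i).Additive where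
  map_add {A B f g} := by
    show HomologicalComplex.homologyMap (groupCohomology.cochainsMap (MonoidHom.id G) (f + g)) i =
      HomologicalComplex.homologyMap (groupCohomology.cochainsMap (MonoidHom.id G) f) i +
      HomologicalComplex.homologyMap (groupCohomology.cochainsMap (MonoidHom.id G) g) i
    rw [← HomologicalComplex.homologyMap_add]
    rfl

theorem Hm_add {A B : Rep.{0} k G} (f g : A ⟶ B) (i : ℕ) (x : HH A i) :
    Hm (f + g) i x = Hm f i x + Hm g i x := by
  simp only [Hm, Functor.map_add]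
  rfl

theorem Hm_sub {A B : Rep.{0} k G} (f g : A ⟶ B) (i : ℕ) (x : HH A i) :
    Hm (f - g) i x = Hm f i x - Hm g i x := by
  simp only [Hm, Functor.map_sub]
  rfl

theorem Hm_zero {A B : Rep.{0} k G} (i : ℕ) (x : HH A i) :
    Hm (0 : A ⟶ B) i x = 0 := by
  simp only [Hm, Functor.map_zero]
  rfl

theorem Hm_nsmul {A B : Rep.{0} k G} (n : ℕ) (f : A ⟶ B) (i : ℕ) (x : HH A i) :
    Hm (n • f) i x = n • Hm f i x := by
  simp only [Hm, Functor.map_nsmul]
  rfl

theorem Hm_sum {ι : Type} {A B : Rep.{0} k G} (s : Finset ι) (f : ι → (A ⟶ B)) (i : ℕ)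
    (x : HH A i) :
    Hm (∑ j ∈ s, f j) i x = ∑ j ∈ s, Hm (f j) i x := by
  classical
  induction s using Finset.induction_on with
  | empty => simp [Hm_zero]
  | insert a s ha ih => rw [Finset.sum_insert ha, Finset.sum_insert ha, Hm_add, ih]

/-- a short exact sequence of representations. -/
structure SES {A B C : Rep.{0} k G} (f : A ⟶ B) (g : B ⟶ C) : Prop where
  inj : Function.Injective f.hom
  surj : Function.Surjective g.hom
  zero : ∀ a, g.hom (f.hom a) = 0
  exact : ∀ b, g.hom b = 0 → ∃ a, f.hom a = b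

theorem SES.shortExact {A B C : Rep.{0} k G} {f : A ⟶ B} {g : B ⟶ C} (h : SES f g) :
    ∃ w : f ≫ g = 0, (ShortComplex.mk f g w).ShortExact := by
  have w : f ≫ g = 0 := by
    ext1
    exact Representation.IntertwiningMap.ext (LinearMap.ext fun a => h.zero a)
  refine ⟨w, ?_⟩
  have : Mono f := (Rep.mono_iff_injective f).2 h.inj
  have : Epi g := (Rep.epi_iff_surjective g).2 h.surj
  have : Mono (ShortComplex.mk f g w).f := ‹Mono f›
  have : Epi (ShortComplex.mk f g w).g := ‹Epi g›
  refine ShortComplex.ShortExact.mk ?_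
  have : ((ShortComplex.mk f g w).map (forget₂ (Rep k G) (ModuleCat k))).Exact := by
    rw [ShortComplex.moduleCat_exact_iff]
    intro x hx
    exact h.exact x hx
  exact (ShortComplex.exact_map_iff_of_faithful _ (forget₂ (Rep k G) (ModuleCat k))).1 this

/-- the long exact sequence. -/
theorem SES.les {A B C : Rep.{0} k G} {f : A ⟶ B} {g : B ⟶ C} (h : SES f g) (i : ℕ) :
    ∃ δ : HH C i →ₗ[k] HH A (i + 1),
      (∀ x : HH B i, Hm g i x = 0 ↔ ∃ y, Hm f i y = x) ∧
      (∀ x : HH C i, δ x = 0 ↔ ∃ y, Hm g i y = x) ∧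
      (∀ x : HH A (i + 1), Hm f (i + 1) x = 0 ↔ ∃ y, δ y = x) := by
  obtain ⟨w, hX⟩ := h.shortExact
  refine ⟨(groupCohomology.δ hX i (i + 1) rfl).hom, ?_, ?_, ?_⟩
  · intro x
    have h2 := groupCohomology.mapShortComplex₂_exact hX i
    have h2' := (ShortComplex.moduleCat_exact_iff _).1 h2
    constructor
    · intro hx
      exact h2' x hx
    · rintro ⟨y, rfl⟩
      have := Hm_comp f g i y
      rw [← this, w, Hm_zero]
  · intro x
    have h3 := groupCohomology.mapShortComplex₃_exact hX (i := i) rfl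
    have h3' := (ShortComplex.moduleCat_exact_iff _).1 h3
    constructor
    · intro hx
      exact h3' x hx
    · rintro ⟨y, rfl⟩
      have := congrArg (fun φ => φ.hom y) (groupCohomology.mapShortComplex₃ hX (i := i) rfl).zero
      exact this
  · intro x
    have h1 := groupCohomology.mapShortComplex₁_exact hX (i := i) rfl
    have h1' := (ShortComplex.moduleCat_exact_iff _).1 h1
    constructor
    · intro hx
      exact h1' x hx
    · rintro ⟨y, rfl⟩
      have := congrArg (fun φ => φ.hom y) (groupCohomology.mapShortComplex₁ hX (i := i) rfl).zero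
      exact this

theorem SES.mid {A B C : Rep.{0} k G} {f : A ⟶ B} {g : B ⟶ C} (h : SES f g) (i : ℕ)
    (x : HH B i) : Hm g i x = 0 ↔ ∃ y, Hm f i y = x := by
  obtain ⟨δ, h1, -, -⟩ := h.les i
  exact h1 x

/-- isomorphic representations have isomorphic cohomology (inverse morphisms given). -/
noncomputable def HmEquiv {A B : Rep.{0} k G} (f : A ⟶ B) (g : B ⟶ A) (h1 : f ≫ g = 𝟙 A)
    (h2 : g ≫ f = 𝟙 B) (i : ℕ) : HH A i ≃ₗ[k] HH B i :=
  LinearEquiv.ofLinear (Hm f i) (Hm g i)
    (LinearMap.ext fun x => by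
      show Hm f i (Hm g i x) = x
      rw [← Hm_comp, h2, Hm_id])
    (LinearMap.ext fun x => by
      show Hm g i (Hm f i x) = x
      rw [← Hm_comp, h1, Hm_id])

theorem hom_ext' {M N : Rep.{0} k G} {f g : M ⟶ N} (h : ∀ m, f.hom m = g.hom m) : f = g := by
  ext1
  exact Representation.IntertwiningMap.ext (LinearMap.ext fun a => h a)

end Pool.Agent.PD3
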