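import Mathlib

/-!
# CardModp: counting `A/pA` for a finitely generated abelian group without `p`-torsion
-/

namespace Pool.Agent.PD3

open DirectSum in
theorem CardModp_struct (A : Type) [AddCommGroup A] (hA : AddGroup.FG A) :
    ∃ (n : ℕ) (D : Type) (_ : AddCommGroup D) (_ : Finite D), Nonempty (A ≃+ (Fin n → ℤ) × D) := by
  classical
  obtain ⟨n, ι, hι, p, hp, e, ⟨f⟩⟩ := AddCommGroup.equiv_free_prod_directSum_zmod (G := A) (hG := hA)
  have hz : ∀ i, NeZero (p i ^ e i) := fun i => ⟨pow_ne_zero _ (hp i).ne_zero⟩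
  have hfin : Finite (⨁ i : ι, ZMod (p i ^ e i)) := by
    have h1 : ∀ i, Finite (ZMod (p i ^ e i)) := fun i => by
      have := hz i
      infer_instance
    exact Finite.of_equiv (∀ i, ZMod (p i ^ e i)) (DirectSum.addEquivProd _).symm.toEquiv
  refine ⟨n, ⨁ i : ι, ZMod (p i ^ e i), inferInstance, hfin, ⟨?_⟩⟩
  exact f.trans ((Finsupp.linearEquivFunOnFinite ℤ ℤ (Fin n)).toAddEquiv.prodCongr (AddEquiv.refl _))

/-- `Hom(A, ℚ) = ℚ^n` if `A = ℤ^n ⊕ finite`. -/
theorem CardModp_hom (A : Type) [AddCommGroup A] (n : ℕ) (D : Type) [AddCommGroup D] [Finite D]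
    (e : A ≃+ (Fin n → ℤ) × D) : Nonempty ((A →+ ℚ) ≃ₗ[ℚ] (Fin n → ℚ)) := by
  classical
  let L : (A →+ ℚ) →ₗ[ℚ] (Fin n → ℚ) :=
    { toFun := fun h i => h (e.symm (Pi.single i 1, 0))
      map_add' := fun h h' => rfl
      map_smul' := fun c h => rfl }
  refine ⟨LinearEquiv.ofBijective L ⟨?_, ?_⟩⟩
  · rw [injective_iff_map_eq_zero]
    intro h hh
    have hi : ∀ i, h (e.symm (Pi.single i 1, 0)) = 0 := fun i => congrFun hh i
    have hd : ∀ d : D, h (e.symm (0, d)) = 0 := by
      intro d
      have h1 : (Nat.card D) • d = 0 := card_nsmul_eq_zero'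
      have h2 : (Nat.card D) • h (e.symm (0, d)) = 0 := by
        rw [← map_nsmul, ← map_nsmul, Prod.smul_mk, h1, smul_zero]
        have : ((0 : Fin n → ℤ), (0 : D)) = 0 := rfl
        rw [this, map_zero, map_zero]
      rcases (smul_eq_zero.mp h2) with h3 | h3
      · exact absurd h3 Nat.card_pos.ne'
      · exact h3
    ext a
    obtain ⟨⟨v, d⟩, rfl⟩ := e.symm.surjective a
    have h4 : ((v, d) : (Fin n → ℤ) × D) = ∑ i, v i • ((Pi.single i 1 : Fin n → ℤ), (0 : D)) + (0, d) := by
      ext j
      · simp [Prod.fst_sum, Finset.sum_apply, Pi.single_apply]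
      · simp [Prod.snd_sum]
    rw [h4, map_add, map_add, hd, add_zero, map_sum, map_sum]
    simp only [map_zsmul, hi, smul_zero, Finset.sum_const_zero, AddMonoidHom.zero_apply]
  · intro v
    refine ⟨⟨⟨fun a => ∑ i, ((e a).1 i : ℚ) * v i, by simp⟩, ?_⟩, ?_⟩
    · intro a b
      simp only [map_add, Prod.fst_add, Pi.add_apply, Int.cast_add, add_mul, Finset.sum_add_distrib]
    · funext i
      simp only [L, LinearMap.coe_mk, AddHom.coe_mk, AddMonoidHom.coe_mk, ZeroHom.coe_mk,
        AddEquiv.apply_symm_apply]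
      simp [Pi.single_apply]

/-- If `A` is a finitely generated abelian group without elements of order `p`, then `A/pA` has
`p^r` elements, `r = dim_ℚ Hom(A, ℚ)`.  (`A ≅ ℤ^r ⊕ finite of order prime to p`.) -/
theorem card_modp (p : ℕ) [Fact p.Prime] (A B : Type) [AddCommGroup A] [AddCommGroup B]
    (hA : AddGroup.FG A) (htf : ∀ a : A, p • a = 0 → a = 0) (φ : A →+ B)
    (hφ : Function.Surjective φ) (hk : ∀ a, φ a = 0 ↔ ∃ a', a = p • a') :
    Nat.card B = p ^ Module.finrank ℚ (A →+ ℚ) := by
  classical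
  obtain ⟨n, D, hD1, hD2, ⟨e⟩⟩ := CardModp_struct A hA
  obtain ⟨l⟩ := CardModp_hom A n D e
  rw [l.finrank_eq, Module.finrank_fin_fun]
  -- multiplication by `p` is bijective on `D`
  have hinj : Function.Injective (fun d : D => p • d) := by
    intro d d' hdd
    have h1 : p • (d - d') = 0 := by
      rw [smul_sub]
      exact sub_eq_zero.mpr hdd
    have h2 : p • e.symm (0, d - d') = 0 := by
      rw [← map_nsmul, Prod.smul_mk, h1, smul_zero]
      have : ((0 : Fin n → ℤ), (0 : D)) = 0 := rfl
      rw [this, map_zero]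
    have h3 := htf _ h2
    have h4 : ((0 : Fin n → ℤ), d - d') = 0 := by
      rw [← map_zero e.symm] at h3
      exact e.symm.injective h3
    have h5 : d - d' = 0 := congrArg Prod.snd h4
    exact sub_eq_zero.mp h5
  have hsurj : Function.Surjective (fun d : D => p • d) := Finite.surjective_of_injective hinj
  let ψ : A →+ (Fin n → ZMod p) :=
    { toFun := fun a i => (((e a).1 i : ℤ) : ZMod p)
      map_zero' := by
        funext i
        simp
      map_add' := by
        intro a b
        funext i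
        simp }
  have hψs : Function.Surjective ψ := by
    intro v
    refine ⟨e.symm (fun i => ((v i).val : ℤ), 0), ?_⟩
    funext i
    simp [ψ]
  have hker : φ.ker = ψ.ker := by
    ext a
    rw [AddMonoidHom.mem_ker, AddMonoidHom.mem_ker, hk]
    constructor
    · rintro ⟨a', rfl⟩
      rw [map_nsmul]
      funext i
      simp
    · intro h
      have h1 : ∀ i, (p : ℤ) ∣ (e a).1 i := by
        intro i
        have := congrFun h i
        exact (ZMod.intCast_zmod_eq_zero_iff_dvd _ _).mp this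
      choose v hv using h1
      obtain ⟨d, hd⟩ := hsurj (e a).2
      refine ⟨e.symm (v, d), ?_⟩
      rw [← map_nsmul]
      apply e.injective
      rw [AddEquiv.apply_symm_apply]
      ext i
      · rw [hv i]
        simp
      · exact hd.symm
  have h1 : Nat.card B = Nat.card (A ⧸ φ.ker) :=
    Nat.card_congr (QuotientAddGroup.quotientKerEquivOfSurjective φ hφ).symm.toEquiv
  have h2 : Nat.card (Fin n → ZMod p) = Nat.card (A ⧸ ψ.ker) :=
    Nat.card_congr (QuotientAddGroup.quotientKerEquivOfSurjective ψ hψs).symm.toEquiv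
  rw [h1, hker, ← h2]
  simp

/-- `Hom(A, ℚ)` is finite dimensional for `A` finitely generated. -/
theorem hom_finite (A : Type) [AddCommGroup A] (hA : AddGroup.FG A) :
    Module.Finite ℚ (A →+ ℚ) := by
  obtain ⟨n, D, hD1, hD2, ⟨e⟩⟩ := CardModp_struct A hA
  obtain ⟨l⟩ := CardModp_hom A n D e
  exact Module.Finite.equiv l.symm

end Pool.Agent.PD3
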