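import Mathlib

/-!
# CharSub: finite index subgroups of a finitely generated normal subgroup

Paper proof.  `m = [N : K]`.  `N` finitely generated, so there are only finitely many homomorphisms
`φ : N → Perm (N/K)` (finite group); let `N'` be (the image in `G` of) the intersection of all their
kernels: it has finite index in `N`, it is stable under all automorphisms of `N`, in particular under
conjugation by `G`, and it is contained in `K` (the action of `N` on `N/K` is one of the `φ`, and an
element acting trivially fixes the coset `K`).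
-/

namespace Pool.Agent.PD3

theorem CharSub_finite_hom {N P : Type*} [Group N] [Group P] [Finite P] (hfg : Group.FG N) :
    Finite (N →* P) := by
  classical
  obtain ⟨S, hS, hSf⟩ := Group.fg_iff.mp hfg
  have hSf' : Finite S := hSf.to_subtype
  have hinj : Function.Injective (fun (φ : N →* P) => (fun s : S => φ s)) := by
    intro φ ψ h
    apply MonoidHom.eq_of_eqOn_dense hS
    intro s hs
    exact congrFun h ⟨s, hs⟩
  exact Finite.of_injective _ hinj

theorem char_sub {G : Type} [Group G] (N : Subgroup G) (hn : N.Normal) (hfg : N.FG)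
    (K : Subgroup N) (hK : K.index ≠ 0) :
    ∃ N' : Subgroup G, N'.Normal ∧ N' ≤ N ∧ N'.relIndex N ≠ 0 ∧
      ∀ x : N, (x : G) ∈ N' → x ∈ K := by
  classical
  have hKf : K.FiniteIndex := ⟨hK⟩
  have hfin : Finite (N ⧸ K) := inferInstance
  let P := Equiv.Perm (N ⧸ K)
  have hPf : Finite P := inferInstanceAs (Finite (Equiv.Perm (N ⧸ K)))
  have hNfg : Group.FG N := (Group.fg_iff_subgroup_fg N).mpr hfg
  have hhom : Finite (N →* P) := CharSub_finite_hom hNfg
  let N0 : Subgroup N := ⨅ φ : N →* P, φ.ker
  have hmem : ∀ x : N, x ∈ N0 ↔ ∀ φ : N →* P, φ x = 1 := by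
    intro x
    simp only [N0, Subgroup.mem_iInf, MonoidHom.mem_ker]
  have hfi : N0.FiniteIndex := by
    apply Subgroup.finiteIndex_iInf
    intro φ
    exact Subgroup.finiteIndex_ker φ
  refine ⟨N0.map N.subtype, ⟨?_⟩, Subgroup.map_subtype_le _, ?_, ?_⟩
  · intro n hn' g
    obtain ⟨x, hx, rfl⟩ := hn'
    refine ⟨MulAut.conjNormal g x, ?_, ?_⟩
    · have hx' := (hmem x).mp hx
      refine (hmem _).mpr fun φ => ?_
      exact hx' (φ.comp (MulAut.conjNormal g : MulAut N).toMonoidHom)
    · rfl
  · unfold Subgroup.relIndex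
    have h : (N0.map N.subtype).subgroupOf N = N0 :=
      Subgroup.comap_map_eq_self_of_injective N.subtype_injective N0
    rw [h]
    exact hfi.index_ne_zero
  · intro x hx
    obtain ⟨y, hy, hxy⟩ := hx
    have hyx : y = x := N.subtype_injective hxy
    subst hyx
    have h1 := (hmem y).mp hy (MulAction.toPermHom N (N ⧸ K))
    have h2 : y • ((1 : N) : N ⧸ K) = ((1 : N) : N ⧸ K) := by
      have := congrArg (fun f : P => f ((1 : N) : N ⧸ K)) h1
      exact this
    have h3 : ((y * 1 : N) : N ⧸ K) = ((1 : N) : N ⧸ K) := h2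
    rw [QuotientGroup.eq] at h3
    have h4 : (y * 1)⁻¹ * 1 = y⁻¹ := by group
    rw [h4] at h3
    exact inv_mem_iff.mp h3

end Pool.Agent.PD3
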