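import Pool.Agent.PD3.Perm

/-!
# Coef: the coefficient sequence `0 → ℤ[X] → ℤ[X] → (ℤ/p)[X] → 0`
-/

open CategoryTheory

namespace Pool.Agent.PD3

variable {G : Type} [Group G] {X Y : Type} [MulAction G X] [MulAction G Y]

/-- reduction modulo `p`. -/
noncomputable abbrev red (p : ℕ) (X : Type) [MulAction G X] :
    perm (G := G) ℤ ℤ X ⟶ perm (G := G) ℤ (ZMod p) X :=
  permCoeff X ((Int.castAddHom (ZMod p)).toIntLinearMap)

/-- `0 → ℤ[X] → ℤ[X] → (ℤ/p)[X] → 0` is exact. -/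
theorem ses_red (p : ℕ) (hp : 0 < p) (X : Type) [MulAction G X] :
    SES (p • 𝟙 (perm (G := G) ℤ ℤ X)) (red p X) := by
  have hap : ∀ (u : X →₀ ℤ) (x : X),
      (((p • 𝟙 (perm (G := G) ℤ ℤ X)).hom u : X →₀ ℤ)) x = (p : ℤ) * u x := by
    intro u x
    show (p • u) x = _
    rw [Finsupp.smul_apply, nsmul_eq_mul]
  have hp0 : (p : ℤ) ≠ 0 := by exact_mod_cast hp.ne'
  refine ⟨?_, ?_, ?_, ?_⟩
  · intro u v huv
    refine Finsupp.ext fun x => ?_
    have h1 := congrArg (fun w : X →₀ ℤ => w x) huv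
    have h2 : (p : ℤ) * u x = (p : ℤ) * v x := by
      rw [← hap u x, ← hap v x]; exact h1
    exact mul_left_cancel₀ hp0 h2
  · intro v
    show ∃ a : X →₀ ℤ, Finsupp.mapRange (Int.castAddHom (ZMod p)) (by simp) a = v
    refine ⟨Finsupp.mapRange (fun z : ZMod p => (z.cast : ℤ)) (by simp) v, ?_⟩
    refine Finsupp.ext fun x => ?_
    rw [Finsupp.mapRange_apply, Finsupp.mapRange_apply]
    show (((v x).cast : ℤ) : ZMod p) = v x
    exact ZMod.intCast_zmod_cast _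
  · intro a
    refine Finsupp.ext fun x => ?_
    show ((((p • 𝟙 (perm (G := G) ℤ ℤ X)).hom a : X →₀ ℤ) x : ℤ) : ZMod p) = 0
    rw [hap]
    push_cast
    simp
  · intro b hb
    have hb' : ∀ x : X, (p : ℤ) ∣ (b : X →₀ ℤ) x := by
      intro x
      have h1 := congrArg (fun w : X →₀ ZMod p => w x) hb
      have h2 : (((b : X →₀ ℤ) x : ℤ) : ZMod p) = 0 := h1
      exact (ZMod.intCast_zmod_eq_zero_iff_dvd _ _).1 h2
    refine ⟨(Finsupp.mapRange (fun z : ℤ => z / p) (by simp) (b : X →₀ ℤ) : X →₀ ℤ), ?_⟩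
    refine Finsupp.ext fun x => ?_
    have h3 := hap (Finsupp.mapRange (fun z : ℤ => z / p) (by simp) (b : X →₀ ℤ)) x
    rw [Finsupp.mapRange_apply, Int.mul_ediv_cancel' (hb' x)] at h3
    exact h3

/-- reduction commutes with transfer. -/
theorem red_tr (p : ℕ) (f : X → Y) (hf : ∀ (g : G) x, f (g • x) = g • f x)
    (hfin : ∀ y, (f ⁻¹' {y}).Finite) :
    permTr ℤ ℤ f hf hfin ≫ red (G := G) p X = red (G := G) p Y ≫ permTr ℤ (ZMod p) f hf hfin := by
  apply hom_ext'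
  intro u
  refine Finsupp.ext fun x => ?_
  rfl

/-- multiplication by `p` is zero on `(ℤ/p)[X]`. -/
theorem p_zero (p : ℕ) (X : Type) [MulAction G X] :
    p • 𝟙 (perm (G := G) ℤ (ZMod p) X) = 0 := by
  apply hom_ext'
  intro u
  refine Finsupp.ext fun x => ?_
  show (p • (u : X →₀ ZMod p)) x = 0
  rw [Finsupp.smul_apply, nsmul_eq_mul]
  simp

end Pool.Agent.PD3
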