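import Pool.Agent.PD3.Base

/-!
# Permutation modules and elementary constructions of representations
-/

open CategoryTheory

namespace Pool.Agent.PD3

variable {k G : Type} [CommRing k] [Group G]

/-- the permutation module `A[X]` of a `G`-set `X` with coefficients in a `k`-module `A`:
finitely supported functions `X → A`. -/
noncomputable def permRho (k A X : Type) [CommRing k] [AddCommGroup A] [Module k A]
    [MulAction G X] : Representation k G (X →₀ A) where
  toFun g := Finsupp.lmapDomain A k (g • · : X → X)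
  map_one' := by
    ext x a
    simp
  map_mul' g h := by
    ext x a
    simp [mul_smul]

/-- the permutation module as an object of `Rep k G`. -/
noncomputable abbrev perm (k A X : Type) [CommRing k] [AddCommGroup A] [Module k A]
    [MulAction G X] : Rep.{0} k G :=
  Rep.of (permRho (G := G) k A X)

/-- morphism of representations from an equivariant additive map. -/
noncomputable def homOfLin {M N : Rep.{0} k G} (f : M.V →ₗ[k] N.V)
    (hf : ∀ g m, f (M.ρ g m) = N.ρ g (f m)) : M ⟶ N :=
  Rep.ofHom ⟨f, fun g => LinearMap.ext fun m => hf g m⟩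

theorem homOfLin_apply {M N : Rep.{0} k G} (f : M.V →ₗ[k] N.V)
    (hf : ∀ g m, f (M.ρ g m) = N.ρ g (f m)) (m : M) : (homOfLin f hf).hom m = f m := rfl

variable {A B C X Y Z : Type} [AddCommGroup A] [AddCommGroup B] [AddCommGroup C]
  [Module k A] [Module k B] [Module k C] [MulAction G X] [MulAction G Y] [MulAction G Z]

theorem permRho_single (g : G) (x : X) (a : A) :
    permRho (G := G) k A X g (Finsupp.single x a) = Finsupp.single (g • x) a := by
  show Finsupp.mapDomain (g • · : X → X) (Finsupp.single x a) = _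
  simp

theorem permRho_apply (g : G) (u : X →₀ A) (x : X) :
    (permRho (G := G) k A X g u) x = u (g⁻¹ • x) := by
  show Finsupp.mapDomain (g • · : X → X) u x = _
  have : x = g • (g⁻¹ • x) := by simp
  conv_lhs => rw [this]
  exact Finsupp.mapDomain_apply (MulAction.injective g) _ _

/-- the map `A[X] → A[Y]` induced by an equivariant map `X → Y`. -/
noncomputable def permMap (k A : Type) [CommRing k] [AddCommGroup A] [Module k A] (f : X → Y)
    (hf : ∀ (g : G) x, f (g • x) = g • f x) : perm (G := G) k A X ⟶ perm (G := G) k A Y :=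
  homOfLin (M := perm k A X) (N := perm k A Y) (Finsupp.lmapDomain A k f) (by
    intro g m
    show Finsupp.mapDomain f (Finsupp.mapDomain (g • · : X → X) m) =
      Finsupp.mapDomain (g • · : Y → Y) (Finsupp.mapDomain f m)
    rw [← Finsupp.mapDomain_comp, ← Finsupp.mapDomain_comp]
    congr 1
    funext x
    exact hf g x)

theorem permMap_apply (f : X → Y) (hf : ∀ (g : G) x, f (g • x) = g • f x) (u : X →₀ A) :
    ((permMap k A f hf).hom u : Y →₀ A) = Finsupp.mapDomain f u := rfl

/-- the underlying linear map of the transfer. -/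
noncomputable def trLin (k A : Type) [CommRing k] [AddCommGroup A] [Module k A] {X Y : Type}
    (f : X → Y) (hfin : ∀ y, (f ⁻¹' {y}).Finite) : (Y →₀ A) →ₗ[k] (X →₀ A) where
  toFun u := Finsupp.ofSupportFinite (fun x => u (f x)) (by
    refine (u.support.finite_toSet.biUnion (fun y _ => hfin y)).subset ?_
    intro x hx
    simp only [Set.mem_iUnion]
    exact ⟨f x, by simpa using hx, rfl⟩)
  map_add' u v := by ext x; simp [Finsupp.ofSupportFinite]
  map_smul' c u := by ext x; simp [Finsupp.ofSupportFinite]

theorem trLin_apply (f : X → Y) (hfin : ∀ y, (f ⁻¹' {y}).Finite) (u : Y →₀ A) (x : X) :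
    trLin k A f hfin u x = u (f x) := rfl

/-- the transfer `A[Y] → A[X]`, `u ↦ u ∘ f`, of an equivariant map `f : X → Y` with finite
fibres. -/
noncomputable def permTr (k A : Type) [CommRing k] [AddCommGroup A] [Module k A] (f : X → Y)
    (hf : ∀ (g : G) x, f (g • x) = g • f x) (hfin : ∀ y, (f ⁻¹' {y}).Finite) :
    perm (G := G) k A Y ⟶ perm (G := G) k A X :=
  homOfLin (M := perm k A Y) (N := perm k A X) (trLin k A f hfin) (by
    intro g m
    refine Finsupp.ext fun x => ?_
    show (permRho (G := G) k A Y g m) (f x) = (permRho (G := G) k A X g _) x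
    rw [permRho_apply, permRho_apply]
    show m (g⁻¹ • f x) = m (f (g⁻¹ • x))
    rw [hf])

theorem permTr_apply (f : X → Y) (hf : ∀ (g : G) x, f (g • x) = g • f x)
    (hfin : ∀ y, (f ⁻¹' {y}).Finite) (u : Y →₀ A) (x : X) :
    ((permTr k A f hf hfin).hom u : X →₀ A) x = u (f x) := rfl

/-- change of coefficients `A[X] → B[X]`. -/
noncomputable def permCoeff (X : Type) [MulAction G X] (φ : A →ₗ[k] B) :
    perm (G := G) k A X ⟶ perm (G := G) k B X :=
  homOfLin (M := perm k A X) (N := perm k B X) (Finsupp.mapRange.linearMap φ) (by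
    intro g m
    refine Finsupp.ext fun x => ?_
    show φ ((permRho (G := G) k A X g m) x) = (permRho (G := G) k B X g _) x
    rw [permRho_apply, permRho_apply]
    rfl)

theorem permCoeff_apply (φ : A →ₗ[k] B) (u : X →₀ A) (x : X) :
    ((permCoeff (G := G) X φ).hom u : X →₀ B) x = φ (u x) := rfl

/-- the kernel of a morphism of representations. -/
noncomputable def kerRep {M N : Rep.{0} k G} (f : M ⟶ N) : Rep.{0} k G :=
  Rep.subrepresentation M (LinearMap.ker f.hom.toLinearMap) (by
    intro g m hm
    rw [Submodule.mem_comap, LinearMap.mem_ker] at *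
    show f.hom (M.ρ g m) = 0
    rw [Rep.hom_comm_apply]
    have : f.hom m = 0 := hm
    rw [this, map_zero])

/-- the inclusion of the kernel. -/
noncomputable def kerInc {M N : Rep.{0} k G} (f : M ⟶ N) : kerRep f ⟶ M :=
  Rep.subtype _ _ _

theorem kerInc_inj {M N : Rep.{0} k G} (f : M ⟶ N) : Function.Injective (kerInc f).hom :=
  Subtype.val_injective

theorem kerInc_zero {M N : Rep.{0} k G} (f : M ⟶ N) (x : kerRep f) :
    f.hom ((kerInc f).hom x) = 0 := x.2

theorem kerInc_exact {M N : Rep.{0} k G} (f : M ⟶ N) (m : M) (hm : f.hom m = 0) :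
    ∃ x, (kerInc f).hom x = m := ⟨⟨m, hm⟩, rfl⟩

theorem ses_ker {M N : Rep.{0} k G} (f : M ⟶ N) (hf : Function.Surjective f.hom) :
    SES (kerInc f) f :=
  ⟨kerInc_inj f, hf, kerInc_zero f, kerInc_exact f⟩

/-- lifting a morphism to the kernel. -/
noncomputable def kerLift {L M N : Rep.{0} k G} (f : M ⟶ N) (u : L ⟶ M)
    (hu : ∀ x, f.hom (u.hom x) = 0) : L ⟶ kerRep f :=
  homOfLin (M := L) (N := kerRep f)
    { toFun := fun x => ⟨u.hom x, hu x⟩
      map_add' := fun x y => Subtype.ext (map_add _ _ _)
      map_smul' := fun c x => Subtype.ext (map_smul _ _ _) }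
    (fun g x => Subtype.ext (Rep.hom_comm_apply u g x))

theorem kerLift_inc {L M N : Rep.{0} k G} (f : M ⟶ N) (u : L ⟶ M)
    (hu : ∀ x, f.hom (u.hom x) = 0) (x : L) :
    (kerInc f).hom ((kerLift f u hu).hom x) = u.hom x := rfl

end Pool.Agent.PD3
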