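import Pool.Agent.PD3.Ev
import Pool.Agent.PD3.Perm

/-!
# CosetK: the kernel of `k[G] → k[G/L]`

`q = qmap k L : k[G] → k[G/L]`, `g ↦ gL`.  Its kernel is generated as a `G`-module by the elements
`s - 1`, `s` in a generating set `S` of `L`: elements of the kernel are sums of `c (x l - x)`,
`l ∈ L`, `x ∈ G`; and `l l' - 1 = l (l' - 1) + (l - 1)`, `l⁻¹ - 1 = - l⁻¹ (l - 1)`
(`Subgroup.closure_induction`).
-/

open CategoryTheory

namespace Pool.Agent.PD3

variable {k G : Type} [CommRing k] [Group G]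

/-- the projection `k[G] → k[G/L]`. -/
noncomputable def qmap (k : Type) {G : Type} [CommRing k] [Group G] (L : Subgroup G) :
    Rep.leftRegular k G ⟶ perm (G := G) k k (G ⧸ L) :=
  ev (perm (G := G) k k (G ⧸ L)) (Finsupp.single ((1 : G) : G ⧸ L) (1 : k))

theorem qmap_single (L : Subgroup G) (g : G) (r : k) :
    ((qmap k L).hom (MonoidAlgebra.single g r) : (G ⧸ L) →₀ k) =
      Finsupp.single (g : G ⧸ L) r := by
  unfold qmap
  rw [ev_single]
  show r • permRho (G := G) k k (G ⧸ L) g (Finsupp.single ((1 : G) : G ⧸ L) (1 : k)) = _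
  rw [permRho_single, Finsupp.smul_single, smul_eq_mul, mul_one]
  congr 1
  show ((g * 1 : G) : G ⧸ L) = _
  rw [mul_one]

theorem qmap_surj (L : Subgroup G) : Function.Surjective (qmap k L).hom := by
  intro u
  have h : ∀ u : (G ⧸ L) →₀ k, ∃ a : Rep.leftRegular k G, (qmap k L).hom a = u := by
    intro u
    induction u using Finsupp.induction_linear with
    | zero => exact ⟨0, map_zero _⟩
    | add f g hf hg =>
      obtain ⟨a, ha⟩ := hf
      obtain ⟨b, hb⟩ := hg
      exact ⟨a + b, by rw [map_add, ha, hb]⟩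
    | single x r =>
      induction x using QuotientGroup.induction_on with
      | H g => exact ⟨MonoidAlgebra.single g r, qmap_single L g r⟩
  exact h u

/-- the element `l - 1` of the kernel. -/
noncomputable def kel (k : Type) {G : Type} [CommRing k] [Group G] (L : Subgroup G) (l : L) :
    (kerRep (qmap k L)).V :=
  ⟨MonoidAlgebra.single (l : G) 1 - MonoidAlgebra.single 1 1, by
    rw [LinearMap.mem_ker]
    show (qmap k L).hom (MonoidAlgebra.single (l : G) 1 - MonoidAlgebra.single 1 1) = 0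
    rw [map_sub]
    have h : ((l : G) : G ⧸ L) = ((1 : G) : G ⧸ L) := by
      rw [QuotientGroup.eq]
      simp
    have h2 : ((qmap k L).hom (MonoidAlgebra.single (l : G) 1) : (G ⧸ L) →₀ k) =
        ((qmap k L).hom (MonoidAlgebra.single (1 : G) 1) : (G ⧸ L) →₀ k) := by
      rw [qmap_single, qmap_single, h]
    exact sub_eq_zero.2 h2⟩

theorem kel_inc (L : Subgroup G) (l : L) :
    (kerInc (qmap k L)).hom (kel k L l) =
      MonoidAlgebra.single (l : G) 1 - MonoidAlgebra.single 1 1 := rfl

/-- `(l l' - 1) = l (l' - 1) + (l - 1)`. -/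
theorem kel_mul (L : Subgroup G) (l l' : L) :
    kel k L (l * l') = (kerRep (qmap k L)).ρ (l : G) (kel k L l') + kel k L l := by
  apply kerInc_inj (qmap k L)
  rw [map_add, Rep.hom_comm_apply, kel_inc, kel_inc, kel_inc, map_sub, lr_rho, lr_rho, mul_one]
  show MonoidAlgebra.single ((l : G) * (l' : G)) 1 - _ = _
  abel

theorem CosetK_one (L : Subgroup G) : kel k L 1 = 0 := by
  apply kerInc_inj (qmap k L)
  rw [kel_inc, map_zero]
  exact sub_self _

theorem CosetK_inv (L : Subgroup G) (l : L) :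
    kel k L l⁻¹ = -(kerRep (qmap k L)).ρ ((l : G)⁻¹) (kel k L l) := by
  have h := kel_mul (k := k) L l⁻¹ l
  rw [inv_mul_cancel, CosetK_one] at h
  exact eq_neg_of_add_eq_zero_right h.symm

theorem CosetK_all (L : Subgroup G) (S : Set L) (hS : Subgroup.closure S = ⊤)
    (W : Submodule k (kerRep (qmap k L)).V)
    (hW : ∀ g, ∀ w ∈ W, (kerRep (qmap k L)).ρ g w ∈ W) (hSW : ∀ s ∈ S, kel k L s ∈ W) (l : L) :
    kel k L l ∈ W := by
  have hl : l ∈ Subgroup.closure S := by
    rw [hS]
    exact Subgroup.mem_top l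
  induction hl using Subgroup.closure_induction with
  | mem x hx => exact hSW x hx
  | one =>
    rw [CosetK_one]
    exact W.zero_mem
  | mul x y _ _ hx hy =>
    rw [kel_mul]
    exact W.add_mem (hW _ _ hy) hx
  | inv x _ hx =>
    rw [CosetK_inv]
    exact W.neg_mem (hW _ _ hx)

/-- a linear section of `k[G] → k[G/L]` -/
noncomputable def CosetK_sec (k : Type) {G : Type} [CommRing k] [Group G] (L : Subgroup G) :
    ((G ⧸ L) →₀ k) →+ (Rep.leftRegular k G).V :=
  Finsupp.liftAddHom (fun y : G ⧸ L =>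
    { toFun := fun r => (MonoidAlgebra.single (Quotient.out y) r : MonoidAlgebra k G)
      map_zero' := MonoidAlgebra.single_zero _
      map_add' := fun _ _ => MonoidAlgebra.single_add _ _ _ })

theorem CosetK_sec_single (L : Subgroup G) (y : G ⧸ L) (r : k) :
    CosetK_sec k L (Finsupp.single y r) = MonoidAlgebra.single (Quotient.out y) r := by
  unfold CosetK_sec
  exact Finsupp.liftAddHom_apply_single _ _ _

/-- generation. -/
theorem kel_gen (L : Subgroup G) (S : Set L) (hS : Subgroup.closure S = ⊤)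
    (W : Submodule k (kerRep (qmap k L)).V)
    (hW : ∀ g, ∀ w ∈ W, (kerRep (qmap k L)).ρ g w ∈ W) (hSW : ∀ s ∈ S, kel k L s ∈ W) :
    W = ⊤ := by
  have hall := CosetK_all L S hS W hW hSW
  have key : ∀ a : MonoidAlgebra k G, ∃ w ∈ W, (kerInc (qmap k L)).hom w =
      a - CosetK_sec k L ((qmap k L).hom a : (G ⧸ L) →₀ k) := by
    intro a
    induction a using MonoidAlgebra.induction_linear with
    | zero =>
      refine ⟨0, W.zero_mem, ?_⟩
      have h1 : ((qmap k L).hom (0 : MonoidAlgebra k G) : (G ⧸ L) →₀ k) = 0 :=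
        map_zero (qmap k L).hom
      rw [h1, map_zero, map_zero]
      exact (sub_zero _).symm
    | add f g hf hg =>
      obtain ⟨a, ha, ha'⟩ := hf
      obtain ⟨b, hb, hb'⟩ := hg
      refine ⟨a + b, W.add_mem ha hb, ?_⟩
      have h1 : ((qmap k L).hom (f + g) : (G ⧸ L) →₀ k) =
        ((qmap k L).hom f : (G ⧸ L) →₀ k) + ((qmap k L).hom g : (G ⧸ L) →₀ k) :=
        map_add (qmap k L).hom f g
      rw [h1, map_add, map_add, ha', hb']
      abel
    | single g r =>
      have hm : (Quotient.out (g : G ⧸ L))⁻¹ * g ∈ L := by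
        rw [← QuotientGroup.eq]
        exact Quotient.out_eq _
      refine ⟨r • (kerRep (qmap k L)).ρ (Quotient.out (g : G ⧸ L)) (kel k L ⟨_, hm⟩),
        W.smul_mem _ (hW _ _ (hall _)), ?_⟩
      rw [qmap_single, CosetK_sec_single, map_smul, Rep.hom_comm_apply, kel_inc, map_sub, lr_rho,
        lr_rho]
      show r • (MonoidAlgebra.single _ (1 : k) - MonoidAlgebra.single _ 1) = _
      rw [smul_sub, MonoidAlgebra.smul_single, MonoidAlgebra.smul_single, smul_eq_mul, mul_one,
        mul_one]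
      congr 2
      show Quotient.out (g : G ⧸ L) * ((Quotient.out (g : G ⧸ L))⁻¹ * g) = g
      group
  rw [eq_top_iff]
  intro x _
  obtain ⟨w, hw, hw'⟩ := key ((kerInc (qmap k L)).hom x)
  have h1 : ((qmap k L).hom ((kerInc (qmap k L)).hom x) : (G ⧸ L) →₀ k) = 0 :=
    kerInc_zero (qmap k L) x
  rw [h1, map_zero] at hw'
  have h2 : w = x := by
    apply kerInc_inj (qmap k L)
    rw [hw']
    exact sub_zero _
  rw [← h2]
  exact hw

end Pool.Agent.PD3
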