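import Pool.Agent.PD3.Base

/-!
# Ev: morphisms out of the regular representation

`ev M x : k[G] ⟶ M` is the morphism sending `g` to `ρ(g) x`.
-/

open CategoryTheory

namespace Pool.Agent.PD3

variable {k G : Type} [CommRing k] [Group G]

/-- the morphism `k[G] ⟶ M`, `g ↦ ρ(g) x`. -/
noncomputable abbrev ev (M : Rep.{0} k G) (x : M.V) : Rep.leftRegular k G ⟶ M :=
  Rep.leftRegularHom M x

theorem ev_single (M : Rep.{0} k G) (x : M.V) (g : G) (r : k) :
    (ev M x).hom (MonoidAlgebra.single g r) = r • M.ρ g x :=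
  Rep.leftRegularHom_hom_single g x r

theorem ev_one (M : Rep.{0} k G) (x : M.V) :
    (ev M x).hom (MonoidAlgebra.single (1 : G) (1 : k)) = x := by
  rw [ev_single]
  simp

theorem lr_ext {M : Rep.{0} k G} {f g : Rep.leftRegular k G ⟶ M}
    (h : f.hom (MonoidAlgebra.single (1 : G) (1 : k)) =
      g.hom (MonoidAlgebra.single (1 : G) (1 : k))) : f = g := by
  apply (Rep.leftRegularHomEquiv M).injective
  exact h

theorem ev_comp {M N : Rep.{0} k G} (x : M.V) (f : M ⟶ N) :
    ev M x ≫ f = ev N (f.hom x) := by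
  apply lr_ext
  rw [ev_one]
  show f.hom ((ev M x).hom _) = _
  rw [ev_one]

theorem ev_add (M : Rep.{0} k G) (x y : M.V) : ev M (x + y) = ev M x + ev M y := by
  apply lr_ext
  rw [ev_one]
  show _ = (ev M x).hom _ + (ev M y).hom _
  rw [ev_one, ev_one]

theorem ev_sub (M : Rep.{0} k G) (x y : M.V) : ev M (x - y) = ev M x - ev M y := by
  apply lr_ext
  rw [ev_one]
  show _ = (ev M x).hom _ - (ev M y).hom _
  rw [ev_one, ev_one]

theorem ev_smul (M : Rep.{0} k G) (c : k) (x : M.V) : ev M (c • x) = c • ev M x := by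
  apply lr_ext
  rw [ev_one]
  show _ = c • (ev M x).hom _
  rw [ev_one]

theorem ev_id : ev (Rep.leftRegular k G) (MonoidAlgebra.single (1 : G) (1 : k)) =
    𝟙 (Rep.leftRegular k G) := by
  apply lr_ext
  rw [ev_one]
  rfl

/-- right translation by `g` on the regular representation. -/
noncomputable abbrev rt (k : Type) {G : Type} [CommRing k] [Group G] (g : G) :
    Rep.leftRegular k G ⟶ Rep.leftRegular k G :=
  ev (Rep.leftRegular k G) (MonoidAlgebra.single g (1 : k))

theorem rt_comp_ev (M : Rep.{0} k G) (g : G) (x : M.V) :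
    rt k g ≫ ev M x = ev M (M.ρ g x) := by
  rw [ev_comp, ev_single, one_smul]

theorem lr_rho (g h : G) (r : k) : (Rep.leftRegular k G).ρ g (MonoidAlgebra.single h r) =
    MonoidAlgebra.single (g * h) r :=
  Representation.ofMulAction_single g h r

theorem rt_mul (g h : G) : rt k (g * h) = rt k g ≫ rt k h := by
  rw [rt_comp_ev, lr_rho]

end Pool.Agent.PD3
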