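import Pool.Agent.PD3.Defs
import Pool.Agent.PD3.Ev

/-!
# Orient: a perfect subgroup acts trivially on the dualizing module

Paper proof.  `D = HH (k[G]) 3 ≃ₗ[k] k`.  Each `Hm (rt k g) 3 : D → D` is multiplication by a scalar
`c_g : k`; `c_1 = 1` (`ev_id`, `Hm_id`) and `c_{gh} = c_h c_g` (`rt_mul`, `Hm_comp`), so `g ↦ c_g` is
a homomorphism from `G` to the commutative group `kˣ`.  It is trivial on `⁅N, N⁆ = N`.
-/

open CategoryTheory

namespace Pool.Agent.PD3

variable {k G : Type} [CommRing k] [Group G]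

/-- an endomorphism of a module isomorphic to `k` is multiplication by a scalar. -/
theorem Orient_scalar {D : Type} [AddCommGroup D] [Module k D] (e : D ≃ₗ[k] k) (f : D →ₗ[k] D)
    (d : D) : f d = e (f (e.symm 1)) • d := by
  apply e.injective
  have h1 : d = (e d) • e.symm 1 := by
    rw [← map_smul, smul_eq_mul, mul_one, LinearEquiv.symm_apply_apply]
  conv_lhs => rw [h1]
  rw [map_smul, map_smul, map_smul, smul_eq_mul, smul_eq_mul, mul_comm]

theorem Orient_one {D : Type} [AddCommGroup D] [Module k D] (e : D ≃ₗ[k] k) (f : D →ₗ[k] D)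
    (hf : ∀ d, f d = d) : e (f (e.symm 1)) = 1 := by
  rw [hf, LinearEquiv.apply_symm_apply]

theorem Orient_mul {D : Type} [AddCommGroup D] [Module k D] (e : D ≃ₗ[k] k) (f g h : D →ₗ[k] D)
    (hf : ∀ d, h d = g (f d)) : e (h (e.symm 1)) = e (f (e.symm 1)) * e (g (e.symm 1)) := by
  rw [hf, Orient_scalar e g (f (e.symm 1)), map_smul, smul_eq_mul, mul_comm]

theorem orient (hG : IsPDk k G) (N : Subgroup G) (hN : ⁅N, N⁆ = N) (n : G) (hn : n ∈ N)
    (d : HH (Rep.leftRegular k G) 3) : Hm (rt k n) 3 d = d := by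
  obtain ⟨e⟩ := hG.top
  let χ : G →* k :=
    { toFun := fun g => e (Hm (rt k g) 3 (e.symm 1))
      map_one' := Orient_one e (Hm (rt k 1) 3) fun d => by
        have h1 : rt k (1 : G) = 𝟙 (Rep.leftRegular k G) := ev_id
        rw [h1, Hm_id]
      map_mul' := fun g h => Orient_mul e (Hm (rt k g) 3) (Hm (rt k h) 3) (Hm (rt k (g * h)) 3)
        fun d => by rw [rt_mul, Hm_comp] }
  have hker : n ∈ χ.toHomUnits.ker := by
    have h1 : n ∈ commutator G := by
      have h2 : ⁅N, N⁆ ≤ ⁅(⊤ : Subgroup G), ⊤⁆ := Subgroup.commutator_mono le_top le_top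
      rw [hN] at h2
      exact h2 hn
    exact Abelianization.commutator_subset_ker χ.toHomUnits h1
  have h3 : χ n = 1 := by
    rw [MonoidHom.mem_ker] at hker
    have := congrArg Units.val hker
    rwa [MonoidHom.coe_toHomUnits, Units.val_one] at this
  have h4 := Orient_scalar e (Hm (rt k n) 3) d
  rw [h4]
  show χ n • d = d
  rw [h3, one_smul]

end Pool.Agent.PD3
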