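import Pool.Agent.PD3.Gen3
import Pool.Agent.PD3.Orient
import Pool.Agent.PD3.CosetK

/-!
# Coset2: `H^2(G; k[G/L])`

Paper proof.  `K = kerRep (qmap k L)`.
* `kerH3_fg`: `L` is generated by a finite set `S`; by `gen3`, `kel_gen`, `HH K 3` is spanned by the
  `Hm (ev K (s-1)) 3 d`, `s ∈ S`, `d ∈ D`; `D ≃ k`, so finitely many of them suffice.
* `coset2_inj`: `HH (k[G/L]) 2` embeds by `δ` into `HH K 3` because `HH (k[G]) 2 = 0` (`hG.vanish`,
  `SES.les`).
* `coset2_fg`: `k` is Noetherian.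
* `kerH3_perfect`: `L = N` perfect.  Fix `d ∈ D`.  The map `Λ : N → HH K 3`,
  `n ↦ Hm (ev K (kel n)) 3 d` satisfies `Λ (n m) = Λ m + Λ n` (`kel_mul`, `ev_add`, `rt_comp_ev`,
  `Hm_comp`, `orient`).  A homomorphism from a perfect group to an abelian group is `0`.
  So `HH K 3 = 0`.
* `coset2_perfect`.
-/

open CategoryTheory

namespace Pool.Agent.PD3

variable {k G : Type} [CommRing k] [Group G]

theorem Coset2_span (hG : IsPDk k G) (L : Subgroup G) (S : Set L)
    (hS : Subgroup.closure S = ⊤) (c : HH (kerRep (qmap k L)) 3) :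
    c ∈ Submodule.span k {y | ∃ s ∈ S, ∃ d : HH (Rep.leftRegular k G) 3,
      y = Hm (ev (kerRep (qmap k L)) (kel k L s)) 3 d} := by
  have h := gen3 hG (kerRep (qmap k L)) (kel k L '' S) (fun W hW hSW =>
    kel_gen L S hS W hW (fun s hs => hSW ⟨s, hs, rfl⟩)) c
  refine Submodule.span_mono ?_ h
  rintro y ⟨_, ⟨s, hs, rfl⟩, d, rfl⟩
  exact ⟨s, hs, d, rfl⟩

theorem kerH3_fg (hG : IsPDk k G) (L : Subgroup G) (hL : L.FG) :
    Module.Finite k (HH (kerRep (qmap k L)) 3) := by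
  classical
  obtain ⟨e⟩ := hG.top
  obtain ⟨S, hS⟩ := (Group.fg_iff_subgroup_fg L).2 hL
  refine ⟨⟨S.image (fun s => Hm (ev (kerRep (qmap k L)) (kel k L s)) 3 (e.symm 1)), ?_⟩⟩
  rw [eq_top_iff]
  intro c _
  have hc := Coset2_span hG L (S : Set L) hS c
  refine Submodule.span_le.2 ?_ hc
  rintro y ⟨s, hs, d, rfl⟩
  have hd : d = e d • e.symm 1 := by
    apply e.injective
    rw [map_smul, e.apply_symm_apply, smul_eq_mul, mul_one]
  rw [hd, map_smul]
  apply Submodule.smul_mem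
  apply Submodule.subset_span
  rw [Finset.coe_image]
  exact ⟨s, hs, rfl⟩

theorem Coset2_perfect_hom {A : Type} [AddCommGroup A] (N : Subgroup G) (hperf : ⁅N, N⁆ = N)
    (f : N → A) (hf : ∀ n m : N, f (n * m) = f n + f m) (n : N) : f n = 0 := by
  let φ : N →* Multiplicative A :=
    { toFun := fun n => Multiplicative.ofAdd (f n)
      map_one' := by
        have h := hf 1 1
        rw [mul_one] at h
        have h2 : f 1 = 0 := by
          have := add_eq_left.1 h.symm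
          exact this
        show Multiplicative.ofAdd (f 1) = 1
        rw [h2]
        rfl
      map_mul' := fun n m => by
        show Multiplicative.ofAdd (f (n * m)) = _
        rw [hf]
        rfl }
  have h1 : ⁅N, N⁆ ≤ φ.ker.map N.subtype := by
    rw [Subgroup.commutator_le]
    intro a ha b hb
    refine ⟨(⟨a, ha⟩ : N) * ⟨b, hb⟩ * (⟨a, ha⟩ : N)⁻¹ * (⟨b, hb⟩ : N)⁻¹, ?_, rfl⟩
    rw [SetLike.mem_coe, MonoidHom.mem_ker, map_mul, map_mul, map_mul, map_inv, map_inv,
      mul_inv_eq_one, mul_inv_eq_iff_eq_mul]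
    exact mul_comm _ _
  have h2 : (n : G) ∈ φ.ker.map N.subtype := h1 (by rw [hperf]; exact n.2)
  obtain ⟨m, hm, hmn⟩ := h2
  have h3 : m = n := Subtype.ext hmn
  rw [SetLike.mem_coe, MonoidHom.mem_ker, h3] at hm
  exact hm

theorem kerH3_perfect (hG : IsPDk k G) (N : Subgroup G) (hperf : ⁅N, N⁆ = N)
    (c : HH (kerRep (qmap k N)) 3) : c = 0 := by
  have hz : ∀ (n : N) (d : HH (Rep.leftRegular k G) 3),
      Hm (ev (kerRep (qmap k N)) (kel k N n)) 3 d = 0 := by
    intro n d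
    refine Coset2_perfect_hom N hperf
      (fun n => Hm (ev (kerRep (qmap k N)) (kel k N n)) 3 d) ?_ n
    intro n m
    show Hm (ev (kerRep (qmap k N)) (kel k N (n * m))) 3 d = _
    rw [kel_mul, ev_add, Hm_add, ← rt_comp_ev, Hm_comp, orient hG N hperf (n : G) n.2 d]
    exact add_comm _ _
  have hc := Coset2_span hG N Set.univ (by simp) c
  induction hc using Submodule.span_induction with
  | mem x hx =>
    obtain ⟨s, -, d, rfl⟩ := hx
    exact hz s d
  | zero => rfl
  | add x y _ _ hx hy => rw [hx, hy, add_zero]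
  | smul a x _ hx => rw [hx, smul_zero]

theorem coset2_inj (hG : IsPDk k G) (L : Subgroup G) :
    ∃ δ : HH (perm (G := G) k k (G ⧸ L)) 2 →ₗ[k] HH (kerRep (qmap k L)) 3,
      Function.Injective δ := by
  obtain ⟨δ, -, h2, -⟩ := (ses_ker (qmap k L) (qmap_surj L)).les 2
  refine ⟨δ, ?_⟩
  rw [injective_iff_map_eq_zero]
  intro x hx
  obtain ⟨y, rfl⟩ := (h2 x).1 hx
  rw [hG.vanish 2 (by norm_num) y]
  exact map_zero _

theorem coset2_fg [IsNoetherianRing k] (hG : IsPDk k G) (L : Subgroup G) (hL : L.FG) :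
    Module.Finite k (HH (perm (G := G) k k (G ⧸ L)) 2) := by
  obtain ⟨δ, hδ⟩ := coset2_inj hG L
  have h1 := kerH3_fg hG L hL
  have h2 : IsNoetherian k (HH (kerRep (qmap k L)) 3) := isNoetherian_of_isNoetherianRing_of_finite k _
  exact Module.Finite.of_injective δ hδ

theorem coset2_perfect (hG : IsPDk k G) (N : Subgroup G) (hperf : ⁅N, N⁆ = N)
    (c : HH (perm (G := G) k k (G ⧸ N)) 2) : c = 0 := by
  obtain ⟨δ, hδ⟩ := coset2_inj hG N
  apply hδ
  rw [kerH3_perfect hG N hperf (δ c), map_zero]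

end Pool.Agent.PD3
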