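import Pool.Agent.PD3.Gen3
import Pool.Agent.PD3.Orient
import Pool.Agent.PD3.CosetK

/-!
# Coset3: `H^3(G; k[G/L]) ≅ k`

Paper proof.  `L` acts trivially on `D = HH (k[G]) 3 ≃ k` (`ht`), `K = kerRep (qmap k L)`.
By `gen3` and `kel_gen` (with `S = univ`), `HH K 3` is spanned by the `Hm (ev K (l-1)) 3 d`, `l ∈ L`;
its image in `D` is zero because `ev K (kel l) ≫ kerInc q = ev _ (single l 1 - single 1 1)
= rt k l - 𝟙` (`ev_comp`, `kel_inc`, `ev_sub`, `ev_id`) acts as `0` on `D` by `ht`.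
So `Hm q 3 : D → HH (k[G/L]) 3` is injective (`SES.mid (ses_ker ..)`), and it is surjective since
`HH K 4 = 0` (`high4`, `SES.les`).
-/

open CategoryTheory

namespace Pool.Agent.PD3

variable {k G : Type} [CommRing k] [Group G]

theorem Coset3_span (hG : IsPDk k G) (L : Subgroup G) (S : Set L)
    (hS : Subgroup.closure S = ⊤) (c : HH (kerRep (qmap k L)) 3) :
    c ∈ Submodule.span k {y | ∃ s ∈ S, ∃ d : HH (Rep.leftRegular k G) 3,
      y = Hm (ev (kerRep (qmap k L)) (kel k L s)) 3 d} := by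
  have h := gen3 hG (kerRep (qmap k L)) (kel k L '' S) (fun W hW hSW =>
    kel_gen L S hS W hW (fun s hs => hSW ⟨s, hs, rfl⟩)) c
  refine Submodule.span_mono ?_ h
  rintro y ⟨_, ⟨s, hs, rfl⟩, d, rfl⟩
  exact ⟨s, hs, d, rfl⟩

theorem Coset3_zero (L : Subgroup G) (l : L) (d : HH (Rep.leftRegular k G) 3)
    (ht : Hm (rt k (l : G)) 3 d = d) :
    Hm (kerInc (qmap k L)) 3 (Hm (ev (kerRep (qmap k L)) (kel k L l)) 3 d) = 0 := by
  rw [← Hm_comp, ev_comp, kel_inc, ev_sub, Hm_sub, ev_id, Hm_id, ht]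
  exact sub_self d

theorem coset3 (hG : IsPDk k G) (L : Subgroup G)
    (ht : ∀ l ∈ L, ∀ d : HH (Rep.leftRegular k G) 3, Hm (rt k l) 3 d = d) :
    Nonempty (HH (perm (G := G) k k (G ⧸ L)) 3 ≃ₗ[k] k) := by
  obtain ⟨e⟩ := hG.top
  have hses := ses_ker (qmap k L) (qmap_surj L)
  obtain ⟨δ, h1, h2, -⟩ := hses.les 3
  have hz : ∀ c : HH (kerRep (qmap k L)) 3, Hm (kerInc (qmap k L)) 3 c = 0 := by
    intro c
    have hc := Coset3_span hG L Set.univ (by simp) c
    induction hc using Submodule.span_induction with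
    | mem x hx =>
      obtain ⟨s, -, d, rfl⟩ := hx
      exact Coset3_zero L s d (ht _ s.2 d)
    | zero => exact map_zero _
    | add x y _ _ hx hy => rw [map_add, hx, hy, add_zero]
    | smul a x _ hx => rw [map_smul, hx, smul_zero]
  have hinj : Function.Injective (Hm (qmap k L) 3) := by
    rw [injective_iff_map_eq_zero]
    intro x hx
    obtain ⟨y, rfl⟩ := (h1 x).1 hx
    exact hz y
  have hsurj : Function.Surjective (Hm (qmap k L) 3) := by
    intro x
    exact (h2 x).1 (high4 hG _ 4 le_rfl _)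
  exact ⟨(LinearEquiv.ofBijective (Hm (qmap k L) 3) ⟨hinj, hsurj⟩).symm.trans e⟩

end Pool.Agent.PD3
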