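import Pool.Agent.PD3.Perm

/-!
# CosetMap: the map `G/L' → G/L`, transfer and projection
-/

open CategoryTheory

namespace Pool.Agent.PD3

variable {k G : Type} [CommRing k] [Group G]

theorem cosetMap_smul {L' L : Subgroup G} (h : L' ≤ L) (g : G) (x : G ⧸ L') :
    Subgroup.quotientMapOfLE h (g • x) = g • Subgroup.quotientMapOfLE h x := by
  induction x using QuotientGroup.induction_on with | H x => rfl

theorem cosetMap_surj {L' L : Subgroup G} (h : L' ≤ L) :
    Function.Surjective (Subgroup.quotientMapOfLE h : G ⧸ L' → G ⧸ L) := by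
  intro y
  induction y using QuotientGroup.induction_on with | H x => exact ⟨(x : G ⧸ L'), rfl⟩

theorem CosetMap_card' {L' L : Subgroup G} (h : L' ≤ L) (y : G ⧸ L) :
    Nat.card ((Subgroup.quotientMapOfLE h : G ⧸ L' → G ⧸ L) ⁻¹' {y}) = L'.relIndex L := by
  induction y using QuotientGroup.induction_on with
  | H g =>
    rw [Subgroup.relIndex, Subgroup.index]
    symm
    have key : ∀ l : L, Subgroup.quotientMapOfLE h ((g * (l : G) : G) : G ⧸ L') =
        ((g : G) : G ⧸ L) := by
      intro l
      show ((g * (l : G) : G) : G ⧸ L) = (g : G ⧸ L)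
      rw [eq_comm, QuotientGroup.eq]
      simp
    let F : L ⧸ L'.subgroupOf L →
        ((Subgroup.quotientMapOfLE h : G ⧸ L' → G ⧸ L) ⁻¹' {((g : G) : G ⧸ L)}) :=
      Quotient.lift (fun l : L => ⟨((g * (l : G) : G) : G ⧸ L'), key l⟩) (by
        intro a b hab
        have hab' := QuotientGroup.leftRel_apply.1 hab
        rw [Subgroup.mem_subgroupOf] at hab'
        apply Subtype.ext
        show ((g * (a : G) : G) : G ⧸ L') = ((g * (b : G) : G) : G ⧸ L')
        rw [QuotientGroup.eq]
        simpa [mul_assoc] using hab')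
    refine Nat.card_congr (Equiv.ofBijective F ⟨?_, ?_⟩)
    · intro a b
      induction a using QuotientGroup.induction_on with
      | H a =>
        induction b using QuotientGroup.induction_on with
        | H b =>
          intro hab
          have h1 : ((g * (a : G) : G) : G ⧸ L') = ((g * (b : G) : G) : G ⧸ L') :=
            congrArg Subtype.val hab
          rw [QuotientGroup.eq] at h1
          rw [QuotientGroup.eq, Subgroup.mem_subgroupOf]
          simpa [mul_assoc] using h1
    · rintro ⟨x, hx⟩
      induction x using QuotientGroup.induction_on with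
      | H x =>
        have hx' : ((x : G) : G ⧸ L) = (g : G ⧸ L) := hx
        have hx2 := QuotientGroup.eq.1 hx'.symm
        refine ⟨((⟨g⁻¹ * x, hx2⟩ : L) : L ⧸ L'.subgroupOf L), ?_⟩
        apply Subtype.ext
        show ((g * (g⁻¹ * x) : G) : G ⧸ L') = (x : G ⧸ L')
        rw [mul_inv_cancel_left]

theorem cosetMap_fiber {L' L : Subgroup G} (h : L' ≤ L) (hfin : L'.relIndex L ≠ 0) (y : G ⧸ L) :
    ((Subgroup.quotientMapOfLE h : G ⧸ L' → G ⧸ L) ⁻¹' {y}).Finite := by
  have : Nat.card ((Subgroup.quotientMapOfLE h : G ⧸ L' → G ⧸ L) ⁻¹' {y}) ≠ 0 := by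
    rw [CosetMap_card']; exact hfin
  exact Set.finite_coe_iff.1 (Nat.finite_of_card_ne_zero this)

/-- the fibres have exactly `[L : L']` elements. -/
theorem cosetMap_card {L' L : Subgroup G} (h : L' ≤ L) (y : G ⧸ L) :
    Nat.card ((Subgroup.quotientMapOfLE h : G ⧸ L' → G ⧸ L) ⁻¹' {y}) = L'.relIndex L :=
  CosetMap_card' h y

/-- projection `A[G/L'] → A[G/L]`. -/
noncomputable abbrev prj (k A : Type) [CommRing k] [AddCommGroup A] [Module k A]
    {L' L : Subgroup G} (h : L' ≤ L) : perm (G := G) k A (G ⧸ L') ⟶ perm (G := G) k A (G ⧸ L) :=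
  permMap k A (Subgroup.quotientMapOfLE h) (cosetMap_smul h)

/-- transfer `A[G/L] → A[G/L']`. -/
noncomputable abbrev trf (k A : Type) [CommRing k] [AddCommGroup A] [Module k A]
    {L' L : Subgroup G} (h : L' ≤ L) (hfin : L'.relIndex L ≠ 0) :
    perm (G := G) k A (G ⧸ L) ⟶ perm (G := G) k A (G ⧸ L') :=
  permTr k A (Subgroup.quotientMapOfLE h) (cosetMap_smul h) (cosetMap_fiber h hfin)

/-- transfer followed by projection is multiplication by the index. -/
theorem trf_prj (k A : Type) [CommRing k] [AddCommGroup A] [Module k A]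
    {L' L : Subgroup G} (h : L' ≤ L) (hfin : L'.relIndex L ≠ 0) :
    trf (G := G) k A h hfin ≫ prj k A h = (L'.relIndex L) • 𝟙 (perm k A (G ⧸ L)) := by
  classical
  apply hom_ext'
  intro u
  show Finsupp.mapDomain (Subgroup.quotientMapOfLE h)
    (trLin k A (Subgroup.quotientMapOfLE h) (cosetMap_fiber h hfin) u) = (L'.relIndex L) • u
  refine Finsupp.ext fun y => ?_
  rw [Finsupp.mapDomain, Finsupp.sum_apply, Finsupp.smul_apply]
  set f : G ⧸ L' → G ⧸ L := Subgroup.quotientMapOfLE h with hf
  have hfib := cosetMap_fiber h hfin y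
  rw [Finsupp.sum_of_support_subset _ (s := (trLin k A f (cosetMap_fiber h hfin) u).support ∪
    hfib.toFinset) Finset.subset_union_left _ (by simp)]
  rw [← Finset.sum_subset (s₁ := hfib.toFinset) Finset.subset_union_right]
  · rw [Finset.sum_congr rfl (g := fun _ => u y)]
    · rw [Finset.sum_const]
      congr 1
      rw [← cosetMap_card h y, Nat.card_coe_set_eq, Set.ncard_eq_toFinset_card _ hfib]
    · intro x hx
      have hx' : f x = y := by simpa using hx
      rw [trLin_apply, hx']
      show (Finsupp.single (f x) (u y)) y = u y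
      rw [hx', Finsupp.single_eq_same]
  · intro x _ hx
    have hx' : f x ≠ y := by simpa using hx
    show (Finsupp.single (f x) _) y = 0
    rw [Finsupp.single_apply, if_neg hx']

/-- transitivity of the transfer. -/
theorem trf_trans (k A : Type) [CommRing k] [AddCommGroup A] [Module k A] {L' L N : Subgroup G}
    (h' : L' ≤ L) (h : L ≤ N)
    (hf' : L'.relIndex L ≠ 0) (hf : L.relIndex N ≠ 0) (hf'' : L'.relIndex N ≠ 0) :
    trf (G := G) k A h hf ≫ trf k A h' hf' = trf k A (h'.trans h) hf'' := by
  apply hom_ext'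
  intro u
  refine Finsupp.ext fun x => ?_
  show u (Subgroup.quotientMapOfLE h (Subgroup.quotientMapOfLE h' x)) =
    u (Subgroup.quotientMapOfLE (h'.trans h) x)
  congr 1
  induction x using QuotientGroup.induction_on with | H x => rfl

end Pool.Agent.PD3
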