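import Pool.Agent.PD3.Base

/-!
# CountSes: counting in one long exact sequence

`0 = H^0(C) → H^1(A) → H^1(B) → H^1(C) → H^2(A) → H^2(B) → H^2(C) → H^3(A) → H^3(B) → H^3(C) →
H^4(A) = 0` is exact (`SES.les`), all groups finite, so the alternating product of the orders is `1`.
(Order of the middle term = |range| · |kernel|: e.g. `AddSubgroup.card_eq_card_quotient_mul_card_addSubgroup`
or `Nat.card` of `range`/`ker`.)
-/

open CategoryTheory

namespace Pool.Agent.PD3

variable {G : Type} [Group G]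

theorem CountSes_card {k A B C : Type} [CommRing k] [AddCommGroup A] [AddCommGroup B]
    [AddCommGroup C] [Module k A] [Module k B] [Module k C] (f : A →ₗ[k] B) (g : B →ₗ[k] C)
    (h : ∀ x, g x = 0 ↔ ∃ y, f y = x) :
    Nat.card B = Nat.card (LinearMap.range f) * Nat.card (LinearMap.range g) := by
  have h1 : LinearMap.ker g = LinearMap.range f := by
    ext x
    rw [LinearMap.mem_ker, LinearMap.mem_range]
    exact h x
  rw [Submodule.card_eq_card_quotient_mul_card (LinearMap.ker g),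
    Nat.card_congr (LinearMap.quotKerEquivRange g).toEquiv, h1]

theorem CountSes_fin {k A B C : Type} [CommRing k] [AddCommGroup A] [AddCommGroup B]
    [AddCommGroup C] [Module k A] [Module k B] [Module k C] (f : A →ₗ[k] B) (g : B →ₗ[k] C)
    (h : ∀ x, g x = 0 ↔ ∃ y, f y = x) (hA : Finite A) (hC : Finite C) : Finite B := by
  have h1 : LinearMap.ker g = LinearMap.range f := by
    ext x
    rw [LinearMap.mem_ker, LinearMap.mem_range]
    exact h x
  have h2 : Finite (LinearMap.ker g) := by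
    rw [h1]
    exact Finite.of_surjective f.rangeRestrict f.surjective_rangeRestrict
  have h3 : Finite (B ⧸ LinearMap.ker g) :=
    Finite.of_equiv _ (LinearMap.quotKerEquivRange g).toEquiv.symm
  refine Nat.finite_of_card_ne_zero ?_
  rw [Submodule.card_eq_card_quotient_mul_card (LinearMap.ker g)]
  exact Nat.mul_ne_zero Nat.card_pos.ne' Nat.card_pos.ne'

theorem count_ses {A B C : Rep.{0} ℤ G} {f : A ⟶ B} {g : B ⟶ C} (h : SES f g)
    (h0 : ∀ c : HH C 0, c = 0) (h4 : ∀ c : HH A 4, c = 0)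
    (hA : ∀ i, 1 ≤ i → i ≤ 3 → Finite (HH A i)) (hC : ∀ i, 1 ≤ i → i ≤ 3 → Finite (HH C i)) :
    (∀ i, 1 ≤ i → i ≤ 3 → Finite (HH B i)) ∧
    Nat.card (HH B 2) * (Nat.card (HH A 1) * Nat.card (HH A 3)) *
      (Nat.card (HH C 1) * Nat.card (HH C 3)) =
    Nat.card (HH A 2) * Nat.card (HH C 2) * (Nat.card (HH B 1) * Nat.card (HH B 3)) := by
  obtain ⟨δ0, -, -, k0⟩ := h.les 0
  obtain ⟨δ1, i1, j1, k1⟩ := h.les 1
  obtain ⟨δ2, i2, j2, k2⟩ := h.les 2
  obtain ⟨δ3, i3, j3, k3⟩ := h.les 3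
  refine ⟨fun i h1 h3 => ?_, ?_⟩
  · exact CountSes_fin (Hm f i) (Hm g i) (h.mid i) (hA i h1 h3) (hC i h1 h3)
  · have eA1 := CountSes_card δ0 (Hm f 1) k0
    have eB1 := CountSes_card (Hm f 1) (Hm g 1) i1
    have eC1 := CountSes_card (Hm g 1) δ1 j1
    have eA2 := CountSes_card δ1 (Hm f 2) k1
    have eB2 := CountSes_card (Hm f 2) (Hm g 2) i2
    have eC2 := CountSes_card (Hm g 2) δ2 j2
    have eA3 := CountSes_card δ2 (Hm f 3) k2
    have eB3 := CountSes_card (Hm f 3) (Hm g 3) i3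
    have eC3 := CountSes_card (Hm g 3) δ3 j3
    have r0 : Nat.card (LinearMap.range δ0) = 1 := by
      have : LinearMap.range δ0 = ⊥ := by
        rw [eq_bot_iff]
        rintro _ ⟨y, rfl⟩
        rw [h0 y, map_zero]
        exact Submodule.zero_mem _
      rw [this]
      exact Nat.card_unique
    have r9 : Nat.card (LinearMap.range δ3) = 1 := by
      have : LinearMap.range δ3 = ⊥ := by
        rw [eq_bot_iff]
        rintro _ ⟨y, rfl⟩
        rw [h4 (δ3 y)]
        exact Submodule.zero_mem _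
      rw [this]
      exact Nat.card_unique
    simp only [Nat.zero_add, Nat.reduceAdd] at eA1 eB1 eC1 eA2 eB2 eC2 eA3 eB3 eC3
    rw [eA1, eB1, eC1, eA2, eB2, eC2, eA3, eB3, eC3, r0, r9]
    ring

end Pool.Agent.PD3
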