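import Pool.Agent.PD3.CoverDef
import Pool.Agent.PD3.CosetMap

/-!
# CoverCoset: `G/L' → G/L` is a covering with deck group of order `p`

`L' ≤ L` normalized by `L`, of prime index `p`.  Choose `l ∈ L`, `l ∉ L'`; `τ (x L') = x l L'`
(well defined as `l⁻¹ L' l = L'`: note `L` acts on `L'` by conjugation, both directions).  `L/L'` is
a group of prime order `p` generated by the class of `l`, so `τ` has order `p`, acts freely, and
its orbits are the fibres of `G/L' → G/L`.
-/

open CategoryTheory

namespace Pool.Agent.PD3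

variable {G : Type} [Group G]

theorem exists_cover (p : ℕ) [Fact p.Prime] (L' L : Subgroup G) (h : L' ≤ L)
    (hn : ∀ l ∈ L, ∀ x ∈ L', l * x * l⁻¹ ∈ L') (hp : L'.relIndex L = p) :
    ∃ τ : G ⧸ L' → G ⧸ L', Cover G p (Subgroup.quotientMapOfLE h : G ⧸ L' → G ⧸ L) τ := by
  have hpp : p.Prime := Fact.out
  -- the quotient group `L / L'`
  have hN : (L'.subgroupOf L).Normal := by
    constructor
    intro n hn' g
    rw [Subgroup.mem_subgroupOf] at hn' ⊢
    exact hn g g.2 n hn'
  have hcard : Nat.card (L ⧸ L'.subgroupOf L) = p := by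
    rw [← hp]
    rfl
  have hex : ∃ l ∈ L, l ∉ L' := by
    by_contra hcon
    push Not at hcon
    have : L'.relIndex L = 1 := Subgroup.relIndex_eq_one.2 hcon
    rw [hp] at this
    exact hpp.one_lt.ne' this
  obtain ⟨l, hl, hl'⟩ := hex
  set q : L ⧸ L'.subgroupOf L := QuotientGroup.mk (⟨l, hl⟩ : L) with hq
  have hq1 : q ≠ 1 := by
    intro h1
    rw [hq, QuotientGroup.eq_one_iff, Subgroup.mem_subgroupOf] at h1
    exact hl' h1
  have hqpow : ∀ i : ℕ, q ^ i = QuotientGroup.mk (⟨l ^ i, L.pow_mem hl i⟩ : L) := by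
    intro i
    rw [hq, ← QuotientGroup.mk_pow]
    rfl
  have hlp : l ^ p ∈ L' := by
    have h1 : q ^ p = 1 := by rw [← hcard]; exact pow_card_eq_one'
    rw [hqpow, QuotientGroup.eq_one_iff, Subgroup.mem_subgroupOf] at h1
    exact h1
  have hgen : ∀ g ∈ L, ∃ i : ℕ, (l ^ i)⁻¹ * g ∈ L' := by
    intro g hg
    have h1 := mem_powers_of_prime_card (G := L ⧸ L'.subgroupOf L) (p := p) hcard (g := q)
      (g' := QuotientGroup.mk (⟨g, hg⟩ : L)) hq1
    obtain ⟨i, hi⟩ := h1
    refine ⟨i, ?_⟩
    simp only at hi
    rw [hqpow, QuotientGroup.eq, Subgroup.mem_subgroupOf] at hi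
    exact hi
  -- the deck transformation
  have hwd : ∀ a b : G, a⁻¹ * b ∈ L' → (a * l)⁻¹ * (b * l) ∈ L' := by
    intro a b hab
    have := hn l⁻¹ (L.inv_mem hl) _ hab
    rw [inv_inv] at this
    have e : (a * l)⁻¹ * (b * l) = l⁻¹ * (a⁻¹ * b) * l := by group
    rw [e]
    exact this
  let τ : G ⧸ L' → G ⧸ L' := Quotient.map' (fun x => x * l) (by
    intro a b hab
    rw [QuotientGroup.leftRel_apply] at hab ⊢
    exact hwd a b hab)
  have hτ : ∀ x : G, τ (QuotientGroup.mk x) = QuotientGroup.mk (x * l) := fun x => rfl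
  have hτi : ∀ (i : ℕ) (x : G), τ^[i] (QuotientGroup.mk x) = QuotientGroup.mk (x * l ^ i) := by
    intro i
    induction i with
    | zero => intro x; simp
    | succ i ih =>
      intro x
      rw [Function.iterate_succ_apply, hτ, ih, pow_succ', mul_assoc]
  refine ⟨τ, ?_, cosetMap_surj h, ?_, ?_, ?_, ?_, ?_⟩
  · intro g x
    exact cosetMap_smul h g x
  · intro g x
    induction x using QuotientGroup.induction_on with
    | H x =>
      show τ (QuotientGroup.mk (g * x)) = QuotientGroup.mk (g * (x * l))
      rw [hτ, mul_assoc]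
  · intro x
    induction x using QuotientGroup.induction_on with
    | H x =>
      rw [hτi, QuotientGroup.eq]
      have : (x * l ^ p)⁻¹ * x = (l ^ p)⁻¹ := by group
      rw [this]
      exact L'.inv_mem hlp
  · intro x
    induction x using QuotientGroup.induction_on with
    | H x =>
      rw [hτ]
      intro heq
      rw [QuotientGroup.eq] at heq
      have : (x * l)⁻¹ * x = l⁻¹ := by group
      rw [this] at heq
      exact hl' (by simpa using L'.inv_mem heq)
  · intro x
    induction x using QuotientGroup.induction_on with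
    | H x =>
      rw [hτ]
      show (QuotientGroup.mk (x * l) : G ⧸ L) = QuotientGroup.mk x
      rw [QuotientGroup.eq]
      have : (x * l)⁻¹ * x = l⁻¹ := by group
      rw [this]
      exact L.inv_mem hl
  · intro x x'
    induction x using QuotientGroup.induction_on with
    | H x =>
      induction x' using QuotientGroup.induction_on with
      | H x' =>
        intro hf
        have hf' : (QuotientGroup.mk x : G ⧸ L) = QuotientGroup.mk x' := hf
        rw [QuotientGroup.eq] at hf'
        obtain ⟨i, hi⟩ := hgen _ hf'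
        refine ⟨i, ?_⟩
        rw [hτi]
        symm
        rw [QuotientGroup.eq]
        have : (x * l ^ i)⁻¹ * x' = (l ^ i)⁻¹ * (x⁻¹ * x') := by group
        rw [this]
        exact hi

end Pool.Agent.PD3
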