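import Pool.Agent.PD3.Perm

/-!
# CoverDef: coverings of `G`-sets with deck group of prime order
-/

open CategoryTheory

namespace Pool.Agent.PD3

/-- `f : X → Y` is a covering of `G`-sets with deck transformation `τ` of order `p`. -/
structure Cover (G : Type) [Group G] (p : ℕ) {X Y : Type} [MulAction G X] [MulAction G Y]
    (f : X → Y) (τ : X → X) : Prop where
  fG : ∀ (g : G) x, f (g • x) = g • f x
  fsurj : Function.Surjective f
  τG : ∀ (g : G) x, τ (g • x) = g • τ x
  τp : ∀ x, τ^[p] x = x
  τfree : ∀ x, τ x ≠ x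
  fτ : ∀ x, f (τ x) = f x
  fib : ∀ x x', f x = f x' → ∃ i, x' = τ^[i] x

end Pool.Agent.PD3
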