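import Pool.Agent.PD3.Base

/-!
# Poincare duality groups of dimension 3
-/

open CategoryTheory

namespace Pool.Agent.PD3

/-- `G` is of type `FP` over `k`: the trivial `k[G]`-module `k` has a projective resolution by
finitely generated projective `k[G]`-modules which is zero in all large degrees. -/
def IsTypeFP (k G : Type) [CommRing k] [Group G] : Prop :=
  ∃ P : ProjectiveResolution (Rep.trivial k G k),
    (∀ i, Module.Finite (MonoidAlgebra k G) (P.complex.X i).ρ.asModule) ∧
    ∃ n, ∀ i, n < i → Limits.IsZero (P.complex.X i)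

/-- `G` is a `PD_3`-group: `G` is of type `FP` over `ℤ`, `H^i(G; ℤ[G]) = 0` for `i ≠ 3` and
`H^3(G; ℤ[G])` is infinite cyclic as an abelian group. -/
structure IsPD3 (G : Type) [Group G] : Prop where
  fp : IsTypeFP ℤ G
  vanish : ∀ i, i ≠ 3 → Subsingleton (groupCohomology (Rep.leftRegular ℤ G) i)
  top : Nonempty (groupCohomology (Rep.leftRegular ℤ G) 3 ≃+ ℤ)

/-- auxiliary version over a general commutative ring. -/
structure IsPDk (k G : Type) [CommRing k] [Group G] : Prop where
  fp : IsTypeFP k G
  vanish : ∀ i, i ≠ 3 → ∀ c : HH (Rep.leftRegular k G) i, c = 0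
  top : Nonempty (HH (Rep.leftRegular k G) 3 ≃ₗ[k] k)

theorem IsPD3.toPDk {G : Type} [Group G] (h : IsPD3 G) : IsPDk ℤ G where
  fp := h.fp
  vanish i hi c := by
    have := h.vanish i hi
    exact Subsingleton.elim _ _
  top := by
    obtain ⟨e⟩ := h.top
    refine ⟨{ e with map_smul' := fun n x => ?_ }⟩
    have h2 := map_intCast_smul e ℤ ℤ n x
    simpa using h2

end Pool.Agent.PD3
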