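import Pool.Agent.PD3.CosetMap

/-!
# DerBase: `N`-invariant functions on `G/L` are transfers from `G/N`

`L ≤ N`, `N` normal: `N` acts transitively on the fibres of `G/L → G/N`
(`n • gL = g (g⁻¹ n g) L`), so an `N`-invariant function is constant on the fibres.
-/

open CategoryTheory

namespace Pool.Agent.PD3

variable {k G : Type} [CommRing k] [Group G]

/-- `N` preserves the fibres. -/
theorem fiber_stable (N L : Subgroup G) (hn : N.Normal) (h : L ≤ N) (n : G) (hnN : n ∈ N)
    (x : G ⧸ L) : Subgroup.quotientMapOfLE h (n • x) = Subgroup.quotientMapOfLE h x := by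
  induction x using QuotientGroup.induction_on with
  | H g =>
    show ((n * g : G) : G ⧸ N) = (g : G ⧸ N)
    rw [QuotientGroup.eq]
    have h1 : (n * g)⁻¹ * g = g⁻¹ * n⁻¹ * (g⁻¹)⁻¹ := by group
    rw [h1]
    exact hn.conj_mem _ (N.inv_mem hnN) _

/-- `N` is transitive on the fibres. -/
theorem fiber_trans (N L : Subgroup G) (hn : N.Normal) (h : L ≤ N) (x y : G ⧸ L)
    (hxy : Subgroup.quotientMapOfLE h x = Subgroup.quotientMapOfLE h y) :
    ∃ n ∈ N, y = n • x := by
  induction x using QuotientGroup.induction_on with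
  | H g =>
    induction y using QuotientGroup.induction_on with
    | H g' =>
      have h1 : (g : G ⧸ N) = (g' : G ⧸ N) := hxy
      rw [QuotientGroup.eq] at h1
      refine ⟨g * (g⁻¹ * g') * g⁻¹, hn.conj_mem _ h1 _, ?_⟩
      show ((g' : G) : G ⧸ L) = ((g * (g⁻¹ * g') * g⁻¹ * g : G) : G ⧸ L)
      congr 1
      group

theorem inv_trf {A : Type} [AddCommGroup A] [Module k A] (N L : Subgroup G) (hn : N.Normal)
    (h : L ≤ N) (hfin : L.relIndex N ≠ 0) (u : (G ⧸ L) →₀ A)
    (hu : ∀ n ∈ N, permRho k A (G ⧸ L) n u = u) :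
    ∃ v : (G ⧸ N) →₀ A, (trf (G := G) k A h hfin).hom v = u := by
  have hs := cosetMap_surj h
  have hinj : Function.Injective (Function.surjInv hs) := Function.injective_surjInv hs
  refine ⟨Finsupp.comapDomain (Function.surjInv hs) u hinj.injOn, ?_⟩
  refine Finsupp.ext fun x => ?_
  show u (Function.surjInv hs (Subgroup.quotientMapOfLE h x)) = u x
  obtain ⟨n, hnN, hn2⟩ := fiber_trans N L hn h (Function.surjInv hs (Subgroup.quotientMapOfLE h x)) x
    (Function.surjInv_eq hs _)
  have h2 := congrArg (fun w : (G ⧸ L) →₀ A => w x) (hu n hnN)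
  simp only [permRho_apply] at h2
  rw [← h2]
  congr 1
  conv_rhs => rw [hn2]
  simp

theorem trf_inj {A : Type} [AddCommGroup A] [Module k A] {L N : Subgroup G}
    (h : L ≤ N) (hfin : L.relIndex N ≠ 0) :
    Function.Injective (trf (G := G) k A h hfin).hom := by
  intro v v' hv
  refine Finsupp.ext fun y => ?_
  obtain ⟨x, rfl⟩ := cosetMap_surj h y
  exact congrArg (fun w : (G ⧸ L) →₀ A => w x) hv

end Pool.Agent.PD3
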