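import Pool.Agent.PD3.DerBase

/-!
# DerInj: the transfer `H^1(G; A[G/N]) → H^1(G; A[G/L])` is injective for perfect `N`

Classes in `HH _ 1` are represented by `1`-cocycles (`groupCohomology.H1_induction_on`,
`H1π_eq_zero_iff`, `H1π_comp_map_apply`, `mem_cocycles₁_iff`).  Let `d''` be a cocycle with values
in `A[G/N]` and `trf (d'' x) = ρ(x) m - m`.  On `N`, `d''` is a homomorphism from `N` to an abelian
group (`N` acts trivially on `A[G/N]`), so it vanishes as `N` is perfect.  So `m` is `N`-invariant,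
`m = trf m''` (`inv_trf`), and `d'' x = ρ(x) m'' - m''` by `trf_inj`.
-/

open CategoryTheory

namespace Pool.Agent.PD3

variable {k G : Type} [CommRing k] [Group G]

theorem DerInj_Hm {M M' : Rep.{0} k G} (f : M ⟶ M') (z : groupCohomology.cocycles₁ M) :
    Hm f 1 (groupCohomology.H1π M z) =
      groupCohomology.H1π M' (groupCohomology.mapCocycles₁ (MonoidHom.id G) f z) :=
  groupCohomology.H1π_comp_map_apply (MonoidHom.id G) f z

theorem DerInj_coe {M M' : Rep.{0} k G} (f : M ⟶ M') (z : groupCohomology.cocycles₁ M) (g : G) :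
    (groupCohomology.mapCocycles₁ (MonoidHom.id G) f z : G → M') g = f.hom (z g) := rfl

theorem DerInj_triv {A : Type} [AddCommGroup A] [Module k A] (N : Subgroup G) (hn : N.Normal)
    (n : G) (hnN : n ∈ N) (u : (G ⧸ N) →₀ A) : permRho k A (G ⧸ N) n u = u := by
  refine Finsupp.ext fun x => ?_
  rw [permRho_apply]
  congr 1
  induction x using QuotientGroup.induction_on with | H x => ?_
  show ((n⁻¹ * x : G) : G ⧸ N) = (x : G ⧸ N)
  rw [QuotientGroup.eq]
  have : (n⁻¹ * x)⁻¹ * x = x⁻¹ * n * x⁻¹⁻¹ := by group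
  rw [this]
  exact hn.conj_mem n hnN x⁻¹

theorem der_inj {A : Type} [AddCommGroup A] [Module k A] (N L : Subgroup G) (hn : N.Normal)
    (hperf : ⁅N, N⁆ = N) (h : L ≤ N) (hfin : L.relIndex N ≠ 0) :
    Function.Injective (Hm (trf (G := G) k A h hfin) 1) := by
  rw [injective_iff_map_eq_zero]
  intro c
  induction c using groupCohomology.H1_induction_on with | h z => ?_
  intro hz
  rw [DerInj_Hm, groupCohomology.H1π_eq_zero_iff] at hz
  obtain ⟨m, hm⟩ := hz
  have hm' : ∀ g : G, (perm (G := G) k A (G ⧸ L)).ρ g m - m =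
      (trf (G := G) k A h hfin).hom (z g) := fun g => congrFun hm g
  have hcoc := (groupCohomology.mem_cocycles₁_iff (A := perm (G := G) k A (G ⧸ N)) z.1).1 z.2
  have hcoc' : ∀ g g' : G, (z (g * g') : (G ⧸ N) →₀ A) =
      permRho k A (G ⧸ N) g (z g') + z g := fun g g' => hcoc g g'
  -- `z` vanishes on `N`
  have hadd : ∀ g ∈ N, ∀ g' : G, (z (g * g') : (G ⧸ N) →₀ A) = z g' + z g := by
    intro g hg g'
    rw [hcoc', DerInj_triv N hn g hg]
  have hone : (z (1 : G) : (G ⧸ N) →₀ A) = 0 := groupCohomology.cocycles₁_map_one z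
  have hinv : ∀ g ∈ N, (z g⁻¹ : (G ⧸ N) →₀ A) = - z g := by
    intro g hg
    have h1 := hadd g hg g⁻¹
    rw [mul_inv_cancel, hone] at h1
    exact eq_neg_of_add_eq_zero_left h1.symm
  let K : Subgroup G :=
    { carrier := {n | n ∈ N ∧ (z n : (G ⧸ N) →₀ A) = 0}
      mul_mem' := by
        rintro a b ⟨ha, ha'⟩ ⟨hb, hb'⟩
        refine ⟨N.mul_mem ha hb, ?_⟩
        rw [hadd a ha b, ha', hb', add_zero]
      one_mem' := ⟨N.one_mem, hone⟩
      inv_mem' := by
        rintro a ⟨ha, ha'⟩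
        refine ⟨N.inv_mem ha, ?_⟩
        rw [hinv a ha, ha', neg_zero] }
  have hK : ⁅N, N⁆ ≤ K := by
    rw [Subgroup.commutator_le]
    intro a ha b hb
    refine ⟨?_, ?_⟩
    · rw [commutatorElement_def]
      exact N.mul_mem (N.mul_mem (N.mul_mem ha hb) (N.inv_mem ha)) (N.inv_mem hb)
    · rw [commutatorElement_def, hadd _ (N.mul_mem (N.mul_mem ha hb) (N.inv_mem ha)),
        hadd _ (N.mul_mem ha hb), hadd a ha b, hinv a ha, hinv b hb]
      abel
  have hzN : ∀ n ∈ N, (z n : (G ⧸ N) →₀ A) = 0 := fun n hnN => (hK (hperf.symm ▸ hnN)).2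
  -- `m` is `N`-invariant
  obtain ⟨v, hv⟩ := inv_trf (k := k) N L hn h hfin m (by
    intro n hnN
    have h1 := hm' n
    have h2 : (trf (G := G) k A h hfin).hom (z n) = 0 := by
      have : z n = 0 := hzN n hnN
      rw [this, map_zero]
    rw [h2, sub_eq_zero] at h1
    exact h1)
  rw [groupCohomology.H1π_eq_zero_iff]
  refine ⟨v, funext fun g => ?_⟩
  show (perm (G := G) k A (G ⧸ N)).ρ g v - v = z g
  apply trf_inj (k := k) h hfin
  rw [← hm' g, map_sub, hv]
  congr 1
  rw [Rep.hom_comm_apply, hv]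

end Pool.Agent.PD3
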