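import Pool.Agent.PD3.DerBase

/-!
# DerSurj: the transfer `H^1(G; A[G/N]) → H^1(G; A[G/L])` is surjective

`N` is a finitely generated normal subgroup of infinite index, `L ≤ N` of finite index.
Classes in `HH _ 1` are represented by `1`-cocycles `d : G → A[G/L]`,
`d (g h) = d g + ρ(g) (d h)` (`groupCohomology.H1_induction_on`, `H1π_eq_iff`,
`H1π_comp_map_apply`, `mem_cocycles₁_iff`).

Let `d` be a cocycle with values in `A[G/L]`.
 1. The supports of all `d n`, `n ∈ N`, lie in one finite `N`-stable set: take the union of the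
    fibres of `G/L → G/N` that meet the supports of `d s`, `s` in a finite generating set of `N`
    (`fiber_stable`).  Call `T ⊂ G/N` the finite set of these fibres.
 2. `G/N` is infinite, so there is `g` with `g T ∩ T = ∅`.
 3. For `n ∈ N`: `d (g n g⁻¹) = d g + ρ(g) d n - ρ(g n g⁻¹) d g`.  Let `v` be the restriction of
    `d g` to the fibres over `T`.  Restricting this identity to the fibres over `T` (the term
    `ρ(g) d n` is supported over `g T`) gives `d n' = v - ρ(n') v` for `n' = g n g⁻¹`, and `n'` runs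
    over all of `N`.
 4. `d' x = d x + ρ(x) v - v` is a cohomologous cocycle vanishing on `N`.  Hence
    `ρ(n) d' x = d' (n x) = d' (x (x⁻¹ n x)) = d' x`: the values of `d'` are `N`-invariant, hence
    in the image of the transfer (`inv_trf`).  As the transfer is injective and equivariant,
    `d' = trf ∘ d''` with `d''` a cocycle.
-/

open CategoryTheory

namespace Pool.Agent.PD3

variable {k G : Type} [CommRing k] [Group G]

/-- translation away from a finite set -/
theorem DerSurj_move (N : Subgroup G) (hn : N.Normal) (hinf : N.index = 0) (T : Finset (G ⧸ N)) :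
    ∃ g : G, ∀ t ∈ T, g • t ∉ T := by
  classical
  have : Infinite (G ⧸ N) := Subgroup.index_eq_zero_iff_infinite.1 hinf
  obtain ⟨q, hq⟩ := Infinite.exists_notMem_finset ((T ×ˢ T).image (fun p => p.2 * p.1⁻¹))
  obtain ⟨g, rfl⟩ := QuotientGroup.mk_surjective q
  refine ⟨g, fun t ht ht' => hq ?_⟩
  rw [Finset.mem_image]
  refine ⟨(t, g • t), Finset.mem_product.2 ⟨ht, ht'⟩, ?_⟩
  show (g • t) * t⁻¹ = _
  have h1 : g • t = (g : G ⧸ N) * t := by
    induction t using QuotientGroup.induction_on with | H x => rfl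
  rw [h1, mul_assoc, mul_inv_cancel, mul_one]

section main

variable {A : Type} [AddCommGroup A] [Module k A]

/-- cocycle condition, in terms of functions -/
def DerSurj_coc (L : Subgroup G) (d : G → ((G ⧸ L) →₀ A)) : Prop :=
  ∀ g h : G, d (g * h) = permRho k A (G ⧸ L) g (d h) + d g

theorem DerSurj_one {L : Subgroup G} {d : G → ((G ⧸ L) →₀ A)} (hd : DerSurj_coc (k := k) L d) :
    d 1 = 0 := by
  have h := hd 1 1
  rw [mul_one, map_one] at h
  have h2 : (1 : Module.End k ((G ⧸ L) →₀ A)) (d 1) = d 1 := rfl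
  rw [h2] at h
  exact left_eq_add.1 h

theorem DerSurj_rho_mul (L : Subgroup G) (g h : G) (u : (G ⧸ L) →₀ A) :
    permRho k A (G ⧸ L) (g * h) u = permRho k A (G ⧸ L) g (permRho k A (G ⧸ L) h u) := by
  rw [map_mul]; rfl

theorem DerSurj_rho_one (L : Subgroup G) (u : (G ⧸ L) →₀ A) :
    permRho k A (G ⧸ L) (1 : G) u = u := by
  rw [map_one]; rfl

theorem DerSurj_inv {L : Subgroup G} {d : G → ((G ⧸ L) →₀ A)} (hd : DerSurj_coc (k := k) L d) (g : G) :
    permRho k A (G ⧸ L) g (d g⁻¹) = - d g := by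
  have h := hd g g⁻¹
  rw [mul_inv_cancel, DerSurj_one hd] at h
  exact eq_neg_of_add_eq_zero_left h.symm

/-- supports of the values on `N` -/
theorem DerSurj_supp {N L : Subgroup G} (hn : N.Normal) (hfg : N.FG) (h : L ≤ N)
    {d : G → ((G ⧸ L) →₀ A)} (hd : DerSurj_coc (k := k) L d) :
    ∃ T : Finset (G ⧸ N), ∀ n ∈ N, ∀ x, d n x ≠ 0 → Subgroup.quotientMapOfLE h x ∈ T := by
  classical
  obtain ⟨s, hs⟩ := hfg
  refine ⟨s.biUnion (fun g => (d g).support.image (Subgroup.quotientMapOfLE h)), ?_⟩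
  set T := s.biUnion (fun g => (d g).support.image (Subgroup.quotientMapOfLE h)) with hT
  let K : Subgroup G :=
    { carrier := {n | n ∈ N ∧ ∀ x, d n x ≠ 0 → Subgroup.quotientMapOfLE h x ∈ T}
      one_mem' := ⟨N.one_mem, fun x hx => by
        rw [DerSurj_one hd] at hx
        exact absurd rfl hx⟩
      mul_mem' := by
        rintro a b ⟨ha, ha2⟩ ⟨hb, hb2⟩
        refine ⟨N.mul_mem ha hb, fun x hx => ?_⟩
        rw [hd a b, Finsupp.add_apply, permRho_apply] at hx
        by_cases h1 : d b (a⁻¹ • x) = 0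
        · rw [h1, zero_add] at hx
          exact ha2 x hx
        · have h2 := hb2 _ h1
          rwa [fiber_stable N L hn h a⁻¹ (N.inv_mem ha)] at h2
      inv_mem' := by
        rintro a ⟨ha, ha2⟩
        refine ⟨N.inv_mem ha, fun x hx => ?_⟩
        have h1 := DerSurj_inv hd a
        have h2 := DFunLike.congr_fun h1 (a • x)
        rw [permRho_apply, inv_smul_smul, Finsupp.neg_apply] at h2
        have h3 : d a (a • x) ≠ 0 := by
          intro h4
          rw [h4, neg_zero] at h2
          exact hx h2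
        have h4 := ha2 _ h3
        rwa [fiber_stable N L hn h a ha] at h4 }
  have hle : N ≤ K := by
    rw [← hs, Subgroup.closure_le]
    intro g hg
    refine ⟨by rw [← hs]; exact Subgroup.subset_closure hg, fun x hx => ?_⟩
    rw [hT, Finset.mem_biUnion]
    exact ⟨g, hg, Finset.mem_image_of_mem _ (Finsupp.mem_support_iff.2 hx)⟩
  intro n hnN
  exact (hle hnN).2

/-- restriction to the fibres over `T` -/
theorem DerSurj_bound {N L : Subgroup G} (hn : N.Normal) (hfg : N.FG) (hinf : N.index = 0) (h : L ≤ N)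
    {d : G → ((G ⧸ L) →₀ A)} (hd : DerSurj_coc (k := k) L d) :
    ∃ v : (G ⧸ L) →₀ A, ∀ n ∈ N, d n = v - permRho k A (G ⧸ L) n v := by
  classical
  obtain ⟨T, hT⟩ := DerSurj_supp hn hfg h hd
  obtain ⟨g, hg⟩ := DerSurj_move N hn hinf T
  refine ⟨(d g).filter (fun x => Subgroup.quotientMapOfLE h x ∈ T), fun n' hn' => ?_⟩
  set n := g⁻¹ * n' * g with hnd
  have hnN : n ∈ N := by
    have := hn.conj_mem n' hn' g⁻¹
    rwa [inv_inv] at this
  have hn2 : n' = g * n * g⁻¹ := by rw [hnd]; group
  have key : d n' = d g - permRho k A (G ⧸ L) n' (d g) + permRho k A (G ⧸ L) g (d n) := by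
    have h1 : d n' = permRho k A (G ⧸ L) g (permRho k A (G ⧸ L) n (d g⁻¹) + d n) + d g := by
      rw [← hd n g⁻¹, ← hd g (n * g⁻¹), ← mul_assoc, ← hn2]
    have h2 : permRho k A (G ⧸ L) g (permRho k A (G ⧸ L) n (d g⁻¹)) =
        - permRho k A (G ⧸ L) n' (d g) := by
      rw [← DerSurj_rho_mul, show g * n = n' * g by rw [hn2]; group, DerSurj_rho_mul, DerSurj_inv hd, map_neg]
    rw [h1, map_add, h2]
    abel
  refine Finsupp.ext fun x => ?_
  rw [Finsupp.sub_apply, permRho_apply]
  by_cases hx : Subgroup.quotientMapOfLE h x ∈ T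
  · have hx' : Subgroup.quotientMapOfLE h (n'⁻¹ • x) ∈ T := by
      rw [fiber_stable N L hn h n'⁻¹ (N.inv_mem hn')]
      exact hx
    rw [Finsupp.filter_apply_pos (fun x => Subgroup.quotientMapOfLE h x ∈ T) _ hx,
      Finsupp.filter_apply_pos (fun x => Subgroup.quotientMapOfLE h x ∈ T) _ hx', key, Finsupp.add_apply,
      Finsupp.sub_apply, permRho_apply, permRho_apply]
    have h3 : d n (g⁻¹ • x) = 0 := by
      by_contra hne
      have h4 := hT n hnN _ hne
      have h5 := hg _ h4
      rw [cosetMap_smul h, smul_inv_smul] at h5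
      exact h5 hx
    rw [h3, add_zero]
  · have hx' : ¬ Subgroup.quotientMapOfLE h (n'⁻¹ • x) ∈ T := by
      rw [fiber_stable N L hn h n'⁻¹ (N.inv_mem hn')]
      exact hx
    rw [Finsupp.filter_apply_neg (fun x => Subgroup.quotientMapOfLE h x ∈ T) _ hx,
      Finsupp.filter_apply_neg (fun x => Subgroup.quotientMapOfLE h x ∈ T) _ hx', sub_zero]
    by_contra hne
    exact hx (hT n' hn' x hne)

/-- the cohomologous cocycle with values in the image of the transfer -/
theorem DerSurj_lift {N L : Subgroup G} (hn : N.Normal) (hfg : N.FG) (hinf : N.index = 0) (h : L ≤ N)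
    (hfin : L.relIndex N ≠ 0) {d : G → ((G ⧸ L) →₀ A)} (hd : DerSurj_coc (k := k) L d) :
    ∃ (v : (G ⧸ L) →₀ A) (e : G → ((G ⧸ N) →₀ A)), ∀ x,
      ((trf (G := G) k A h hfin).hom (e x) : (G ⧸ L) →₀ A) = d x + permRho k A (G ⧸ L) x v - v := by
  obtain ⟨v, hv⟩ := DerSurj_bound hn hfg hinf h hd
  set d' : G → ((G ⧸ L) →₀ A) := fun x => d x + permRho k A (G ⧸ L) x v - v with hd'
  have hc : DerSurj_coc (k := k) L d' := by
    intro a b
    simp only [hd']
    rw [hd a b, DerSurj_rho_mul, map_sub, map_add]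
    abel
  have h0 : ∀ n ∈ N, d' n = 0 := by
    intro n hnN
    simp only [hd']
    rw [hv n hnN]
    abel
  have hinv : ∀ x, ∀ n ∈ N, permRho k A (G ⧸ L) n (d' x) = d' x := by
    intro x n hnN
    have h1 := hc n x
    rw [h0 n hnN, add_zero] at h1
    have h2 := hc x (x⁻¹ * n * x)
    have h3 : x⁻¹ * n * x ∈ N := by
      have := hn.conj_mem n hnN x⁻¹
      rwa [inv_inv] at this
    rw [h0 _ h3, map_zero, zero_add, show x * (x⁻¹ * n * x) = n * x by group] at h2
    rw [← h1, h2]
  choose e he using fun x => inv_trf (k := k) N L hn h hfin (d' x) (hinv x)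
  exact ⟨v, e, he⟩

end main

theorem DerSurj_abs {M M' : Rep.{0} k G} (f : M ⟶ M') (hf : Function.Injective f.hom)
    (d : groupCohomology.cocycles₁ M') (v : M') (e : G → M)
    (he : ∀ x, f.hom (e x) = d x + M'.ρ x v - v) :
    ∃ c, Hm f 1 c = groupCohomology.H1π M' d := by
  have hmem : e ∈ groupCohomology.cocycles₁ M := by
    rw [groupCohomology.mem_cocycles₁_iff]
    intro a b
    apply hf
    have h0 : d (a * b) = M'.ρ a (d b) + d a := (groupCohomology.mem_cocycles₁_iff _).1 d.2 a b
    rw [map_add, Rep.hom_comm_apply, he, he, he, h0, map_sub, map_add]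
    have h1 : M'.ρ (a * b) v = M'.ρ a (M'.ρ b v) := by rw [map_mul]; rfl
    rw [h1]
    abel
  refine ⟨groupCohomology.H1π _ ⟨e, hmem⟩, ?_⟩
  rw [Hm_eq]
  have h2 := groupCohomology.H1π_comp_map_apply (MonoidHom.id G) f ⟨e, hmem⟩
  refine h2.trans ?_
  rw [groupCohomology.H1π_eq_iff]
  refine ⟨v, ?_⟩
  funext x
  show M'.ρ x v - v = f.hom (e x) - d x
  rw [he]
  abel

theorem der_surj {A : Type} [AddCommGroup A] [Module k A] (N L : Subgroup G) (hn : N.Normal)
    (hfg : N.FG) (hinf : N.index = 0) (h : L ≤ N) (hfin : L.relIndex N ≠ 0) :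
    Function.Surjective (Hm (trf (G := G) k A h hfin) 1) := by
  intro c
  induction c using groupCohomology.H1_induction_on with
  | h d =>
    have hd : DerSurj_coc (k := k) L (fun g => (d g : (G ⧸ L) →₀ A)) :=
      fun a b => (groupCohomology.mem_cocycles₁_iff _).1 d.2 a b
    obtain ⟨v, e, he⟩ := DerSurj_lift hn hfg hinf h hfin hd
    exact DerSurj_abs (trf (G := G) k A h hfin) (trf_inj h hfin) d v e he

end Pool.Agent.PD3
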