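import Pool.Agent.PD3.CosetMap

/-!
# Inv0: invariants and `H^0`

* `perm_inv`: the support of `u` is finite and stable under the transitive action of `G` on the
  infinite set `G/L`.
* `H0_zero`: `groupCohomology.H0Iso` (or a direct argument with `0`-cocycles).
* `perm_H0`: both combined.
-/

open CategoryTheory

namespace Pool.Agent.PD3

variable {k G : Type} [CommRing k] [Group G]

/-- an infinite transitive `G`-set carries no nonzero invariant finitely supported function. -/
theorem perm_inv {A : Type} [AddCommGroup A] [Module k A] (L : Subgroup G) (hL : L.index = 0)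
    (u : (G ⧸ L) →₀ A) (hu : ∀ g : G, permRho k A (G ⧸ L) g u = u) : u = 0 := by
  by_contra hne
  obtain ⟨x, hx⟩ : ∃ x, u x ≠ 0 := by
    by_contra hcon
    push Not at hcon
    exact hne (Finsupp.ext hcon)
  have hall : ∀ y, u y ≠ 0 := by
    intro y
    obtain ⟨g, hg⟩ := MulAction.exists_smul_eq G y x
    have h1 : (permRho k A (G ⧸ L) g⁻¹ u) y = u y := by rw [hu]
    rw [permRho_apply, inv_inv, hg] at h1
    rw [← h1]
    exact hx
  have hinf : Infinite (G ⧸ L) := Subgroup.index_eq_zero_iff_infinite.mp hL
  have hfin : (Set.univ : Set (G ⧸ L)).Finite := by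
    refine u.support.finite_toSet.subset ?_
    intro y _
    simpa using hall y
  exact Set.infinite_univ hfin

/-- `H^0` is the module of invariants: vanishing criterion. -/
theorem H0_zero (M : Rep.{0} k G) (hM : ∀ m : M.V, (∀ g, M.ρ g m = m) → m = 0) (c : HH M 0) :
    c = 0 := by
  have hinj : Function.Injective ((groupCohomology.H0Iso M).hom.hom) :=
    (groupCohomology.H0Iso M).toLinearEquiv.injective
  apply hinj
  rw [map_zero]
  apply Subtype.ext
  apply hM
  intro g
  exact ((groupCohomology.H0Iso M).hom.hom c).2 g

end Pool.Agent.PD3
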