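import Pool.Agent.PD3.Filtr
import Pool.Agent.PD3.CountSes
import Pool.Agent.PD3.Inv0

/-!
# EulerStep: multiplicativity of the Euler characteristic for a `ℤ/p`-covering

Use `filtr`.
1. `SES j f_*`; since `Hm f_* 1 = 0`, `H^1(Y)` embeds in `H^2(U_{p-1})` (`SES.les`), and `H^2(U_i)` is
   finite for all `i ≤ p` by induction (`H^2(U_i) → H^2(U_{i+1}) → H^2(U_1) ≅ H^2(Y)`; `H^2(U_0) = 0`
   because `U_0 = 0`: `𝟙 = 0`, `Hm_id`, `Hm_zero`).  So `H^1(Y)` is finite.
2. By induction on `i ≤ p` with `count_ses` (`A = U_i`, `B = U_{i+1}`, `C = U_1`; `H^0(U_1) = 0` by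
   `H0_zero` and `hX0`, via the embedding `e` of `U_1` in `(ℤ/p)[X]`), all `H^j(U_i)`, `j = 1, 2, 3`,
   are finite and `|H^2(U_i)| (|H^1(Y)||H^3(Y)|)^i = |H^2(Y)|^i (|H^1(U_i)||H^3(U_i)|)`
   (cancel the positive numbers).  Take `i = p`; transport along `a, a', b, b'` (`HmEquiv`).
-/

open CategoryTheory

namespace Pool.Agent.PD3

variable {G : Type} [Group G]

theorem EulerStep_zero {M : Rep.{0} ℤ G} (h : ∀ x : M.V, x = 0) (i : ℕ) (c : HH M i) : c = 0 := by
  have h1 : (𝟙 M : M ⟶ M) = 0 := hom_ext' fun m => by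
    rw [h ((𝟙 M : M ⟶ M).hom m), h ((0 : M ⟶ M).hom m)]
  have h2 := Hm_id M i c
  rw [h1, Hm_zero] at h2
  exact h2.symm

theorem EulerStep_arith {A1 A3 A2 B1 B2 B3 C C2 : ℕ} (i : ℕ) (hA : 0 < A1 * A3)
    (h1 : B2 * (A1 * A3) * C = A2 * C2 * (B1 * B3)) (h2 : A2 * C ^ i = C2 ^ i * (A1 * A3)) :
    B2 * C ^ (i + 1) = C2 ^ (i + 1) * (B1 * B3) := by
  refine Nat.eq_of_mul_eq_mul_right hA ?_
  calc B2 * C ^ (i + 1) * (A1 * A3) = (B2 * (A1 * A3) * C) * C ^ i := by ring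
    _ = A2 * C2 * (B1 * B3) * C ^ i := by rw [h1]
    _ = (A2 * C ^ i) * C2 * (B1 * B3) := by ring
    _ = C2 ^ (i + 1) * (B1 * B3) * (A1 * A3) := by rw [h2]; ring

theorem euler_step (h4 : ∀ (M : Rep.{0} ℤ G) (c : HH M 4), c = 0)
    (p : ℕ) [Fact p.Prime] {X Y : Type} [MulAction G X] [MulAction G Y]
    (f : X → Y) (τ : X → X) (hc : Cover G p f τ)
    (hX0 : ∀ u : X →₀ ZMod p, (∀ g : G, permRho ℤ (ZMod p) X g u = u) → u = 0)
    (h1 : ∀ c : HH (perm (G := G) ℤ (ZMod p) X) 1, Hm (permMap ℤ (ZMod p) f hc.fG) 1 c = 0)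
    (hY2 : Finite (HH (perm (G := G) ℤ (ZMod p) Y) 2))
    (hY3 : Finite (HH (perm (G := G) ℤ (ZMod p) Y) 3)) :
    Finite (HH (perm (G := G) ℤ (ZMod p) Y) 1) ∧
    Nat.card (HH (perm (G := G) ℤ (ZMod p) X) 2) *
      (Nat.card (HH (perm (G := G) ℤ (ZMod p) Y) 1) *
        Nat.card (HH (perm (G := G) ℤ (ZMod p) Y) 3)) ^ p =
    Nat.card (HH (perm (G := G) ℤ (ZMod p) Y) 2) ^ p *
      (Nat.card (HH (perm (G := G) ℤ (ZMod p) X) 1) *
        Nat.card (HH (perm (G := G) ℤ (ZMod p) X) 3)) := by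
  obtain ⟨U, inc, q, j, a, a', b, b', hU0, hses, hj, haa, ha'a, hbb, hb'b, emb⟩ :=
    filtr p f τ hc
  have hp : 0 < p := (Fact.out : p.Prime).pos
  -- cardinalities of the cohomology of `U 1`
  have hU1 : ∀ i, Nat.card (HH (U 1) i) = Nat.card (HH (perm (G := G) ℤ (ZMod p) Y) i) :=
    fun i => Nat.card_congr (HmEquiv b b' hbb hb'b i).toEquiv
  have hUfin : ∀ i, Finite (HH (perm (G := G) ℤ (ZMod p) Y) i) → Finite (HH (U 1) i) :=
    fun i h => Finite.of_equiv _ (HmEquiv b b' hbb hb'b i).toEquiv.symm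
  have hz : ∀ i, ∀ c : HH (U 0) i, c = 0 := fun i c => EulerStep_zero hU0 i c
  have hzs : ∀ i, Subsingleton (HH (U 0) i) :=
    fun i => ⟨fun x y => by rw [hz i x, hz i y]⟩
  have hfin2 : ∀ i ≤ p, Finite (HH (U i) 2) := by
    intro i
    induction i with
    | zero =>
      intro _
      have := hzs 2
      infer_instance
    | succ i ih =>
      intro hi
      exact CountSes_fin (Hm (inc i) 2) (Hm (q i) 2) ((hses i (by omega)).mid 2)
        (ih (by omega)) (hUfin 2 hY2)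
  have hY1 : Finite (HH (perm (G := G) ℤ (ZMod p) Y) 1) := by
    obtain ⟨δ, -, hδ, -⟩ := hj.les 1
    have hf := hfin2 (p - 1) (by omega)
    refine Finite.of_injective (β := HH (U (p - 1)) 2) δ ?_
    rw [injective_iff_map_eq_zero]
    intro x hx
    obtain ⟨y, hy⟩ := (hδ x).1 hx
    rw [← hy]
    exact h1 y
  refine ⟨hY1, ?_⟩
  have h0 : ∀ c : HH (U 1) 0, c = 0 := by
    refine H0_zero (U 1) ?_
    intro m hm
    obtain ⟨e, he⟩ := emb 1 hp
    refine he ?_
    rw [map_zero]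
    refine hX0 (e.hom m) ?_
    intro g
    have h3 := Rep.hom_comm_apply e g m
    rw [hm g] at h3
    exact h3.symm
  have hY : ∀ i, 1 ≤ i → i ≤ 3 → Finite (HH (perm (G := G) ℤ (ZMod p) Y) i) := by
    intro i h1 h3
    interval_cases i
    · exact hY1
    · exact hY2
    · exact hY3
  have key : ∀ i ≤ p, (∀ k, 1 ≤ k → k ≤ 3 → Finite (HH (U i) k)) ∧
      Nat.card (HH (U i) 2) * (Nat.card (HH (perm (G := G) ℤ (ZMod p) Y) 1) *
        Nat.card (HH (perm (G := G) ℤ (ZMod p) Y) 3)) ^ i =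
      Nat.card (HH (perm (G := G) ℤ (ZMod p) Y) 2) ^ i *
        (Nat.card (HH (U i) 1) * Nat.card (HH (U i) 3)) := by
    intro i
    induction i with
    | zero =>
      intro _
      have s1 := hzs 1
      have s2 := hzs 2
      have s3 := hzs 3
      refine ⟨fun k _ _ => ?_, ?_⟩
      · have := hzs k
        infer_instance
      · have c1 : Nat.card (HH (U 0) 1) = 1 := Nat.card_unique
        have c2 : Nat.card (HH (U 0) 2) = 1 := Nat.card_unique
        have c3 : Nat.card (HH (U 0) 3) = 1 := Nat.card_unique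
        rw [c1, c2, c3]
        ring
    | succ i ih =>
      intro hi
      obtain ⟨ihf, ihe⟩ := ih (by omega)
      obtain ⟨cf, ce⟩ := count_ses (hses i (by omega)) h0 (h4 (U i)) ihf
        (fun k h1 h3 => hUfin k (hY k h1 h3))
      refine ⟨cf, ?_⟩
      rw [hU1, hU1, hU1] at ce
      have f1 := ihf 1 (by norm_num) (by norm_num)
      have f3 := ihf 3 (by norm_num) (by norm_num)
      exact EulerStep_arith i (Nat.mul_pos Nat.card_pos Nat.card_pos) ce ihe
  have hX : ∀ i, Nat.card (HH (U p) i) = Nat.card (HH (perm (G := G) ℤ (ZMod p) X) i) :=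
    fun i => Nat.card_congr (HmEquiv a a' haa ha'a i).toEquiv
  have := (key p le_rfl).2
  rw [hX, hX, hX] at this
  exact this

end Pool.Agent.PD3
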