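import Pool.Agent.PD3.CoverDef

/-!
# Filtr: the filtration of `(ℤ/p)[X]` for a `ℤ/p`-covering `f : X → Y` of `G`-sets

`M = (ℤ/p)[X]`, `t = τ_* : M → M` (`permMap`), `T = t - 1`.
Over `ℤ/p`: `T^p = t^p - 1 = 0` (`sub_pow_char` / `sub_pow_expChar` in the endomorphism ring of
the `ZMod p`-module `X →₀ ZMod p`), `T^(p-1) = 1 + t + ... + t^(p-1) = σ ∘ f_*`, where
`σ : (ℤ/p)[Y] → (ℤ/p)[X]`, `u ↦ u ∘ f` (`permTr`; the fibres have `p` elements).
`ker T` = functions constant on the fibres of `f` = range of `σ` = range of `T^(p-1)`; `σ` is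
injective.  Put `U_i = ker (T^i)`, `0 ≤ i ≤ p` (`kerRep`): `U_0 = 0`, `U_p = M`, and
`0 → U_i → U_{i+1} → (by `T^i`) U_1 → 0` is exact for `0 ≤ i < p` (`ker T = T^(p-1) M
= T^i (T^(p-1-i) M)`), `U_1 ≅ (ℤ/p)[Y]` via `σ`.  Also `U_{p-1} = ker T^(p-1) = ker (σ f_*) = ker f_*`.
-/

open CategoryTheory

namespace Pool.Agent.PD3

variable {G : Type} [Group G]

/-- the linear map `t = τ_*` over `ZMod p`. -/
noncomputable def Filtr_t (p : ℕ) {X : Type} (τ : X → X) : Module.End (ZMod p) (X →₀ ZMod p) :=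
  Finsupp.lmapDomain (ZMod p) (ZMod p) τ

theorem Filtr_t_apply (p : ℕ) {X : Type} (τ : X → X) (u : X →₀ ZMod p) :
    Filtr_t p τ u = Finsupp.mapDomain τ u := rfl

/-- `T = t - 1`. -/
noncomputable def Filtr_T (p : ℕ) {X : Type} (τ : X → X) : Module.End (ZMod p) (X →₀ ZMod p) :=
  Filtr_t p τ - 1

theorem Filtr_pow_single (p : ℕ) {X : Type} (τ : X → X) (i : ℕ) (x : X) (a : ZMod p) :
    (Filtr_t p τ ^ i) (Finsupp.single x a) = Finsupp.single (τ^[i] x) a := by
  induction i with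
  | zero => simp
  | succ i ih =>
    rw [pow_succ', Module.End.mul_apply, ih, Filtr_t_apply, Finsupp.mapDomain_single,
      Function.iterate_succ_apply']

/-- `(t - 1)^(p-1) = 1 + t + ... + t^(p-1)` in characteristic `p`. -/
theorem Filtr_geom (p : ℕ) [Fact p.Prime] {E : Type} [Ring E] [Algebra (ZMod p) E] (t : E) :
    (t - 1) ^ (p - 1) = ∑ i ∈ Finset.range p, t ^ i := by
  have h : (Polynomial.X - 1 : Polynomial (ZMod p)) ^ (p - 1)
      = ∑ i ∈ Finset.range p, Polynomial.X ^ i := by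
    have hne : (Polynomial.X - 1 : Polynomial (ZMod p)) ≠ 0 := by
      have := Polynomial.X_sub_C_ne_zero (1 : ZMod p)
      simpa using this
    apply mul_left_cancel₀ hne
    rw [mul_geom_sum, ← pow_succ']
    have hp : p - 1 + 1 = p := Nat.sub_add_cancel (Fact.out (p := p.Prime)).one_le
    rw [hp, sub_pow_char, one_pow]
  have h2 := congrArg (Polynomial.aeval t) h
  simp only [map_pow, map_sub, Polynomial.aeval_X, map_one, map_sum] at h2
  exact h2

theorem Filtr_T_pow (p : ℕ) [Fact p.Prime] {X : Type} (τ : X → X) :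
    Filtr_T p τ ^ (p - 1) = ∑ i ∈ Finset.range p, Filtr_t p τ ^ i :=
  Filtr_geom p (Filtr_t p τ)

theorem Filtr_T_p (p : ℕ) [Fact p.Prime] {X : Type} (τ : X → X) (hτ : ∀ x, τ^[p] x = x) :
    Filtr_T p τ ^ p = 0 := by
  have hp : p - 1 + 1 = p := Nat.sub_add_cancel (Fact.out (p := p.Prime)).one_le
  have h1 : Filtr_T p τ ^ p = Filtr_T p τ * Filtr_T p τ ^ (p - 1) := by
    rw [← pow_succ', hp]
  rw [h1, Filtr_T_pow]
  refine (mul_geom_sum (Filtr_t p τ) p).trans ?_
  rw [sub_eq_zero]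
  apply Finsupp.lhom_ext
  intro x a
  rw [Filtr_pow_single, hτ]
  rfl

/-- equivariance of the powers of `T`. -/
theorem Filtr_comm (p : ℕ) {X : Type} [MulAction G X] (τ : X → X)
    (hτ : ∀ (g : G) x, τ (g • x) = g • τ x) (i : ℕ) (g : G) (m : X →₀ ZMod p) :
    (Filtr_T p τ ^ i) (Finsupp.mapDomain (g • · : X → X) m) =
      Finsupp.mapDomain (g • · : X → X) ((Filtr_T p τ ^ i) m) := by
  have h1 : ∀ m : X →₀ ZMod p, Filtr_T p τ (Finsupp.mapDomain (g • · : X → X) m) =
      Finsupp.mapDomain (g • · : X → X) (Filtr_T p τ m) := by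
    intro m
    have e1 : Filtr_T p τ (Finsupp.mapDomain (g • · : X → X) m)
        = Finsupp.mapDomain τ (Finsupp.mapDomain (g • · : X → X) m)
          - Finsupp.mapDomain (g • · : X → X) m := rfl
    have e2 : Filtr_T p τ m = Finsupp.mapDomain τ m - m := rfl
    have e3 : Finsupp.mapDomain τ (Finsupp.mapDomain (g • · : X → X) m)
        = Finsupp.mapDomain (g • · : X → X) (Finsupp.mapDomain τ m) := by
      rw [← Finsupp.mapDomain_comp, ← Finsupp.mapDomain_comp]
      congr 1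
      funext x
      exact hτ g x
    rw [e1, e2, e3]
    exact (map_sub (Finsupp.lmapDomain (ZMod p) (ZMod p) (g • · : X → X)) _ _).symm
  induction i generalizing m with
  | zero => rfl
  | succ i ih =>
    rw [pow_succ, Module.End.mul_apply, Module.End.mul_apply, h1, ih]

/-- `T^i` as a morphism of representations over `ℤ`. -/
noncomputable def Filtr_hom (p : ℕ) {X : Type} [MulAction G X] (τ : X → X)
    (hτ : ∀ (g : G) x, τ (g • x) = g • τ x) (i : ℕ) :
    perm (G := G) ℤ (ZMod p) X ⟶ perm (G := G) ℤ (ZMod p) X :=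
  homOfLin (M := perm ℤ (ZMod p) X) (N := perm ℤ (ZMod p) X)
    { toFun := fun m => (Filtr_T p τ ^ i) m
      map_add' := fun x y => map_add (Filtr_T p τ ^ i) x y
      map_smul' := fun n x => map_intCast_smul (Filtr_T p τ ^ i) ℤ ℤ n x }
    (fun g m => Filtr_comm p τ hτ i g m)

theorem Filtr_hom_apply (p : ℕ) {X : Type} [MulAction G X] (τ : X → X)
    (hτ : ∀ (g : G) x, τ (g • x) = g • τ x) (i : ℕ) (m : X →₀ ZMod p) :
    ((Filtr_hom p τ hτ i).hom m : X →₀ ZMod p) = (Filtr_T p τ ^ i) m := rfl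

/-- the fibre of `f` through `x` is parametrised by `i < p`. -/
theorem Filtr_inj {p : ℕ} [hp : Fact p.Prime] {X Y : Type} [MulAction G X] [MulAction G Y]
    {f : X → Y} {τ : X → X} (hc : Cover G p f τ) (x : X) (i j : ℕ) (hi : i < p) (hj : j < p)
    (h : τ^[i] x = τ^[j] x) : i = j := by
  have h1 : Function.IsPeriodicPt τ p x := hc.τp x
  have h2 : Function.minimalPeriod τ x ∣ p := h1.minimalPeriod_dvd
  have h3 : Function.minimalPeriod τ x ≠ 1 := by
    intro h
    rw [Function.minimalPeriod_eq_one_iff_isFixedPt] at h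
    exact hc.τfree x h
  have h4 : Function.minimalPeriod τ x = p := ((Nat.dvd_prime hp.out).1 h2).resolve_left h3
  have h5 := Function.iterate_injOn_Iio_minimalPeriod (f := τ) (x := x)
  rw [h4] at h5
  exact h5 hi hj h

theorem Filtr_f_iter {p : ℕ} {X Y : Type} [MulAction G X] [MulAction G Y]
    {f : X → Y} {τ : X → X} (hc : Cover G p f τ) (x : X) (i : ℕ) : f (τ^[i] x) = f x := by
  induction i with
  | zero => rfl
  | succ i ih => rw [Function.iterate_succ_apply', hc.fτ, ih]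

theorem Filtr_fib {p : ℕ} [hp : Fact p.Prime] {X Y : Type} [MulAction G X] [MulAction G Y]
    {f : X → Y} {τ : X → X} (hc : Cover G p f τ) (x x' : X) (h : f x = f x') :
    ∃ i < p, x' = τ^[i] x := by
  obtain ⟨i, hi⟩ := hc.fib x x' h
  refine ⟨i % p, Nat.mod_lt _ hp.out.pos, ?_⟩
  rw [hi]
  have h1 : Function.IsPeriodicPt τ p x := hc.τp x
  exact (h1.iterate_mod_apply i).symm

theorem Filtr_fin {p : ℕ} [hp : Fact p.Prime] {X Y : Type} [MulAction G X] [MulAction G Y]
    {f : X → Y} {τ : X → X} (hc : Cover G p f τ) (y : Y) : (f ⁻¹' {y}).Finite := by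
  obtain ⟨x, rfl⟩ := hc.fsurj y
  refine ((Finset.range p).finite_toSet.image (fun i => τ^[i] x)).subset ?_
  intro x' hx'
  obtain ⟨i, hi, hi2⟩ := Filtr_fib hc x x' (Set.mem_singleton_iff.1 hx').symm
  exact ⟨i, by simpa using hi, hi2.symm⟩

/-- `T^(p-1) = σ f_*`. -/
theorem Filtr_norm {p : ℕ} [hp : Fact p.Prime] {X Y : Type} [MulAction G X] [MulAction G Y]
    {f : X → Y} {τ : X → X} (hc : Cover G p f τ) (u : X →₀ ZMod p) (x : X) :
    ((Filtr_T p τ ^ (p - 1)) u) x = (Finsupp.mapDomain f u) (f x) := by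
  classical
  rw [Filtr_T_pow, LinearMap.sum_apply]
  induction u using Finsupp.induction_linear with
  | zero => simp
  | add u v hu hv =>
    simp only [map_add, Finset.sum_add_distrib, Finsupp.add_apply, Finsupp.mapDomain_add] at *
    rw [hu, hv]
  | single x0 a =>
    simp only [Filtr_pow_single]
    rw [Finsupp.mapDomain_single, Finsupp.finsetSum_apply]
    by_cases hf : f x0 = f x
    · obtain ⟨i, hi, hi2⟩ := Filtr_fib hc x0 x hf
      rw [Finset.sum_eq_single_of_mem i (Finset.mem_range.2 hi)]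
      · rw [← hi2, hf]
        simp
      · intro j hj hji
        rw [Finsupp.single_apply, if_neg]
        intro h
        exact hji (Filtr_inj hc x0 j i (Finset.mem_range.1 hj) hi (h.trans hi2))
    · rw [Finsupp.single_apply, if_neg hf]
      apply Finset.sum_eq_zero
      intro j _
      rw [Finsupp.single_apply, if_neg]
      intro h
      apply hf
      rw [← h, Filtr_f_iter hc]

theorem Filtr_map_surj {X Y : Type} (p : ℕ) {f : X → Y} (hf : Function.Surjective f)
    (v : Y →₀ ZMod p) : ∃ u : X →₀ ZMod p, Finsupp.mapDomain f u = v := by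
  obtain ⟨g, hg⟩ := hf.hasRightInverse
  refine ⟨Finsupp.mapDomain g v, ?_⟩
  rw [← Finsupp.mapDomain_comp]
  have : f ∘ g = id := funext hg
  rw [this, Finsupp.mapDomain_id]

/-- `ker T` = range of `σ`. -/
theorem Filtr_ker {p : ℕ} [hp : Fact p.Prime] {X Y : Type} [MulAction G X] [MulAction G Y]
    {f : X → Y} {τ : X → X} (hc : Cover G p f τ) (u : X →₀ ZMod p) (hu : Filtr_T p τ u = 0) :
    ∃ v : Y →₀ ZMod p, ∀ x, u x = v (f x) := by
  classical
  have h1 : Finsupp.mapDomain τ u = u := by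
    have : Finsupp.mapDomain τ u - u = 0 := hu
    exact sub_eq_zero.1 this
  have hτinj : Function.Injective τ := by
    intro x y h
    have hx := hc.τp x
    have hy := hc.τp y
    have hpp : p = (p - 1) + 1 := (Nat.sub_add_cancel hp.out.one_le).symm
    rw [hpp, Function.iterate_succ_apply] at hx hy
    rw [← hx, ← hy, h]
  have h2 : ∀ x, u (τ x) = u x := by
    intro x
    have := Finsupp.mapDomain_apply hτinj u x
    rw [h1] at this
    exact this
  have h3 : ∀ i x, u (τ^[i] x) = u x := by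
    intro i x
    induction i with
    | zero => rfl
    | succ i ih => rw [Function.iterate_succ_apply', h2, ih]
  obtain ⟨g, hg⟩ := hc.fsurj.hasRightInverse
  have h4 : ∀ x, u (g (f x)) = u x := by
    intro x
    obtain ⟨i, hi⟩ := hc.fib x (g (f x)) (hg (f x)).symm
    rw [hi, h3]
  refine ⟨Finsupp.ofSupportFinite (fun y => u (g y)) ?_, fun x => (h4 x).symm⟩
  refine (u.support.finite_toSet.image f).subset ?_
  intro y hy
  exact ⟨g y, by simpa using hy, hg y⟩

theorem Filtr_T_sigma {p : ℕ} [hp : Fact p.Prime] {X Y : Type} [MulAction G X] [MulAction G Y]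
    {f : X → Y} {τ : X → X} (hc : Cover G p f τ) (u : X →₀ ZMod p) (v : Y →₀ ZMod p)
    (h : ∀ x, u x = v (f x)) : ∃ w : X →₀ ZMod p, (Filtr_T p τ ^ (p - 1)) w = u := by
  obtain ⟨w, hw⟩ := Filtr_map_surj p hc.fsurj v
  refine ⟨w, Finsupp.ext fun x => ?_⟩
  rw [Filtr_norm hc, hw, h]

theorem filtr (p : ℕ) [Fact p.Prime] {X Y : Type} [MulAction G X] [MulAction G Y]
    (f : X → Y) (τ : X → X) (hc : Cover G p f τ) :
    ∃ (U : ℕ → Rep.{0} ℤ G) (inc : ∀ i, U i ⟶ U (i + 1)) (q : ∀ i, U (i + 1) ⟶ U 1)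
      (j : U (p - 1) ⟶ perm (G := G) ℤ (ZMod p) X)
      (a : U p ⟶ perm (G := G) ℤ (ZMod p) X) (a' : perm (G := G) ℤ (ZMod p) X ⟶ U p)
      (b : U 1 ⟶ perm (G := G) ℤ (ZMod p) Y) (b' : perm (G := G) ℤ (ZMod p) Y ⟶ U 1),
      (∀ x : (U 0).V, x = 0) ∧ (∀ i < p, SES (inc i) (q i)) ∧
      SES j (permMap ℤ (ZMod p) f hc.fG) ∧
      a ≫ a' = 𝟙 _ ∧ a' ≫ a = 𝟙 _ ∧ b ≫ b' = 𝟙 _ ∧ b' ≫ b = 𝟙 _ ∧
      (∀ i ≤ p, ∃ e : U i ⟶ perm (G := G) ℤ (ZMod p) X, Function.Injective e.hom) := by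
  have hp1 : 1 ≤ p := (Fact.out (p := p.Prime)).one_le
  set T := Filtr_T p τ with hT
  -- the modules
  let TT : ℕ → (perm (G := G) ℤ (ZMod p) X ⟶ perm (G := G) ℤ (ZMod p) X) :=
    fun i => Filtr_hom p τ hc.τG i
  have hTT : ∀ i (m : X →₀ ZMod p), (TT i).hom m = (T ^ i) m := fun i m => rfl
  have hTp : ∀ m : X →₀ ZMod p, (T ^ p) m = 0 := fun m => by
    rw [hT, Filtr_T_p p τ hc.τp]; rfl
  have hfin := Filtr_fin hc
  -- inclusion
  have hinc : ∀ i, ∀ x : kerRep (TT i), (TT (i + 1)).hom ((kerInc (TT i)).hom x) = 0 := by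
    intro i x
    have h1 : (T ^ i) ((kerInc (TT i)).hom x) = 0 := kerInc_zero (TT i) x
    show (T ^ (i + 1)) ((kerInc (TT i)).hom x) = 0
    rw [pow_succ', Module.End.mul_apply, h1, map_zero]
  have hq : ∀ i, ∀ x : kerRep (TT (i + 1)),
      (TT 1).hom ((kerInc (TT (i + 1)) ≫ TT i).hom x) = 0 := by
    intro i x
    have h1 : (T ^ (i + 1)) ((kerInc (TT (i + 1))).hom x) = 0 := kerInc_zero (TT (i + 1)) x
    show (T ^ 1) ((T ^ i) ((kerInc (TT (i + 1))).hom x)) = 0
    rw [← Module.End.mul_apply, ← pow_add, add_comm 1 i]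
    exact h1
  have ha' : ∀ x : perm (G := G) ℤ (ZMod p) X,
      (TT p).hom ((𝟙 (perm (G := G) ℤ (ZMod p) X) :
        perm (G := G) ℤ (ZMod p) X ⟶ perm (G := G) ℤ (ZMod p) X).hom x) = 0 := fun x => hTp x
  -- the map sigma
  have hσ : ∀ v : perm (G := G) ℤ (ZMod p) Y,
      (TT 1).hom ((permTr ℤ (ZMod p) f hc.fG hfin).hom v) = 0 := by
    intro v
    show (T ^ 1) ((permTr (G := G) ℤ (ZMod p) f hc.fG hfin).hom v : X →₀ ZMod p) = 0
    obtain ⟨w, hw⟩ := Filtr_T_sigma hc ((permTr (G := G) ℤ (ZMod p) f hc.fG hfin).hom v) v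
      (fun x => permTr_apply f hc.fG hfin v x)
    rw [← hw, ← Module.End.mul_apply, ← pow_add]
    have : 1 + (p - 1) = p := by omega
    rw [this]
    exact hTp w
  let b' : perm (G := G) ℤ (ZMod p) Y ⟶ kerRep (TT 1) :=
    kerLift (TT 1) (permTr ℤ (ZMod p) f hc.fG hfin) hσ
  have hb'inj : Function.Injective b'.hom := by
    intro v v' h
    have h1 : (permTr (G := G) ℤ (ZMod p) f hc.fG hfin).hom v
        = (permTr (G := G) ℤ (ZMod p) f hc.fG hfin).hom v' := congrArg Subtype.val h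
    refine Finsupp.ext fun y => ?_
    obtain ⟨x, rfl⟩ := hc.fsurj y
    have h2 := DFunLike.congr_fun (h1 : (_ : X →₀ ZMod p) = _) x
    exact h2
  have hb'surj : Function.Surjective b'.hom := by
    intro u
    have h1 : (T ^ 1) ((kerInc (TT 1)).hom u) = 0 := kerInc_zero (TT 1) u
    rw [pow_one] at h1
    obtain ⟨v, hv⟩ := Filtr_ker hc ((kerInc (TT 1)).hom u) h1
    refine ⟨v, Subtype.ext ?_⟩
    refine Finsupp.ext fun x => ?_
    exact (hv x).symm
  let eb : (perm (G := G) ℤ (ZMod p) Y).V ≃ₗ[ℤ] (kerRep (TT 1)).V :=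
    LinearEquiv.ofBijective b'.hom.toLinearMap ⟨hb'inj, hb'surj⟩
  have heb : ∀ v, eb v = b'.hom v := fun v => rfl
  let b : kerRep (TT 1) ⟶ perm (G := G) ℤ (ZMod p) Y :=
    homOfLin (M := kerRep (TT 1)) (N := perm (G := G) ℤ (ZMod p) Y) eb.symm.toLinearMap (by
      intro g m
      apply eb.injective
      show eb (eb.symm _) = eb _
      rw [eb.apply_symm_apply, heb]
      have h1 := Rep.hom_comm_apply b' g (eb.symm m)
      show _ = b'.hom ((perm (G := G) ℤ (ZMod p) Y).ρ g (eb.symm m))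
      rw [h1]
      congr 1
      exact (eb.apply_symm_apply m).symm)
  refine ⟨fun i => kerRep (TT i), fun i => kerLift (TT (i + 1)) (kerInc (TT i)) (hinc i),
    fun i => kerLift (TT 1) (kerInc (TT (i + 1)) ≫ TT i) (hq i), kerInc (TT (p - 1)),
    kerInc (TT p), kerLift (TT p) (𝟙 _) ha', b, b', ?_, ?_, ?_, ?_, ?_, ?_, ?_, ?_⟩
  · intro x
    have h1 : (T ^ 0) ((kerInc (TT 0)).hom x) = 0 := kerInc_zero (TT 0) x
    exact Subtype.ext h1
  · intro i hi
    refine ⟨?_, ?_, ?_, ?_⟩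
    · intro x y h
      have h1 := kerLift_inc (TT (i + 1)) (kerInc (TT i)) (hinc i) x
      have h2 := kerLift_inc (TT (i + 1)) (kerInc (TT i)) (hinc i) y
      apply kerInc_inj (TT i)
      rw [← h1, ← h2]
      exact congrArg (kerInc (TT (i + 1))).hom h
    · intro u
      have h1 : (T ^ 1) ((kerInc (TT 1)).hom u) = 0 := kerInc_zero (TT 1) u
      rw [pow_one] at h1
      obtain ⟨v, hv⟩ := Filtr_ker hc ((kerInc (TT 1)).hom u) h1
      obtain ⟨w, hw⟩ := Filtr_T_sigma hc _ v hv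
      have h2 : (T ^ (i + 1)) ((T ^ (p - 1 - i)) w) = 0 := by
        rw [← Module.End.mul_apply, ← pow_add]
        have : i + 1 + (p - 1 - i) = p := by omega
        rw [this]
        exact hTp w
      refine ⟨⟨(T ^ (p - 1 - i)) w, h2⟩, Subtype.ext ?_⟩
      show (T ^ i) ((T ^ (p - 1 - i)) w) = _
      rw [← Module.End.mul_apply, ← pow_add]
      have : i + (p - 1 - i) = p - 1 := by omega
      rw [this, hT, hw]
      rfl
    · intro x
      exact Subtype.ext (kerInc_zero (TT i) x)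
    · intro m hm
      have h1 : (T ^ i) ((kerInc (TT (i + 1))).hom m) = 0 := congrArg Subtype.val hm
      exact ⟨⟨(kerInc (TT (i + 1))).hom m, h1⟩, Subtype.ext rfl⟩
  · refine ⟨kerInc_inj _, ?_, ?_, ?_⟩
    · intro v
      obtain ⟨u, hu⟩ := Filtr_map_surj p hc.fsurj v
      exact ⟨u, hu⟩
    · intro x
      have h1 : (T ^ (p - 1)) ((kerInc (TT (p - 1))).hom x) = 0 := kerInc_zero (TT (p - 1)) x
      refine Finsupp.ext fun y => ?_
      obtain ⟨x', rfl⟩ := hc.fsurj y
      have h2 := Filtr_norm hc ((kerInc (TT (p - 1))).hom x) x'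
      rw [← hT, h1] at h2
      exact h2.symm
    · intro m hm
      have h1 : (T ^ (p - 1)) m = 0 := by
        refine Finsupp.ext fun x => ?_
        rw [hT, Filtr_norm hc]
        have h2 : (Finsupp.mapDomain f (m : X →₀ ZMod p) : Y →₀ ZMod p) = 0 := hm
        rw [h2]
        rfl
      exact ⟨⟨m, h1⟩, rfl⟩
  · exact hom_ext' fun m => Subtype.ext rfl
  · exact hom_ext' fun m => rfl
  · exact hom_ext' fun m => eb.apply_symm_apply m
  · exact hom_ext' fun m => eb.symm_apply_apply m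
  · intro i _
    exact ⟨kerInc (TT i), kerInc_inj (TT i)⟩

end Pool.Agent.PD3
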