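import Mathlib

/-!
# FinGrp: a statement on representations of finite groups

Paper proof.  `χ` the character of `ρ`, `d(H) = dim V^H = |H|⁻¹ ∑_{h ∈ H} χ(h)`
(`Representation.card_inv_mul_sum_char_eq_finrank` for `ρ.comp H.subtype`).  For `g ∈ F` let
`cl g = {c | zpowers c = zpowers g}`.

Claim: for every `g` and every prime `p` dividing `orderOf g`: `∑_{c ∈ cl g} (χ c - (e p + 1)) = 0`.
Strong induction on `n = orderOf g`.  `C = zpowers g`, `C' = zpowers (g^p)`, of index `p` in `C`.  By
`hstep`, `∑_{c ∈ C} (χ c - (e p+1)) = |C| (d C - (e p+1)) = |C'| p (d C - (e p+1))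
= |C'| (d C' - (e p + 1)) = ∑_{c ∈ C'} (χ c - (e p+1))`, so the sum over `C \ C'` is `0`.  `C \ C'` is a
union of classes `cl c`, `p ∣ orderOf c` for `c ∈ C \ C'` (else `c` lies in the subgroup `C'` of
index `p`), and by induction the classes with `orderOf c < n` contribute `0`.  What is left is
`cl g`.

Hence `∑_{c ∈ cl g} χ c = (e p + 1) |cl g| > 0` for `g ≠ 1`, and
`|F| d(F) = ∑_g χ g = χ 1 + ∑_{g ≠ 1} χ g > 0` since `χ 1 = dim V ≥ 0` and `F` is nontrivial.
-/

namespace Pool.Agent.PD3

open Finset in
theorem FinGrp_sum (F : Type) [Group F] [Fintype F] (V : Type) [AddCommGroup V]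
    [Module ℚ V] [Module.Finite ℚ V] (ρ : Representation ℚ F V) (H : Subgroup F)
    [DecidablePred (· ∈ H)] :
    ∑ c ∈ univ.filter (fun c : F => c ∈ H), ρ.character c =
      (Nat.card H : ℚ) * (Module.finrank ℚ (Representation.invariants (ρ.comp H.subtype)) : ℚ) := by
  classical
  have hne : (Nat.card H : ℚ) ≠ 0 := by
    have : 0 < Nat.card H := Nat.card_pos
    positivity
  let _ : Invertible (Nat.card H : ℚ) := invertibleOfNonzero hne
  have h := Representation.card_inv_mul_sum_char_eq_finrank (ρ.comp H.subtype)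
  rw [← h, ← mul_assoc, mul_inv_cancel₀ hne, one_mul]
  rw [Finset.sum_subtype (univ.filter (fun c : F => c ∈ H)) (p := fun c => c ∈ H)
    (by intro x; rw [mem_filter]; exact ⟨fun h => h.2, fun h => ⟨mem_univ _, h⟩⟩)]
  rfl

open Finset in
theorem FinGrp_sub (F : Type) [Group F] [Fintype F] [DecidableEq F] (V : Type) [AddCommGroup V]
    [Module ℚ V] [Module.Finite ℚ V] (ρ : Representation ℚ F V) (H : Subgroup F)
    [DecidablePred (· ∈ H)] (a : ℚ) :
    ∑ c ∈ univ.filter (fun c : F => c ∈ H), (ρ.character c - a) =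
      (Nat.card H : ℚ) * ((Module.finrank ℚ (Representation.invariants (ρ.comp H.subtype)) : ℚ)
        - a) := by
  rw [sum_sub_distrib, FinGrp_sum, sum_const, nsmul_eq_mul]
  have : (univ.filter (fun c : F => c ∈ H)).card = Nat.card H := by
    rw [Nat.card_eq_fintype_card, Fintype.card_subtype]
  rw [this]
  ring

theorem FinGrp_relIndex {F : Type} [Group F] [Finite F] {H' H : Subgroup F} (h : H' ≤ H) :
    H'.relIndex H * Nat.card H' = Nat.card H := by
  have h1 : (H'.subgroupOf H).index * Nat.card (H'.subgroupOf H) = Nat.card H :=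
    Subgroup.index_mul_card _
  have h2 : Nat.card (H'.subgroupOf H) = Nat.card H' :=
    Nat.card_congr (Subgroup.subgroupOfEquivOfLe h).toEquiv
  rw [h2] at h1
  exact h1

open Finset in
theorem FinGrp_claim (F : Type) [Group F] [Fintype F] [DecidableEq F] (V : Type) [AddCommGroup V]
    [Module ℚ V] [Module.Finite ℚ V] (ρ : Representation ℚ F V) (e : ℕ → ℕ)
    (hstep : ∀ p : ℕ, p.Prime → ∀ H' H : Subgroup F, H' ≤ H →
      (∀ l ∈ H, ∀ x ∈ H', l * x * l⁻¹ ∈ H') → H'.relIndex H = p →
      (Module.finrank ℚ (Representation.invariants (ρ.comp H'.subtype)) : ℤ) - ((e p : ℤ) + 1) =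
        p * ((Module.finrank ℚ (Representation.invariants (ρ.comp H.subtype)) : ℤ) -
          ((e p : ℤ) + 1)))
    (p : ℕ) (hp : p.Prime) [DecidableEq (Subgroup F)] :
    ∀ n : ℕ, ∀ g : F, orderOf g = n → p ∣ n →
      ∑ c ∈ univ.filter (fun c : F => Subgroup.zpowers c = Subgroup.zpowers g),
        (ρ.character c - ((e p : ℚ) + 1)) = 0 := by
  classical
  intro n
  induction n using Nat.strong_induction_on with
  | _ n ih =>
    intro g hg hpn
    set a : ℚ := (e p : ℚ) + 1 with ha
    set C := Subgroup.zpowers g with hC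
    set C' := Subgroup.zpowers (g ^ p) with hC'
    have hle : C' ≤ C := by
      rw [hC', Subgroup.zpowers_le]
      exact Subgroup.pow_mem _ (Subgroup.mem_zpowers g) p
    have hcardC : Nat.card C = n := by rw [hC, Nat.card_zpowers, hg]
    have hcardC' : Nat.card C' = n / p := by
      rw [hC', Nat.card_zpowers, orderOf_pow, hg, Nat.gcd_eq_right hpn]
    have hn0 : 0 < n := by rw [← hg]; exact orderOf_pos g
    have hpp : 0 < p := hp.pos
    have hrel : C'.relIndex C = p := by
      have h1 := FinGrp_relIndex hle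
      rw [hcardC, hcardC'] at h1
      have h2 : p * (n / p) = n := Nat.mul_div_cancel' hpn
      have h3 : 0 < n / p := Nat.div_pos (Nat.le_of_dvd hn0 hpn) hpp
      have h4 : C'.relIndex C * (n / p) = p * (n / p) := by rw [h1, h2]
      exact Nat.eq_of_mul_eq_mul_right h3 h4
    have hnorm : ∀ l ∈ C, ∀ x ∈ C', l * x * l⁻¹ ∈ C' := by
      intro l hl x hx
      obtain ⟨i, rfl⟩ := Subgroup.mem_zpowers_iff.1 hl
      obtain ⟨j, rfl⟩ := Subgroup.mem_zpowers_iff.1 hx
      have h1 : g ^ i * (g ^ p) ^ j * (g ^ i)⁻¹ = (g ^ p) ^ j := by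
        have h2 : Commute (g ^ i) ((g ^ p) ^ j) :=
          ((Commute.refl g).pow_right p).zpow_zpow i j
        rw [h2.eq, mul_assoc, mul_inv_cancel, mul_one]
      rw [h1]
      exact Subgroup.zpow_mem _ (Subgroup.mem_zpowers _) j
    have hs := hstep p hp C' C hle hnorm hrel
    have hsQ : (Module.finrank ℚ (Representation.invariants (ρ.comp C'.subtype)) : ℚ) - a =
        p * ((Module.finrank ℚ (Representation.invariants (ρ.comp C.subtype)) : ℚ) - a) := by
      rw [ha]
      exact_mod_cast hs
    have hsumC := FinGrp_sub F V ρ C a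
    have hsumC' := FinGrp_sub F V ρ C' a
    have hcards : (Nat.card C : ℚ) = (Nat.card C' : ℚ) * p := by
      rw [hcardC, hcardC']
      have h2 : n / p * p = n := Nat.div_mul_cancel hpn
      exact_mod_cast h2.symm
    have hsumeq : ∑ c ∈ univ.filter (fun c : F => c ∈ C), (ρ.character c - a)
        = ∑ c ∈ univ.filter (fun c : F => c ∈ C'), (ρ.character c - a) := by
      rw [hsumC, hsumC', hsQ, hcards]
      ring
    set D := univ.filter (fun c : F => c ∈ C ∧ c ∉ C') with hD
    have hDsum : ∑ c ∈ D, (ρ.character c - a) = 0 := by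
      have h1 : univ.filter (fun c : F => c ∈ C) = D ∪ univ.filter (fun c : F => c ∈ C') := by
        ext c
        rw [mem_union, hD, mem_filter, mem_filter, mem_filter]
        constructor
        · rintro ⟨h1, h2⟩
          by_cases h3 : c ∈ C'
          · exact Or.inr ⟨h1, h3⟩
          · exact Or.inl ⟨h1, h2, h3⟩
        · rintro (⟨h1, h2, _⟩ | ⟨h1, h2⟩)
          · exact ⟨h1, h2⟩
          · exact ⟨h1, hle h2⟩
      have h2 : Disjoint D (univ.filter (fun c : F => c ∈ C')) := by
        rw [Finset.disjoint_left]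
        intro c hc hc'
        rw [hD, mem_filter] at hc
        rw [mem_filter] at hc'
        exact hc.2.2 hc'.2
      rw [h1, sum_union h2] at hsumeq
      linarith
    -- every class in `D` is a full class
    have hcl : ∀ c0 ∈ D, D.filter (fun c => Subgroup.zpowers c = Subgroup.zpowers c0)
        = univ.filter (fun c : F => Subgroup.zpowers c = Subgroup.zpowers c0) := by
      intro c0 hc0
      rw [hD, mem_filter] at hc0
      ext c
      constructor
      · intro h
        exact mem_filter.2 ⟨mem_univ _, (mem_filter.1 h).2⟩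
      · intro h
        have h := (mem_filter.1 h).2
        refine mem_filter.2 ⟨?_, h⟩
        rw [hD, mem_filter]
        have h1 : c ∈ Subgroup.zpowers c0 := h ▸ Subgroup.mem_zpowers c
        have h2 : c0 ∈ Subgroup.zpowers c := h ▸ Subgroup.mem_zpowers c0
        refine ⟨mem_univ _, ?_, ?_⟩
        · exact (Subgroup.zpowers_le.2 hc0.2.1) h1
        · intro h3
          exact hc0.2.2 ((Subgroup.zpowers_le.2 h3) h2)
    have hgD : g ∈ D := by
      rw [hD, mem_filter]
      refine ⟨mem_univ _, Subgroup.mem_zpowers g, ?_⟩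
      intro h
      have h1 : C ≤ C' := Subgroup.zpowers_le.2 h
      have h2 : Nat.card C ≤ Nat.card C' := Nat.card_le_card_of_injective
        (Subgroup.inclusion h1) (Subgroup.inclusion_injective h1)
      rw [hcardC, hcardC'] at h2
      have h3 : n / p < n := Nat.div_lt_self hn0 hp.one_lt
      omega
    have hord : ∀ c ∈ D, p ∣ orderOf c := by
      intro c hc
      rw [hD, mem_filter] at hc
      by_contra hnd
      apply hc.2.2
      have hcop : Nat.Coprime (orderOf c) p := ((Nat.Prime.coprime_iff_not_dvd hp).2 hnd).symm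
      have h1 : c ^ p ∈ C' := by
        obtain ⟨i, hi⟩ := Subgroup.mem_zpowers_iff.1 hc.2.1
        rw [← hi, ← zpow_natCast, ← zpow_mul, mul_comm, zpow_mul, zpow_natCast]
        exact Subgroup.zpow_mem _ (Subgroup.mem_zpowers _) i
      obtain ⟨m, hm⟩ := exists_pow_eq_self_of_coprime (n := p) (x := c) hcop.symm
      rw [← hm]
      exact Subgroup.pow_mem _ h1 m
    have hfib := Finset.sum_fiberwise_of_maps_to (s := D) (t := D.image Subgroup.zpowers)
      (g := fun c => Subgroup.zpowers c) (fun c hc => mem_image_of_mem _ hc)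
      (fun c => ρ.character c - a)
    rw [hDsum] at hfib
    have hzero : ∀ Z ∈ D.image Subgroup.zpowers, Z ≠ C →
        ∑ c ∈ D.filter (fun c => Subgroup.zpowers c = Z), (ρ.character c - a) = 0 := by
      intro Z hZ hne
      rw [mem_image] at hZ
      obtain ⟨c0, hc0, rfl⟩ := hZ
      rw [hcl c0 hc0]
      have hc0' := hc0
      rw [hD, mem_filter] at hc0'
      have hle0 : Subgroup.zpowers c0 ≤ C := Subgroup.zpowers_le.2 hc0'.2.1
      have hlt : orderOf c0 < n := by
        have h1 : Nat.card (Subgroup.zpowers c0) ≤ Nat.card C := Nat.card_le_card_of_injective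
          (Subgroup.inclusion hle0) (Subgroup.inclusion_injective hle0)
        rw [hcardC, Nat.card_zpowers] at h1
        rcases lt_or_eq_of_le h1 with h | h
        · exact h
        · exfalso
          apply hne
          apply Subgroup.eq_of_le_of_card_ge hle0
          rw [hcardC, Nat.card_zpowers, h]
      exact ih (orderOf c0) hlt c0 rfl (hord c0 hc0)
    have hCmem : C ∈ D.image Subgroup.zpowers := mem_image_of_mem _ hgD
    rw [Finset.sum_eq_single_of_mem C hCmem hzero, hC, hcl g hgD] at hfib
    exact hfib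

open Finset in
theorem fin_grp (F : Type) [Group F] [Finite F] [Nontrivial F] (V : Type) [AddCommGroup V]
    [Module ℚ V] [Module.Finite ℚ V] (ρ : Representation ℚ F V) (e : ℕ → ℕ)
    (hstep : ∀ p : ℕ, p.Prime → ∀ H' H : Subgroup F, H' ≤ H →
      (∀ l ∈ H, ∀ x ∈ H', l * x * l⁻¹ ∈ H') → H'.relIndex H = p →
      (Module.finrank ℚ (Representation.invariants (ρ.comp H'.subtype)) : ℤ) - ((e p : ℤ) + 1) =
        p * ((Module.finrank ℚ (Representation.invariants (ρ.comp H.subtype)) : ℤ) -
          ((e p : ℤ) + 1))) :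
    0 < Module.finrank ℚ (Representation.invariants ρ) := by
  classical
  have : Fintype F := Fintype.ofFinite F
  have hne : (Nat.card F : ℚ) ≠ 0 := by
    have : 0 < Nat.card F := Nat.card_pos
    positivity
  let _ : Invertible (Nat.card F : ℚ) := invertibleOfNonzero hne
  have hF := Representation.card_inv_mul_sum_char_eq_finrank ρ
  have hsum : 0 < ∑ g : F, ρ.character g := by
    rw [← Finset.add_sum_erase _ _ (mem_univ (1 : F)), Representation.char_one]
    have h1 : (0 : ℚ) ≤ (Module.finrank ℚ V : ℚ) := Nat.cast_nonneg _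
    have hcl : ∀ g : F, g ≠ 1 → 0 < ∑ c ∈ (univ.erase (1 : F)).filter
        (fun c => Subgroup.zpowers c = Subgroup.zpowers g), ρ.character c := by
      intro g hg
      have h2 : (univ.erase (1 : F)).filter (fun c => Subgroup.zpowers c = Subgroup.zpowers g)
          = univ.filter (fun c => Subgroup.zpowers c = Subgroup.zpowers g) := by
        ext c
        rw [mem_filter, mem_filter, mem_erase]
        constructor
        · rintro ⟨_, h⟩
          exact ⟨mem_univ _, h⟩
        · rintro ⟨_, h⟩
          refine ⟨⟨?_, mem_univ _⟩, h⟩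
          rintro rfl
          rw [Subgroup.zpowers_one_eq_bot] at h
          exact hg (Subgroup.zpowers_eq_bot.1 h.symm)
      rw [h2]
      have hord : orderOf g ≠ 1 := fun h => hg (orderOf_eq_one_iff.1 h)
      obtain ⟨p, hp, hpd⟩ := Nat.exists_prime_and_dvd hord
      have h3 := FinGrp_claim F V ρ e hstep p hp (orderOf g) g rfl hpd
      rw [sum_sub_distrib, sum_const, nsmul_eq_mul] at h3
      have h4 : 0 < (univ.filter
          (fun c : F => Subgroup.zpowers c = Subgroup.zpowers g)).card := by
        rw [Finset.card_pos]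
        exact ⟨g, mem_filter.2 ⟨mem_univ _, rfl⟩⟩
      have h5 : (0 : ℚ) < ((univ.filter
          (fun c : F => Subgroup.zpowers c = Subgroup.zpowers g)).card : ℚ) := by
        exact_mod_cast h4
      have h6 : (0 : ℚ) < (e p : ℚ) + 1 := by positivity
      have h7 := mul_pos h5 h6
      linarith
    have h2 : 0 < ∑ g ∈ univ.erase (1 : F), ρ.character g := by
      rw [← Finset.sum_fiberwise_of_maps_to (s := univ.erase (1 : F))
        (t := (univ.erase (1 : F)).image Subgroup.zpowers)
        (g := fun c => Subgroup.zpowers c) (fun c hc => mem_image_of_mem _ hc)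
        (fun c => ρ.character c)]
      apply Finset.sum_pos
      · intro Z hZ
        rw [mem_image] at hZ
        obtain ⟨g, hg, rfl⟩ := hZ
        exact hcl g (mem_erase.1 hg).1
      · obtain ⟨g, hg⟩ := exists_ne (1 : F)
        exact ⟨Subgroup.zpowers g, mem_image_of_mem _ (mem_erase.2 ⟨hg, mem_univ _⟩)⟩
    linarith
  have hpos : (0 : ℚ) < (Nat.card F : ℚ)⁻¹ * ∑ g : F, ρ.character g := by
    have : (0 : ℚ) < (Nat.card F : ℚ) := by
      have : 0 < Nat.card F := Nat.card_pos
      positivity
    positivity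
  rw [hF] at hpos
  exact_mod_cast hpos

end Pool.Agent.PD3
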