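import Pool.Agent.PD3.Resol
import Pool.Agent.PD3.Ev
import Pool.Agent.PD3.Perm

/-!
# FreeDec: cohomology of free modules

Paper proof.
* `free_decomp`: the module `Rep.free k G X` (finitely supported functions `X → k[G]`).  Let
  `fι x : k[G] ⟶ free` (`v ↦ single x v`) and `π_x : free ⟶ k[G]` (`u ↦ u x`; build it with
  `homOfLin`).  For a finite set `S ⊂ X` put `r S = ∑_{x ∈ S} π_x ≫ fι x` (restriction of the support
  to `S`).  Every finite set of elements of `free` is fixed by some `r S`, so by `retract_class`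
  every class is `c = ∑_{x ∈ S} Hm (fι x) (Hm π_x c)`.
* `free_zero`: in degrees `i ≠ 3` all `Hm π_x c` are `0`.
-/

open CategoryTheory

namespace Pool.Agent.PD3

variable {k G : Type} [CommRing k] [Group G]

/-- the inclusion of the `x`-th summand. -/
noncomputable def fι (k G : Type) [CommRing k] [Group G] {X : Type} (x : X) :
    Rep.leftRegular k G ⟶ Rep.free k G X :=
  ev (Rep.free k G X) (Finsupp.single x (MonoidAlgebra.single (1 : G) (1 : k)))

theorem FreeDec_rho (X : Type) (g : G) (x : X) (v : MonoidAlgebra k G) :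
    (Rep.free k G X).ρ g (Finsupp.single x v) =
      Finsupp.single x ((Rep.leftRegular k G).ρ g v) :=
  Representation.finsupp_single _ _ _ _

theorem FreeDec_fι (X : Type) (x : X) (v : MonoidAlgebra k G) :
    (fι k G x).hom v = (Finsupp.single x v : X →₀ MonoidAlgebra k G) := by
  have h : fι k G x = homOfLin (M := Rep.leftRegular k G) (N := Rep.free k G X)
      (Finsupp.lsingle x) (fun g m => (FreeDec_rho X g x m).symm) := by
    apply lr_ext
    rw [fι, ev_one]
    rfl
  rw [h]
  rfl

theorem FreeDec_rho_apply (X : Type) (g : G) (x : X) (u : X →₀ MonoidAlgebra k G) :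
    ((Rep.free k G X).ρ g u : X →₀ MonoidAlgebra k G) x = (Rep.leftRegular k G).ρ g (u x) := by
  classical
  induction u using Finsupp.induction_linear with
  | zero =>
    rw [map_zero]
    exact (map_zero ((Rep.leftRegular k G).ρ g)).symm
  | add f g' hf hg =>
    rw [map_add]
    show ((Rep.free k G X).ρ g f : X →₀ MonoidAlgebra k G) x +
      ((Rep.free k G X).ρ g g' : X →₀ MonoidAlgebra k G) x = _
    rw [hf, hg]
    exact (map_add ((Rep.leftRegular k G).ρ g) _ _).symm
  | single y v =>
    rw [FreeDec_rho]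
    by_cases hxy : y = x
    · subst hxy
      rw [Finsupp.single_eq_same, Finsupp.single_eq_same]
    · rw [Finsupp.single_eq_of_ne' hxy, Finsupp.single_eq_of_ne' hxy]
      exact (map_zero ((Rep.leftRegular k G).ρ g)).symm

/-- the projection to the `x`-th summand. -/
noncomputable def FreeDec_pi (k G : Type) [CommRing k] [Group G] {X : Type} (x : X) :
    Rep.free k G X ⟶ Rep.leftRegular k G :=
  homOfLin (M := Rep.free k G X) (N := Rep.leftRegular k G) (Finsupp.lapply x)
    (fun g m => FreeDec_rho_apply X g x m)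

theorem FreeDec_pi_apply (X : Type) (x : X) (u : X →₀ MonoidAlgebra k G) :
    (FreeDec_pi k G x).hom u = u x := rfl

/-- restriction of the support to `S`. -/
noncomputable def FreeDec_r (k G : Type) [CommRing k] [Group G] {X : Type} (S : Finset X) :
    Rep.free k G X ⟶ Rep.free k G X :=
  ∑ x ∈ S, FreeDec_pi k G x ≫ fι k G x

theorem FreeDec_sum_hom {ι : Type} {A B : Rep.{0} k G} (s : Finset ι) (f : ι → (A ⟶ B)) (u : A) :
    (∑ j ∈ s, f j).hom u = ∑ j ∈ s, (f j).hom u := by
  classical
  induction s using Finset.induction_on with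
  | empty =>
    rw [Finset.sum_empty, Finset.sum_empty]
    rfl
  | insert a s ha ih =>
    rw [Finset.sum_insert ha, Finset.sum_insert ha, ← ih]
    rfl

theorem FreeDec_r_apply (X : Type) (S : Finset X) (u : X →₀ MonoidAlgebra k G) :
    (FreeDec_r k G S).hom u = ∑ x ∈ S, (Finsupp.single x (u x) : X →₀ MonoidAlgebra k G) := by
  rw [FreeDec_r, FreeDec_sum_hom]
  refine Finset.sum_congr rfl fun x _ => ?_
  show (fι k G x).hom ((FreeDec_pi k G x).hom u) = _
  rw [FreeDec_pi_apply, FreeDec_fι]

theorem free_decomp (hG : IsTypeFP k G) (X : Type) (i : ℕ) (c : HH (Rep.free k G X) i) :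
    ∃ (S : Finset X) (d : X → HH (Rep.leftRegular k G) i), c = ∑ x ∈ S, Hm (fι k G x) i (d x) := by
  classical
  obtain ⟨S, hS⟩ := retract_class hG (Rep.free k G X) i (fun S : Finset X => FreeDec_r k G S) (by
    intro T
    refine ⟨T.biUnion (fun u : X →₀ MonoidAlgebra k G => u.support), ?_⟩
    intro u hu
    show (FreeDec_r k G _).hom u = u
    rw [FreeDec_r_apply]
    have h1 : (u : X →₀ MonoidAlgebra k G).sum
        (fun x v => (Finsupp.single x v : X →₀ MonoidAlgebra k G)) = u := Finsupp.sum_single u
    conv_rhs => rw [← h1]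
    symm
    apply Finsupp.sum_of_support_subset
    · exact Finset.subset_biUnion_of_mem (fun u : X →₀ MonoidAlgebra k G => u.support) hu
    · intro x _
      exact Finsupp.single_zero x) c
  refine ⟨S, fun x => Hm (FreeDec_pi k G x) i c, ?_⟩
  conv_lhs => rw [← hS]
  show Hm (FreeDec_r k G S) i c = _
  rw [FreeDec_r, Hm_sum]
  refine Finset.sum_congr rfl fun x _ => ?_
  rw [Hm_comp]

theorem free_zero (hG : IsPDk k G) (X : Type) (i : ℕ) (hi : i ≠ 3)
    (c : HH (Rep.free k G X) i) : c = 0 := by
  obtain ⟨S, d, hc⟩ := free_decomp hG.fp X i c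
  rw [hc]
  refine Finset.sum_eq_zero fun x _ => ?_
  rw [hG.vanish i hi (d x), map_zero]

end Pool.Agent.PD3
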