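import Pool.Agent.PD3.High4

/-!
# Gen3: generation of `H^3`

Paper proof.  Let `F = Rep.free k G S ⟶ M` be given by the inclusion `S ⊂ M` (`Rep.freeLift`); it is
surjective by the hypothesis `hS` applied to its range.  As `H^4(kernel) = 0` (`high4`),
`H^3(F) → H^3(M)` is onto (`SES.les`), and by `free_decomp` the classes of `H^3(F)` are sums of
`Hm (fι s) d`; and `fι s ≫ (F ⟶ M) = ev M s` (`ev_comp`).
-/

open CategoryTheory

namespace Pool.Agent.PD3

variable {k G : Type} [CommRing k] [Group G]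

theorem gen3 (hG : IsPDk k G) (M : Rep.{0} k G) (S : Set M.V)
    (hS : ∀ W : Submodule k M.V, (∀ g, ∀ w ∈ W, M.ρ g w ∈ W) → S ⊆ W → W = ⊤) (c : HH M 3) :
    c ∈ Submodule.span k {y | ∃ s ∈ S, ∃ d : HH (Rep.leftRegular k G) 3, y = Hm (ev M s) 3 d} := by
  let u : Rep.free k G S ⟶ M := Rep.freeLift k G (A := M) (fun s : S => (s : M.V))
  have hu1 : ∀ s : S, u.hom (Finsupp.single s (MonoidAlgebra.single (1 : G) (1 : k))) = s :=
    fun s => High4_lift M (fun s : S => (s : M.V)) s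
  have hu : Function.Surjective u.hom := by
    have hW := hS (LinearMap.range u.hom.toLinearMap) (by
      rintro g w ⟨v, rfl⟩
      refine ⟨(Rep.free k G S).ρ g v, ?_⟩
      exact Rep.hom_comm_apply u g v) (by
      intro s hs
      exact ⟨_, hu1 ⟨s, hs⟩⟩)
    intro m
    have hm : m ∈ LinearMap.range u.hom.toLinearMap := hW ▸ Submodule.mem_top
    exact hm
  obtain ⟨δ, h1, h2, h3⟩ := (ses_ker u hu).les 3
  have hδ : δ c = 0 := high4 hG _ 4 le_rfl _
  obtain ⟨y, rfl⟩ := (h2 c).1 hδ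
  obtain ⟨T, d, rfl⟩ := free_decomp hG.fp S 3 y
  rw [map_sum]
  refine Submodule.sum_mem _ fun s _ => Submodule.subset_span ⟨s, s.2, d s, ?_⟩
  rw [← Hm_comp]
  unfold fι
  rw [ev_comp, hu1]

end Pool.Agent.PD3
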