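import Pool.Agent.PD3.FreeDec

/-!
# High4: vanishing above degree 3

Paper proof.  Downward induction on `i` from `high_zero`: every `M` is a quotient of
`F = Rep.free k G M.V` (`Rep.freeLift k G id`, sending `single m (single g r)` to `r • ρ(g) m`;
surjective as `single m (single 1 1) ↦ m`) with kernel `K` (`kerRep`, `ses_ker`), and
`H^i(F) = 0 → H^i(M) → H^{i+1}(K) = 0` (`free_zero`, `SES.les`).
-/

open CategoryTheory

namespace Pool.Agent.PD3

variable {k G : Type} [CommRing k] [Group G]

theorem High4_lift (M : Rep.{0} k G) {X : Type} (f : X → M.V) (x : X) :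
    (Rep.freeLift k G (A := M) f).hom (Finsupp.single x (MonoidAlgebra.single (1 : G) (1 : k))) =
      f x := by
  simp

theorem high4 (hG : IsPDk k G) (M : Rep.{0} k G) (i : ℕ) (hi : 4 ≤ i) (c : HH M i) : c = 0 := by
  obtain ⟨n, hn⟩ := high_zero hG.fp
  have key : ∀ j i : ℕ, 4 ≤ i → n < i + j → ∀ (M : Rep.{0} k G) (c : HH M i), c = 0 := by
    intro j
    induction j with
    | zero =>
      intro i _ hi M c
      exact hn i (by omega) M c
    | succ j ih =>
      intro i hi4 hi M c
      let u : Rep.free k G M.V ⟶ M := Rep.freeLift k G (A := M) id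
      have hu : Function.Surjective u.hom := fun m =>
        ⟨Finsupp.single m (MonoidAlgebra.single (1 : G) (1 : k)), High4_lift M id m⟩
      obtain ⟨δ, h1, h2, h3⟩ := (ses_ker u hu).les i
      have hδ : δ c = 0 := ih (i+1) (by omega) (by omega) _ _
      obtain ⟨y, rfl⟩ := (h2 c).1 hδ
      rw [free_zero hG M.V i (by omega) y, map_zero]
  exact key (n+1) i hi (by omega) M c

end Pool.Agent.PD3
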