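import Pool.Agent.PD3.TransA

/-!
# TransB: invariants of a finite subgroup

`H` a finite subgroup of `Γ = G/N'`, `L` its preimage in `G`; so `N' ≤ L` of finite index `|H|`.
With `π = Hm (prj) 2 : A → A_L` and `t = Hm (trf) 2 : A_L → A` one has `π ∘ t = |H|` (`trf_prj`) and
`t ∘ π = ∑_{h ∈ H} (· h)` (on `G`-modules: `prj ≫ trf` sends a function `u` on `G/N'` to
`x ↦ ∑_{h ∈ H} u (x h)`, i.e. `prj ≫ trf = ∑_{h ∈ H} rm N' h`).  The map `Hom(A_L, ℚ) → V`,
`φ ↦ φ ∘ π` is injective (compose with `t`) with range the `H`-invariants (`ψ` invariant: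
`φ = |H|⁻¹ ψ ∘ t`), and it is `ℚ`-linear.
-/

open CategoryTheory

namespace Pool.Agent.PD3

variable {G : Type} [Group G]

theorem TransB_le (N' : Subgroup G) [N'.Normal] (H : Subgroup (G ⧸ N')) :
    N' ≤ H.comap (QuotientGroup.mk' N') := by
  intro n hn
  rw [Subgroup.mem_comap]
  have : QuotientGroup.mk' N' n = 1 := by
    rw [QuotientGroup.mk'_apply]
    exact (QuotientGroup.eq_one_iff n).2 hn
  rw [this]
  exact H.one_mem

theorem TransB_idx (N' : Subgroup G) [N'.Normal] (H : Subgroup (G ⧸ N')) :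
    N'.relIndex (H.comap (QuotientGroup.mk' N')) = Nat.card H := by
  have h1 : (⊥ : Subgroup (G ⧸ N')).comap (QuotientGroup.mk' N') = N' := by
    rw [MonoidHom.comap_bot]
    exact QuotientGroup.ker_mk' N'
  have h2 := Subgroup.relIndex_comap (⊥ : Subgroup (G ⧸ N')) (QuotientGroup.mk' N')
    (H.comap (QuotientGroup.mk' N'))
  rw [Subgroup.map_comap_eq_self_of_surjective
    (QuotientGroup.mk'_surjective N'), Subgroup.relIndex_bot_left, h1] at h2
  exact h2

theorem TransB_fib (N' : Subgroup G) [N'.Normal] (H : Subgroup (G ⧸ N')) (x y : G ⧸ N') :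
    (Subgroup.quotientMapOfLE (TransB_le N' H) x : G ⧸ H.comap (QuotientGroup.mk' N')) =
      Subgroup.quotientMapOfLE (TransB_le N' H) y ↔ y⁻¹ * x ∈ H := by
  induction x using QuotientGroup.induction_on with | H x => ?_
  induction y using QuotientGroup.induction_on with | H y => ?_
  show ((x : G) : G ⧸ H.comap (QuotientGroup.mk' N')) = ((y : G) : G ⧸ H.comap (QuotientGroup.mk' N'))
    ↔ _
  rw [eq_comm, QuotientGroup.eq, Subgroup.mem_comap]
  rfl

theorem TransB_sum (N' : Subgroup G) [N'.Normal] (H : Subgroup (G ⧸ N')) [Fintype H]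
    (hfin : N'.relIndex (H.comap (QuotientGroup.mk' N')) ≠ 0) :
    prj (G := G) ℤ ℤ (TransB_le N' H) ≫ trf ℤ ℤ (TransB_le N' H) hfin =
      ∑ h : H, rm N' (h : G ⧸ N') := by
  classical
  refine hom_ext' fun m => ?_
  have key : ∀ (m : (G ⧸ N') →₀ ℤ),
      (trLin ℤ ℤ (Subgroup.quotientMapOfLE (TransB_le N' H))
        (cosetMap_fiber (TransB_le N' H) hfin))
        (Finsupp.mapDomain (Subgroup.quotientMapOfLE (TransB_le N' H)) m) =
      ∑ h : H, Finsupp.mapDomain (fun x : G ⧸ N' => x * (h : G ⧸ N')) m := by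
    intro m
    induction m using Finsupp.induction_linear with
    | zero => simp
    | add f g hf hg =>
      rw [Finsupp.mapDomain_add, map_add, hf, hg, ← Finset.sum_add_distrib]
      refine Finset.sum_congr rfl fun h _ => ?_
      rw [Finsupp.mapDomain_add]
    | single y a =>
      refine Finsupp.ext fun x => ?_
      rw [trLin_apply, Finsupp.mapDomain_single, Finsupp.single_apply, Finsupp.finsetSum_apply]
      simp only [Finsupp.mapDomain_single, Finsupp.single_apply]
      by_cases hxy : y⁻¹ * x ∈ H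
      · rw [if_pos ((TransB_fib N' H x y).2 hxy).symm]
        rw [Finset.sum_eq_single (⟨y⁻¹ * x, hxy⟩ : H)]
        · simp
        · intro h _ hne
          rw [if_neg]
          intro he
          apply hne
          apply Subtype.ext
          show (h : G ⧸ N') = y⁻¹ * x
          rw [← he]; group
        · intro h; exact absurd (Finset.mem_univ _) h
      · rw [if_neg (fun he => hxy ((TransB_fib N' H x y).1 he.symm))]
        symm
        apply Finset.sum_eq_zero
        intro h _
        rw [if_neg]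
        intro he
        apply hxy
        rw [← he]
        have : y⁻¹ * (y * (h : G ⧸ N')) = h := by group
        rw [this]
        exact h.2
  have h2 : ∀ (s : Finset H) (m : perm (G := G) ℤ ℤ (G ⧸ N')),
      (∑ h ∈ s, rm N' (h : G ⧸ N')).hom m = ∑ h ∈ s, (rm N' (h : G ⧸ N')).hom m := by
    intro s m
    induction s using Finset.induction_on with
    | empty => simp
    | insert a s ha ih =>
      rw [Finset.sum_insert ha, Finset.sum_insert ha, ← ih]
      rfl
  rw [h2]
  exact key m

theorem rV_inv (N' : Subgroup G) [N'.Normal] (H : Subgroup (G ⧸ N')) [Finite H] :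
    Module.finrank ℚ (Representation.invariants ((rV N').comp H.subtype)) =
      bb (H.comap (QuotientGroup.mk' N')) := by
  classical
  have := Fintype.ofFinite H
  set L := H.comap (QuotientGroup.mk' N') with hL
  have hle : N' ≤ L := TransB_le N' H
  have hidx : N'.relIndex L = Nat.card H := TransB_idx N' H
  have hfin : N'.relIndex L ≠ 0 := by
    rw [hidx]
    exact Nat.card_pos.ne'
  have hn0 : ((Nat.card H : ℕ) : ℚ) ≠ 0 := by
    exact_mod_cast Nat.card_pos.ne'
  let π := Hm (prj (G := G) ℤ ℤ hle) 2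
  let t := Hm (trf (G := G) ℤ ℤ hle hfin) 2
  have hπt : ∀ x, π (t x) = (Nat.card H) • x := by
    intro x
    show Hm _ 2 (Hm _ 2 x) = _
    rw [← Hm_comp, trf_prj, Hm_nsmul, Hm_id, hidx]
  have htπ : ∀ x, t (π x) = ∑ h : H, Hm (rm N' (h : G ⧸ N')) 2 x := by
    intro x
    show Hm _ 2 (Hm _ 2 x) = _
    rw [← Hm_comp, ← Hm_sum, ← TransB_sum N' H hfin]
  have hπr : ∀ (h : H) x, π (Hm (rm N' (h : G ⧸ N')) 2 x) = π x := by
    intro h x
    show Hm _ 2 (Hm _ 2 x) = Hm _ 2 x
    rw [← Hm_comp]
    congr 1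
    have : rm N' (h : G ⧸ N') ≫ prj (G := G) ℤ ℤ hle = prj (G := G) ℤ ℤ hle := by
      refine hom_ext' fun m => ?_
      show Finsupp.mapDomain (Subgroup.quotientMapOfLE hle)
        (Finsupp.mapDomain (fun x : G ⧸ N' => x * (h : G ⧸ N')) m) =
        Finsupp.mapDomain (Subgroup.quotientMapOfLE hle) m
      rw [← Finsupp.mapDomain_comp]
      congr 1
      funext x
      show Subgroup.quotientMapOfLE hle (x * (h : G ⧸ N')) = Subgroup.quotientMapOfLE hle x
      rw [TransB_fib]
      have : x⁻¹ * (x * (h : G ⧸ N')) = h := by group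
      rw [this]
      exact h.2
    rw [this]
  let Φ : (HH (perm (G := G) ℤ ℤ (G ⧸ L)) 2 →+ ℚ) →ₗ[ℚ]
      (HH (perm (G := G) ℤ ℤ (G ⧸ N')) 2 →+ ℚ) :=
    { toFun := fun φ => φ.comp π.toAddMonoidHom
      map_add' := fun φ ψ => by ext; rfl
      map_smul' := fun c φ => by ext; rfl }
  have hΦ : ∀ φ a, Φ φ a = φ (π a) := fun φ a => rfl
  have hinj : Function.Injective Φ := by
    intro φ φ' he
    refine AddMonoidHom.ext fun x => ?_
    have h1 : Φ φ (t x) = Φ φ' (t x) := by rw [he]
    rw [hΦ, hΦ, hπt, map_nsmul, map_nsmul, nsmul_eq_mul, nsmul_eq_mul] at h1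
    exact mul_left_cancel₀ hn0 h1
  have hrange : LinearMap.range Φ = Representation.invariants ((rV N').comp H.subtype) := by
    ext ψ
    rw [LinearMap.mem_range, Representation.mem_invariants]
    constructor
    · rintro ⟨φ, rfl⟩ h
      refine AddMonoidHom.ext fun a => ?_
      show Φ φ (Hm (rm N' (h : G ⧸ N')) 2 a) = Φ φ a
      rw [hΦ, hΦ, hπr]
    · intro hψ
      refine ⟨((Nat.card H : ℕ) : ℚ)⁻¹ • ψ.comp t.toAddMonoidHom, ?_⟩
      refine AddMonoidHom.ext fun a => ?_
      rw [hΦ]
      show ((Nat.card H : ℕ) : ℚ)⁻¹ • ψ (t (π a)) = ψ a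
      rw [htπ, map_sum]
      have : ∀ h : H, ψ (Hm (rm N' (h : G ⧸ N')) 2 a) = ψ a := by
        intro h
        have := congrArg (fun f => f a) (hψ h)
        exact this
      rw [Finset.sum_congr rfl (fun h _ => this h), Finset.sum_const, Finset.card_univ,
        nsmul_eq_mul, ← Nat.card_eq_fintype_card, smul_eq_mul, inv_mul_cancel_left₀ hn0]
  rw [← hrange]
  unfold bb
  exact (LinearEquiv.ofInjective Φ hinj).finrank_eq.symm

end Pool.Agent.PD3
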