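import Pool.Agent.PD3.Step
import Pool.Agent.PD3.TransB
import Pool.Agent.PD3.FinGrp
import Pool.Agent.PD3.CharSub

/-!
# Main: assembly

Paper proof.  Suppose `K ≠ ⊤`, choose `N'` by `char_sub`; `N' ≠ N`.  `F` = the image of `N` in
`G/N'`, a finite nontrivial group.  `V = Hom(HH (ℤ[G/N']) 2, ℚ)` is finite dimensional (`fgH2`,
`hom_finite`).  Apply `fin_grp` to `ρ = (rV N').comp F.subtype` and `e = ee N`: for subgroups
`H' ≤ H` of `F`, with preimages `L' ≤ L` in `G`, `dim V^{H'} = bb L'`, `dim V^H = bb L` by `rV_inv`
(applied to the subgroups `H'.map F.subtype`, `H.map F.subtype` of `G/N'`), and `bb_step` is the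
hypothesis.  Conclusion: `0 < dim V^F = bb N = 0` (`bb_N`), a contradiction.
-/

open CategoryTheory

namespace Pool.Agent.PD3

theorem main {G : Type} [Group G] {N : Subgroup G} (hS : Setup G N) (K : Subgroup N)
    (hK : K.index ≠ 0) : K = ⊤ := by
  classical
  by_contra hne
  obtain ⟨N', hN'n, hle, hrel, hin⟩ := char_sub N hS.normal hS.fg K hK
  have := hN'n
  set π := QuotientGroup.mk' N' with hπ
  have hπs : Function.Surjective π := QuotientGroup.mk'_surjective N'
  set F : Subgroup (G ⧸ N') := N.map π with hF
  have hFcomap : F.comap π = N := by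
    rw [hF, Subgroup.comap_map_eq, QuotientGroup.ker_mk']
    exact sup_eq_left.mpr hle
  have hFcard : Nat.card F ≠ 0 := by
    have h1 : N'.relIndex N = (⊥ : Subgroup (G ⧸ N')).relIndex F := by
      rw [hF, ← Subgroup.relIndex_comap]
      congr 1
      rw [MonoidHom.comap_bot, hπ, QuotientGroup.ker_mk']
    rw [h1, Subgroup.relIndex_bot_left] at hrel
    exact hrel
  have hFfin : Finite F := Nat.finite_of_card_ne_zero hFcard
  have hFnt : Nontrivial F := by
    have hex : ∃ x : N, x ∉ K := by
      by_contra hcon
      push Not at hcon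
      exact hne (eq_top_iff.mpr fun x _ => hcon x)
    obtain ⟨x, hx⟩ := hex
    have hxN' : (x : G) ∉ N' := fun h => hx (hin x h)
    refine ⟨⟨⟨π x, Subgroup.mem_map_of_mem π x.2⟩, 1, ?_⟩⟩
    intro h
    apply hxN'
    have h2 := congrArg Subtype.val h
    simp only [Subgroup.coe_one] at h2
    rwa [hπ, QuotientGroup.mk'_apply, QuotientGroup.eq_one_iff] at h2
  have hVfin : Module.Finite ℚ (HH (perm (G := G) ℤ ℤ (G ⧸ N')) 2 →+ ℚ) :=
    hom_finite _ (fgH2 hS N' hle hrel)
  -- invariants of subgroups of `F`
  have hinv : ∀ H : Subgroup F,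
      Module.finrank ℚ (Representation.invariants (((rV N').comp F.subtype).comp H.subtype)) =
        bb ((H.map F.subtype).comap π) := by
    intro H
    have : Finite (H.map F.subtype) :=
      Finite.of_surjective (fun h : H => (⟨F.subtype h, Subgroup.mem_map_of_mem _ h.2⟩ :
        H.map F.subtype)) (by
        rintro ⟨_, x, hx, rfl⟩
        exact ⟨⟨x, hx⟩, rfl⟩)
    rw [← rV_inv N' (H.map F.subtype)]
    have : Representation.invariants (((rV N').comp F.subtype).comp H.subtype) =
        Representation.invariants ((rV N').comp (H.map F.subtype).subtype) := by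
      ext v
      rw [Representation.mem_invariants, Representation.mem_invariants]
      constructor
      · rintro h ⟨_, x, hx, rfl⟩
        exact h ⟨x, hx⟩
      · intro h x
        exact h ⟨F.subtype x, Subgroup.mem_map_of_mem _ x.2⟩
    rw [this]
  have key := fin_grp F (HH (perm (G := G) ℤ ℤ (G ⧸ N')) 2 →+ ℚ) ((rV N').comp F.subtype)
    (ee N) (by
      intro p hp H' H hHH hnorm hidx
      have : Fact p.Prime := ⟨hp⟩
      rw [hinv H', hinv H]
      have hAle : H.map F.subtype ≤ F := by
        rintro _ ⟨x, _, rfl⟩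
        exact x.2
      have hAle' : H'.map F.subtype ≤ F := by
        rintro _ ⟨x, _, rfl⟩
        exact x.2
      apply bb_step hS p
      · exact Subgroup.comap_mono (Subgroup.map_mono hHH)
      · rw [← hFcomap]
        exact Subgroup.comap_mono hAle
      · intro l hl x hx
        rw [Subgroup.mem_comap] at hl hx ⊢
        obtain ⟨a, ha, hal⟩ := hl
        obtain ⟨b, hb, hbx⟩ := hx
        refine ⟨a * b * a⁻¹, hnorm a ha b hb, ?_⟩
        rw [map_mul, map_mul, map_inv, hal, hbx, map_mul, map_mul, map_inv]
      · rw [Subgroup.relIndex_comap, Subgroup.map_comap_eq_self_of_surjective hπs,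
          Subgroup.relIndex_map_map_of_injective _ _ F.subtype_injective]
        exact hidx
      · rw [Subgroup.relIndex_comap]
        show ((H'.map F.subtype).subgroupOf F).index ≠ 0
        exact Subgroup.index_ne_zero_of_finite)
  have h0 : Module.finrank ℚ (Representation.invariants ((rV N').comp F.subtype)) = 0 := by
    rw [rV_inv N' F, hFcomap, bb_N hS]
  omega

end Pool.Agent.PD3
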