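import Pool.Agent.PD3.SetupDef
import Pool.Agent.PD3.Coset3
import Pool.Agent.PD3.Coset2
import Pool.Agent.PD3.Coef

/-!
# ModPa: `H^2(G; ℤ[G/L])` and `H^3(G; (ℤ/p)[G/L])`, `L ≤ N` of finite index

`L` is finitely generated (finite index in `N`) and acts trivially on `D` (`orient`, `L ≤ N`).
* `fgH2` from `coset2_fg`; `bb_N` from `coset2_perfect`.
* `cardH3`: long exact sequence of `ses_red`; multiplication by `p` on the representation induces
  multiplication by `p` in cohomology (`Hm_nsmul`, `Hm_id`):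
  `H^3(ℤ[G/L]) = ℤ → (by p) ℤ → H^3((ℤ/p)[G/L]) → H^4 = 0` (`coset3`, `high4`).
-/

open CategoryTheory

namespace Pool.Agent.PD3

variable {G : Type} [Group G]

theorem L_fg {N : Subgroup G} (hS : Setup G N) (L : Subgroup G) (h : L ≤ N)
    (hfin : L.relIndex N ≠ 0) : L.FG := by
  have hN : Group.FG N := (Group.fg_iff_subgroup_fg N).2 hS.fg
  have hfi : (L.subgroupOf N).FiniteIndex := ⟨hfin⟩
  have h1 : Group.FG (L.subgroupOf N) := Subgroup.fg_of_index_ne_zero _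
  have h2 : Group.FG L := Group.fg_of_surjective (f := (Subgroup.subgroupOfEquivOfLe h).toMonoidHom)
    (Subgroup.subgroupOfEquivOfLe h).surjective
  exact (Group.fg_iff_subgroup_fg _).1 h2

theorem fgH2 {N : Subgroup G} (hS : Setup G N) (L : Subgroup G) (h : L ≤ N)
    (hfin : L.relIndex N ≠ 0) : AddGroup.FG (HH (perm (G := G) ℤ ℤ (G ⧸ L)) 2) := by
  have h1 := coset2_fg hS.pd.toPDk L (L_fg hS L h hfin)
  have h2 : (groupCohomology (perm (G := G) ℤ ℤ (G ⧸ L)) 2).isModule =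
      AddCommGroup.toIntModule (HH (perm (G := G) ℤ ℤ (G ⧸ L)) 2) := Subsingleton.elim _ _
  rw [h2] at h1
  exact Module.Finite.iff_addGroup_fg.1 h1

theorem bb_N {N : Subgroup G} (hS : Setup G N) : bb N = 0 := by
  have h0 := coset2_perfect hS.pd.toPDk N hS.perf
  have hs : Subsingleton (HH (perm (G := G) ℤ ℤ (G ⧸ N)) 2 →+ ℚ) := by
    refine ⟨fun f g => ?_⟩
    ext c
    rw [h0 c, map_zero, map_zero]
  exact Module.finrank_zero_of_subsingleton

theorem H3_Z {N : Subgroup G} (hS : Setup G N) (L : Subgroup G) (h : L ≤ N) :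
    Nonempty (HH (perm (G := G) ℤ ℤ (G ⧸ L)) 3 ≃+ ℤ) := by
  obtain ⟨e⟩ := coset3 hS.pd.toPDk L (fun l hl d => orient hS.pd.toPDk N hS.perf l (h hl) d)
  exact ⟨e.toAddEquiv⟩

theorem cardH3 {N : Subgroup G} (hS : Setup G N) (L : Subgroup G) (h : L ≤ N)
    (p : ℕ) [Fact p.Prime] :
    Nat.card (HH (perm (G := G) ℤ (ZMod p) (G ⧸ L)) 3) = p := by
  obtain ⟨e⟩ := H3_Z hS L h
  have hp : 0 < p := (Fact.out : p.Prime).pos
  have hses := ses_red (G := G) p hp (G ⧸ L)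
  have hsurj : ∀ x : HH (perm (G := G) ℤ (ZMod p) (G ⧸ L)) 3, ∃ y, Hm (red p (G ⧸ L)) 3 y = x := by
    obtain ⟨δ, -, h2, -⟩ := hses.les 3
    intro x
    exact (h2 x).1 (high4 hS.pd.toPDk _ 4 le_rfl _)
  let φ : ℤ →+ HH (perm (G := G) ℤ (ZMod p) (G ⧸ L)) 3 :=
    (Hm (red (G := G) p (G ⧸ L)) 3).toAddMonoidHom.comp e.symm.toAddMonoidHom
  have hφ : ∀ n, φ n = Hm (red (G := G) p (G ⧸ L)) 3 (e.symm n) := fun n => rfl
  have hφs : Function.Surjective φ := by
    intro x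
    obtain ⟨y, hy⟩ := hsurj x
    refine ⟨e y, ?_⟩
    rw [hφ, AddEquiv.symm_apply_apply, hy]
  have hker : φ.ker = AddSubgroup.zmultiples (p : ℤ) := by
    ext n
    rw [AddMonoidHom.mem_ker, hφ, hses.mid 3, Int.mem_zmultiples_iff]
    constructor
    · rintro ⟨y, hy⟩
      rw [Hm_nsmul, Hm_id] at hy
      refine ⟨e y, ?_⟩
      have := congrArg e hy
      rw [map_nsmul, AddEquiv.apply_symm_apply] at this
      rw [← this, nsmul_eq_mul]
    · rintro ⟨m, rfl⟩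
      refine ⟨e.symm m, ?_⟩
      rw [Hm_nsmul, Hm_id, ← map_nsmul, nsmul_eq_mul]
  have h1 : Nat.card (ℤ ⧸ φ.ker) = Nat.card (HH (perm (G := G) ℤ (ZMod p) (G ⧸ L)) 3) :=
    Nat.card_congr (QuotientAddGroup.quotientKerEquivOfSurjective φ hφs).toEquiv
  rw [← h1, hker, Nat.card_congr (Int.quotientZMultiplesNatEquivZMod p).toEquiv, Nat.card_zmod]

end Pool.Agent.PD3
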