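import Pool.Agent.PD3.ModPa
import Pool.Agent.PD3.DerSurj
import Pool.Agent.PD3.CardModp

/-!
# ModPb: no `p`-torsion in `A_L = H^2(G; ℤ[G/L])`, and `|H^2(G; (ℤ/p)[G/L])|`

* `red_surj`: `H^1(G; ℤ[G/L]) → H^1(G; (ℤ/p)[G/L])` is onto: for `L = N` because the next term
  `A_N` is `0` (`coset2_perfect`); in general because the transfer
  `H^1(G; (ℤ/p)[G/N]) → H^1(G; (ℤ/p)[G/L])` is onto (`der_surj`) and commutes with the reduction
  (`red_tr`).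
* `no_torsion`: hence `A_L` has no `p`-torsion (`SES.les` for `ses_red`, `i = 1`).
* `cardH2`: `A_L → (by p) A_L → H^2((ℤ/p)[G/L]) → H^3 = ℤ → (by p) ℤ` (injective), so
  `H^2((ℤ/p)[G/L]) = A_L/p` and `card_modp` applies.
-/

open CategoryTheory

namespace Pool.Agent.PD3

variable {G : Type} [Group G]

theorem red_surj {N : Subgroup G} (hS : Setup G N) (L : Subgroup G) (h : L ≤ N)
    (hfin : L.relIndex N ≠ 0) (p : ℕ) [Fact p.Prime] :
    Function.Surjective (Hm (red (G := G) p (G ⧸ L)) 1) := by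
  have hp : 0 < p := (Fact.out : p.Prime).pos
  intro c
  obtain ⟨c', hc'⟩ := der_surj (k := ℤ) (A := ZMod p) N L hS.normal hS.fg hS.inf h hfin c
  obtain ⟨δ, -, h2, -⟩ := (ses_red (G := G) p hp (G ⧸ N)).les 1
  have h3 : δ c' = 0 := coset2_perfect hS.pd.toPDk N hS.perf _
  obtain ⟨c'', hc''⟩ := (h2 c').1 h3
  refine ⟨Hm (trf (G := G) ℤ ℤ h hfin) 1 c'', ?_⟩
  rw [← Hm_comp]
  have h4 := red_tr (G := G) p (Subgroup.quotientMapOfLE h : G ⧸ L → G ⧸ N) (cosetMap_smul h)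
    (cosetMap_fiber h hfin)
  rw [h4, Hm_comp, hc'']
  exact hc'

theorem no_torsion {N : Subgroup G} (hS : Setup G N) (L : Subgroup G) (h : L ≤ N)
    (hfin : L.relIndex N ≠ 0) (p : ℕ) [Fact p.Prime]
    (a : HH (perm (G := G) ℤ ℤ (G ⧸ L)) 2) (ha : p • a = 0) : a = 0 := by
  have hp : 0 < p := (Fact.out : p.Prime).pos
  obtain ⟨δ, -, h2, h3⟩ := (ses_red (G := G) p hp (G ⧸ L)).les 1
  have h4 : Hm (p • 𝟙 (perm (G := G) ℤ ℤ (G ⧸ L))) 2 a = 0 := by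
    rw [Hm_nsmul, Hm_id]
    exact ha
  obtain ⟨y, hy⟩ := (h3 a).1 h4
  obtain ⟨z, hz⟩ := red_surj hS L h hfin p y
  rw [← hy]
  exact (h2 y).2 ⟨z, hz⟩

theorem cardH2 {N : Subgroup G} (hS : Setup G N) (L : Subgroup G) (h : L ≤ N)
    (hfin : L.relIndex N ≠ 0) (p : ℕ) [Fact p.Prime] :
    Nat.card (HH (perm (G := G) ℤ (ZMod p) (G ⧸ L)) 2) = p ^ bb L := by
  have hp : 0 < p := (Fact.out : p.Prime).pos
  obtain ⟨δ, h1, h2, h3⟩ := (ses_red (G := G) p hp (G ⧸ L)).les 2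
  obtain ⟨e⟩ := H3_Z hS L h
  have hmul : ∀ (i : ℕ) (x : HH (perm (G := G) ℤ ℤ (G ⧸ L)) i),
      Hm (p • 𝟙 (perm (G := G) ℤ ℤ (G ⧸ L))) i x = p • x := by
    intro i x
    rw [Hm_nsmul, Hm_id]
  refine card_modp p (HH (perm (G := G) ℤ ℤ (G ⧸ L)) 2) (HH (perm (G := G) ℤ (ZMod p) (G ⧸ L)) 2)
    (fgH2 hS L h hfin) (no_torsion hS L h hfin p) (Hm (red (G := G) p (G ⧸ L)) 2).toAddMonoidHom
    ?_ ?_
  · intro x
    have h5 : Hm (p • 𝟙 (perm (G := G) ℤ ℤ (G ⧸ L))) 3 (δ x) = 0 := (h3 (δ x)).2 ⟨x, rfl⟩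
    rw [hmul] at h5
    have h6 : δ x = 0 := by
      apply e.injective
      have h7 := congrArg e h5
      rw [map_nsmul, map_zero, nsmul_eq_mul, mul_eq_zero] at h7
      rw [map_zero]
      rcases h7 with h7 | h7
      · exact absurd (by exact_mod_cast h7) hp.ne'
      · exact h7
    exact (h2 x).1 h6
  · intro a
    have h5 := h1 a
    constructor
    · intro ha
      obtain ⟨y, hy⟩ := h5.1 ha
      exact ⟨y, by rw [← hy, hmul]⟩
    · rintro ⟨a', rfl⟩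
      exact h5.2 ⟨a', hmul 2 a'⟩

end Pool.Agent.PD3
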