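import Pool.Agent.PD3.SetupDef
import Pool.Agent.PD3.DerSurj
import Pool.Agent.PD3.DerInj
import Pool.Agent.PD3.Coef

/-!
# ModPc: `H^1(G; (ℤ/p)[G/L])`

* `cardH1`: `der_surj`, `der_inj`.
* `prj_zero`: every class in `H^1(G; (ℤ/p)[G/L'])` is a transfer from `(ℤ/p)[G/N]` (`der_surj`);
  the composite `(ℤ/p)[G/N] → (ℤ/p)[G/L'] → (ℤ/p)[G/L]` is `[L : L'] • transfer = 0`
  (`trf_trans`, `trf_prj`, `p_zero`).
-/

open CategoryTheory

namespace Pool.Agent.PD3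

variable {G : Type} [Group G]

theorem cardH1 {N : Subgroup G} (hS : Setup G N) (L : Subgroup G) (h : L ≤ N)
    (hfin : L.relIndex N ≠ 0) (p : ℕ) [Fact p.Prime] :
    Nat.card (HH (perm (G := G) ℤ (ZMod p) (G ⧸ L)) 1) =
      Nat.card (HH (perm (G := G) ℤ (ZMod p) (G ⧸ N)) 1) := by
  symm
  exact Nat.card_eq_of_bijective (Hm (trf (G := G) ℤ (ZMod p) h hfin) 1)
    ⟨der_inj N L hS.normal hS.perf h hfin, der_surj N L hS.normal hS.fg hS.inf h hfin⟩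

theorem prj_zero {N : Subgroup G} (hS : Setup G N) (L' L : Subgroup G) (h' : L' ≤ L) (h : L ≤ N)
    (hfin : L'.relIndex N ≠ 0) (p : ℕ) [Fact p.Prime] (hp : p ∣ L'.relIndex L)
    (c : HH (perm (G := G) ℤ (ZMod p) (G ⧸ L')) 1) :
    Hm (prj (G := G) ℤ (ZMod p) h') 1 c = 0 := by
  have hmul : L'.relIndex L * L.relIndex N = L'.relIndex N := Subgroup.relIndex_mul_relIndex L' L N h' h
  have hf' : L'.relIndex L ≠ 0 := fun e => hfin (by rw [← hmul, e, zero_mul])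
  have hf : L.relIndex N ≠ 0 := fun e => hfin (by rw [← hmul, e, mul_zero])
  obtain ⟨y, rfl⟩ := der_surj (k := ℤ) (A := ZMod p) N L' hS.normal hS.fg hS.inf (h'.trans h) hfin c
  have h1 := trf_trans (G := G) ℤ (ZMod p) h' h hf' hf hfin
  rw [← h1, Hm_comp, ← Hm_comp, trf_prj]
  obtain ⟨q, hq⟩ := hp
  rw [hq, mul_comm, mul_smul, p_zero, smul_zero, Hm_zero]

end Pool.Agent.PD3
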