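import Pool.Agent.PD3.Defs

/-!
# Resol: two consequences of type `FP`

Paper proof.  Let `P → k` be the resolution.  Let `bar` be Mathlib's bar complex
(`Rep.barResolution k G : ProjectiveResolution (Rep.trivial k G k)`, complex `Rep.barComplex k G`).
By `ProjectiveResolution.homotopyEquiv` there are chain maps `a : bar → P`, `b : P → bar` with
`a ≫ b` homotopic to the identity.  A class `c` in `HH A i` is the class of a cocycle
`z : (Fin i → G) → A` (`groupCohomology_induction_on`, `cocyclesMk`), i.e. of a morphism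
`φ : bar.X i ⟶ A` with `bar.d (i+1) i ≫ φ = 0` (`Rep.freeLiftLEquiv`, or
`groupCohomology.inhomogeneousCochainsIso`).  By the homotopy `φ` and `a_i ≫ (b_i ≫ φ)` differ by
a coboundary `bar.d i (i-1) ≫ _`, so they have the same class.
* If `P.X i` is zero, the class is zero: `high_zero`.
* `retract_class`: `P.X i` is finitely generated, so `b_i ≫ φ : P.X i ⟶ A` is determined by its
  values on finitely many elements; choose `s` such that `r s` fixes these values; then
  `b_i ≫ φ ≫ r s = b_i ≫ φ` (both are `k[G]`-linear, the set where they agree is a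
  `k[G]`-submodule), so `Hm (r s) i c = c`.
-/

open CategoryTheory

namespace Pool.Agent.PD3

variable {k G : Type} [CommRing k] [Group G]

/-- the cochain of a morphism from the bar complex. -/
noncomputable def Resol_toFun (A : Rep.{0} k G) (i : ℕ) (φ : Rep.free k G (Fin i → G) ⟶ A) :
    (Fin i → G) → A :=
  Rep.freeLiftLEquiv k G (Fin i → G) A φ

theorem Resol_d (A : Rep.{0} k G) (i : ℕ) (φ : Rep.free k G (Fin i → G) ⟶ A) :
    (inhomogeneousCochains.d A i).hom (Resol_toFun A i φ) =
      Resol_toFun A (i + 1) (Rep.barComplex.d k G i ≫ φ) := by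
  rw [inhomogeneousCochains.d_eq]
  simp only [Resol_toFun]
  have h : (Rep.freeLiftLEquiv k G (Fin i → G) A).toModuleIso.inv.hom
      (Rep.freeLiftLEquiv k G (Fin i → G) A φ) = φ :=
    (Rep.freeLiftLEquiv k G (Fin i → G) A).symm_apply_apply φ
  simp only [ModuleCat.hom_comp, LinearMap.comp_apply]
  rw [h]
  have h2 : (Rep.barComplex k G).d (i+1) i = Rep.barComplex.d k G i := Rep.barComplex.d_def k G
  show (Rep.freeLiftLEquiv k G (Fin (i+1) → G) A) ((Rep.barComplex k G).d (i+1) i ≫ φ) = _
  rw [h2]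

/-- the class of a morphism. -/
noncomputable def Resol_cls (A : Rep.{0} k G) (i : ℕ) (φ : Rep.free k G (Fin i → G) ⟶ A)
    (h : Rep.barComplex.d k G i ≫ φ = 0) : HH A i :=
  groupCohomology.π A i (groupCohomology.cocyclesMk (Resol_toFun A i φ) (by
    rw [Resol_d, h]
    exact map_zero (Rep.freeLiftLEquiv k G (Fin (i+1) → G) A)))

theorem Resol_exists (A : Rep.{0} k G) (i : ℕ) (c : HH A i) :
    ∃ φ h, c = Resol_cls A i φ h := by
  induction c using groupCohomology_induction_on with | h x => ?_
  set f : (Fin i → G) → A := groupCohomology.iCocycles A i x with hf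
  have hd : (inhomogeneousCochains.d A i).hom f = 0 := by
    have := (groupCohomology.inhomogeneousCochains A).iCycles_d i (i+1)
    have h2 := congrArg (fun φ => φ.hom x) this
    have h3 := groupCohomology.inhomogeneousCochains.d_def (A := A) i
    rw [h3] at h2
    exact h2
  set φ := (Rep.freeLiftLEquiv k G (Fin i → G) A).symm f with hφ
  have hφf : Resol_toFun A i φ = f := (Rep.freeLiftLEquiv k G (Fin i → G) A).apply_symm_apply f
  have h0 : Rep.barComplex.d k G i ≫ φ = 0 := by
    apply (Rep.freeLiftLEquiv k G (Fin (i+1) → G) A).injective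
    rw [map_zero]
    have := Resol_d A i φ
    rw [hφf, hd] at this
    exact this.symm
  refine ⟨φ, h0, ?_⟩
  unfold Resol_cls
  congr 1
  apply (ModuleCat.mono_iff_injective (groupCohomology.iCocycles A i)).1 inferInstance
  rw [groupCohomology.iCocycles_mk, hφf]

theorem Resol_eq (A : Rep.{0} k G) (i : ℕ) (φ ψ : Rep.free k G (Fin i → G) ⟶ A)
    (h : Rep.barComplex.d k G i ≫ φ = 0) (h' : Rep.barComplex.d k G i ≫ ψ = 0)
    (j : ℕ) (hj : j + 1 = i) (y : Rep.free k G (Fin j → G) ⟶ A)
    (hy : ψ = φ + (Rep.barComplex k G).d i j ≫ y) : Resol_cls A i φ h = Resol_cls A i ψ h' := by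
  subst hj
  have h2 : (Rep.barComplex k G).d (j+1) j = Rep.barComplex.d k G j := Rep.barComplex.d_def k G
  rw [h2] at hy
  subst hy
  unfold Resol_cls
  have key : groupCohomology.cocyclesMk (Resol_toFun A (j+1) (φ + Rep.barComplex.d k G j ≫ y)) (by
      rw [Resol_d, h']
      exact map_zero (Rep.freeLiftLEquiv k G (Fin (j+1+1) → G) A)) =
      groupCohomology.cocyclesMk (Resol_toFun A (j+1) φ) (by
      rw [Resol_d, h]
      exact map_zero (Rep.freeLiftLEquiv k G (Fin (j+1+1) → G) A)) +
      (groupCohomology.toCocycles A j (j+1)).hom (Resol_toFun A j y) := by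
    apply (ModuleCat.mono_iff_injective (groupCohomology.iCocycles A (j+1))).1 inferInstance
    rw [groupCohomology.iCocycles_mk, map_add]
    erw [groupCohomology.iCocycles_mk]
    have h3 := congrArg (fun φ => φ.hom (Resol_toFun A j y))
      ((groupCohomology.inhomogeneousCochains A).toCycles_i j (j+1))
    have h4 := groupCohomology.inhomogeneousCochains.d_def (A := A) j
    rw [h4] at h3
    have h5 := Resol_d A j y
    have h6 : (groupCohomology.iCocycles A (j+1)) ((groupCohomology.toCocycles A j (j+1)).hom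
      (Resol_toFun A j y)) = Resol_toFun A (j + 1) (Rep.barComplex.d k G j ≫ y) := by
      rw [← h5]; exact h3
    erw [h6]
    exact map_add (Rep.freeLiftLEquiv k G (Fin (j+1) → G) A) _ _
  rw [key, map_add]
  have h7 := congrArg (fun φ => φ.hom (Resol_toFun A j y))
      ((groupCohomology.inhomogeneousCochains A).toCycles_comp_homologyπ j (j+1))
  have h8 : (groupCohomology.π A (j+1)) ((groupCohomology.toCocycles A j (j+1)).hom
      (Resol_toFun A j y)) = 0 := h7
  rw [h8, add_zero]

theorem Resol_nat (A B : Rep.{0} k G) (r : A ⟶ B) (i : ℕ) (φ : Rep.free k G (Fin i → G) ⟶ A)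
    (h : Rep.barComplex.d k G i ≫ φ = 0) :
    Hm r i (Resol_cls A i φ h) =
      Resol_cls B i (φ ≫ r) (by rw [← Category.assoc, h, Limits.zero_comp]) := by
  unfold Resol_cls
  rw [Hm_eq]
  have h1 := groupCohomology.π_map_apply (MonoidHom.id G) r i
    (groupCohomology.cocyclesMk (Resol_toFun A i φ) (by
      rw [Resol_d, h]
      exact map_zero (Rep.freeLiftLEquiv k G (Fin (i+1) → G) A)))
  refine h1.trans ?_
  congr 1
  apply (ModuleCat.mono_iff_injective (groupCohomology.iCocycles B i)).1 inferInstance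
  rw [groupCohomology.iCocycles_mk]
  have h2 := congrArg (fun ψ => ψ.hom (groupCohomology.cocyclesMk (Resol_toFun A i φ) (by
      rw [Resol_d, h]
      exact map_zero (Rep.freeLiftLEquiv k G (Fin (i+1) → G) A))))
    (HomologicalComplex.cyclesMap_i (groupCohomology.cochainsMap (MonoidHom.id G) r) i)
  refine h2.trans ?_
  have h3 := groupCohomology.iCocycles_mk (Resol_toFun A i φ) (by
      rw [Resol_d, h]
      exact map_zero (Rep.freeLiftLEquiv k G (Fin (i+1) → G) A))
  show ((groupCohomology.cochainsMap (MonoidHom.id G) r).f i).hom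
    ((groupCohomology.iCocycles A i).hom _) = _
  rw [h3]
  rfl

theorem Resol_gen {V : Type*} [Category V] [Preadditive V] (C D : ChainComplex V ℕ) (a : C ⟶ D)
    (b : D ⟶ C) (H : Homotopy (a ≫ b) (𝟙 C)) (i : ℕ) (A : V) (φ : C.X i ⟶ A)
    (h : C.d (i+1) i ≫ φ = 0) :
    C.d (i+1) i ≫ (a.f i ≫ b.f i ≫ φ) = 0 ∧
    (a.f i ≫ b.f i ≫ φ = φ ∨
      ∃ j, ∃ _ : j + 1 = i, ∃ y : C.X j ⟶ A, a.f i ≫ b.f i ≫ φ = φ + C.d i j ≫ y) := by
  constructor
  · rw [← Category.assoc, ← a.comm (i+1) i, Category.assoc, ← Category.assoc (D.d (i+1) i),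
      ← b.comm (i+1) i, Category.assoc, h, Limits.comp_zero, Limits.comp_zero]
  · have hc := H.comm i
    have h1 : a.f i ≫ b.f i ≫ φ = (a ≫ b).f i ≫ φ := by
      rw [HomologicalComplex.comp_f, Category.assoc]
    rw [h1, hc, Preadditive.add_comp, Preadditive.add_comp, Homotopy.prevD_chainComplex,
      Category.assoc, h, Limits.comp_zero, add_zero, HomologicalComplex.id_f, Category.id_comp]
    rcases i with _ | j
    · left
      rw [Homotopy.dNext_zero_chainComplex, Limits.zero_comp, zero_add]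
    · right
      refine ⟨j, rfl, H.hom j (j+1) ≫ φ, ?_⟩
      rw [Homotopy.dNext_succ_chainComplex, Category.assoc]
      exact add_comm _ _

theorem Resol_congr (A : Rep.{0} k G) (i : ℕ) (φ ψ : Rep.free k G (Fin i → G) ⟶ A)
    (h : Rep.barComplex.d k G i ≫ φ = 0) (h' : Rep.barComplex.d k G i ≫ ψ = 0)
    (hy : ψ = φ) : Resol_cls A i φ h = Resol_cls A i ψ h' := by
  subst hy
  rfl

/-- the factorization of a class through a resolution. -/
theorem Resol_factor (P : ProjectiveResolution (Rep.trivial k G k)) (i : ℕ) :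
    ∃ (α : Rep.free k G (Fin i → G) ⟶ P.complex.X i)
      (β : P.complex.X i ⟶ Rep.free k G (Fin i → G)),
      ∀ (A : Rep.{0} k G) (φ : Rep.free k G (Fin i → G) ⟶ A)
        (h : Rep.barComplex.d k G i ≫ φ = 0),
        ∃ h' : Rep.barComplex.d k G i ≫ (α ≫ β ≫ φ) = 0,
          Resol_cls A i φ h = Resol_cls A i (α ≫ β ≫ φ) h' := by
  let e := ProjectiveResolution.homotopyEquiv (Rep.barResolution k G) P
  refine ⟨e.hom.f i, e.inv.f i, ?_⟩
  intro A φ h
  have hd : (Rep.barComplex k G).d (i+1) i = Rep.barComplex.d k G i := Rep.barComplex.d_def k G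
  have hg := Resol_gen (Rep.barResolution k G).complex P.complex e.hom e.inv e.homotopyHomInvId i A
    φ (by
      show (Rep.barComplex k G).d (i+1) i ≫ φ = 0
      rw [hd, h])
  have h' : Rep.barComplex.d k G i ≫ (e.hom.f i ≫ e.inv.f i ≫ φ) = 0 := by
    rw [← hd]
    exact hg.1
  refine ⟨h', ?_⟩
  rcases hg.2 with h2 | ⟨j, hj, y, hy⟩
  · exact Resol_congr A i φ _ h h' h2
  · exact Resol_eq A i φ _ h h' j hj y hy

theorem high_zero (hG : IsTypeFP k G) :
    ∃ n, ∀ i, n < i → ∀ (A : Rep.{0} k G) (c : HH A i), c = 0 := by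
  obtain ⟨P, -, n, hn⟩ := hG
  refine ⟨n, fun i hi A c => ?_⟩
  obtain ⟨α, β, hf⟩ := Resol_factor P i
  obtain ⟨φ, h, rfl⟩ := Resol_exists A i c
  obtain ⟨h', he⟩ := hf A φ h
  rw [he]
  have h0 : α ≫ β ≫ φ = 0 := by
    have : α = 0 := (hn i hi).eq_of_tgt _ _
    rw [this, Limits.zero_comp]
  have h2 := Resol_congr A i (α ≫ β ≫ φ) 0 h' Limits.comp_zero h0.symm
  rw [h2]
  unfold Resol_cls
  have h3 : groupCohomology.cocyclesMk (Resol_toFun A i 0) (by
      rw [Resol_d, Limits.comp_zero]
      exact map_zero (Rep.freeLiftLEquiv k G (Fin (i+1) → G) A)) = 0 := by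
    apply (ModuleCat.mono_iff_injective (groupCohomology.iCocycles A i)).1 inferInstance
    rw [groupCohomology.iCocycles_mk, map_zero]
    exact map_zero (Rep.freeLiftLEquiv k G (Fin i → G) A)
  rw [h3, map_zero]

/-- a morphism from a finitely generated module is determined on a finite set. -/
theorem Resol_fg (P A : Rep.{0} k G) (hP : Module.Finite (MonoidAlgebra k G) P.ρ.asModule)
    (u : P ⟶ A) : ∃ T : Finset A.V, ∀ r : A ⟶ A, (∀ t ∈ T, r.hom t = t) → u ≫ r = u := by
  classical
  obtain ⟨S, hS⟩ := hP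
  refine ⟨S.image (fun x => u.hom (P.ρ.asModuleEquiv x)), fun r hr => ?_⟩
  let W : Submodule (MonoidAlgebra k G) P.ρ.asModule :=
    { carrier := {x | r.hom (u.hom (P.ρ.asModuleEquiv x)) = u.hom (P.ρ.asModuleEquiv x)}
      add_mem' := fun {x y} hx hy => by
        simp only [Set.mem_ofPred_eq] at *
        rw [map_add, map_add, map_add, hx, hy]
      zero_mem' := by
        simp only [Set.mem_ofPred_eq, map_zero]
      smul_mem' := fun a x hx => by
        simp only [Set.mem_ofPred_eq] at *
        rw [Representation.asModuleEquiv_map_smul]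
        induction a using MonoidAlgebra.induction_on with
        | of g =>
          have hg : P.ρ.asAlgebraHom (MonoidAlgebra.of k G g) (P.ρ.asModuleEquiv x) =
              P.ρ g (P.ρ.asModuleEquiv x) := by
            rw [MonoidAlgebra.of_apply, Representation.asAlgebraHom_single_one]
          rw [hg, Rep.hom_comm_apply, Rep.hom_comm_apply, hx]
        | add a b ha hb =>
          rw [map_add, LinearMap.add_apply, map_add, map_add, ha, hb]
        | smul c a ha =>
          rw [map_smul, LinearMap.smul_apply, map_smul, map_smul, ha] }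
  have hW : W = ⊤ := by
    rw [eq_top_iff, ← hS]
    apply Submodule.span_le.2
    intro x hx
    exact hr _ (Finset.mem_image_of_mem _ hx)
  apply hom_ext'
  intro m
  have : P.ρ.asModuleEquiv.symm m ∈ W := hW ▸ Submodule.mem_top
  have h2 : r.hom (u.hom (P.ρ.asModuleEquiv (P.ρ.asModuleEquiv.symm m))) =
    u.hom (P.ρ.asModuleEquiv (P.ρ.asModuleEquiv.symm m)) := this
  rw [LinearEquiv.apply_symm_apply] at h2
  exact h2

theorem retract_class (hG : IsTypeFP k G) (A : Rep.{0} k G) (i : ℕ) {ι : Type} (r : ι → (A ⟶ A))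
    (hr : ∀ T : Finset A.V, ∃ s, ∀ t ∈ T, (r s).hom t = t) (c : HH A i) :
    ∃ s, Hm (r s) i c = c := by
  obtain ⟨P, hP, -⟩ := hG
  obtain ⟨α, β, hf⟩ := Resol_factor P i
  obtain ⟨φ, h, rfl⟩ := Resol_exists A i c
  obtain ⟨h', he⟩ := hf A φ h
  obtain ⟨T, hT⟩ := Resol_fg (P.complex.X i) A (hP i) (β ≫ φ)
  obtain ⟨s, hs⟩ := hr T
  refine ⟨s, ?_⟩
  rw [he, Resol_nat]
  apply Resol_congr
  have := hT (r s) hs
  rw [Category.assoc, this]

end Pool.Agent.PD3
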