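import Pool.Agent.PD3.CosetMap
import Pool.Agent.PD3.Defs

/-!
# SetupDef: the situation of the theorem
-/

open CategoryTheory

namespace Pool.Agent.PD3

/-- the situation of the theorem. -/
structure Setup (G : Type) [Group G] (N : Subgroup G) : Prop where
  pd : IsPD3 G
  normal : N.Normal
  fg : N.FG
  inf : N.index = 0
  perf : ⁅N, N⁆ = N

/-- the rank of `H^2(G; ℤ[G/L])`. -/
noncomputable def bb {G : Type} [Group G] (L : Subgroup G) : ℕ :=
  Module.finrank ℚ (HH (perm (G := G) ℤ ℤ (G ⧸ L)) 2 →+ ℚ)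

/-- the dimension of `H^1(G; (ℤ/p)[G/N])`. -/
noncomputable def ee {G : Type} [Group G] (N : Subgroup G) (p : ℕ) : ℕ :=
  Nat.log p (Nat.card (HH (perm (G := G) ℤ (ZMod p) (G ⧸ N)) 1))

end Pool.Agent.PD3
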