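import Pool.Agent.PD3.ModPb
import Pool.Agent.PD3.ModPc
import Pool.Agent.PD3.EulerStep
import Pool.Agent.PD3.CoverCoset

/-!
# Step: the relation between the ranks for `L' ≤ L` of prime index

Paper proof.  `X = G/L'`, `Y = G/L` (`exists_cover`).  `perm_inv` gives `hX0` (the index of `L'` in
`G` is `0`), `prj_zero` gives `h1`, `cardH2`, `cardH3` give finiteness (`Nat.card ≠ 0`), `high4`
gives `h4`.  `euler_step` gives that `HH ((ℤ/p)[Y]) 1` is finite and
`p^(bb L') * (q * p)^p = (p^(bb L))^p * (q * p)` where `q = |HH ((ℤ/p)[G/N]) 1|` (`cardH1`).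
`q` is a power `p^(ee N p)`: the group is finite and killed by `p` (`p_zero`, `Hm_nsmul`, `Hm_id`).
Compare exponents.
-/

open CategoryTheory

namespace Pool.Agent.PD3

variable {G : Type} [Group G]

theorem Step_pow (p : ℕ) [Fact p.Prime] (A : Type) [AddCommGroup A] [Finite A]
    (h : ∀ a : A, p • a = 0) : ∃ m, Nat.card A = p ^ m := by
  let _ : Module (ZMod p) A := AddCommGroup.zmodModule h
  exact ⟨Module.finrank (ZMod p) A, (FiniteField.pow_finrank_eq_natCard p A).symm⟩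

theorem bb_step {N : Subgroup G} (hS : Setup G N) (p : ℕ) [Fact p.Prime] (L' L : Subgroup G)
    (h' : L' ≤ L) (h : L ≤ N) (hn : ∀ l ∈ L, ∀ x ∈ L', l * x * l⁻¹ ∈ L')
    (hp : L'.relIndex L = p) (hfin : L'.relIndex N ≠ 0) :
    (bb L' : ℤ) - ((ee N p : ℤ) + 1) = p * ((bb L : ℤ) - ((ee N p : ℤ) + 1)) := by
  have hpp : p.Prime := Fact.out
  have hp1 : 1 < p := hpp.one_lt
  have hfinL : L.relIndex N ≠ 0 := by
    intro h0
    apply hfin
    rw [← Subgroup.relIndex_mul_relIndex L' L N h' h, h0, mul_zero]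
  have hidx : L'.index = 0 := by
    rw [← Subgroup.relIndex_mul_index (h'.trans h), hS.inf, mul_zero]
  obtain ⟨τ, hc⟩ := exists_cover p L' L h' hn hp
  have hX0 : ∀ u : (G ⧸ L') →₀ ZMod p, (∀ g : G, permRho ℤ (ZMod p) (G ⧸ L') g u = u) → u = 0 :=
    fun u hu => perm_inv (k := ℤ) L' hidx u hu
  have h1 : ∀ c : HH (perm (G := G) ℤ (ZMod p) (G ⧸ L')) 1,
      Hm (permMap ℤ (ZMod p) (Subgroup.quotientMapOfLE h') hc.fG) 1 c = 0 :=
    fun c => prj_zero hS L' L h' h hfin p (dvd_of_eq hp.symm) c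
  have c2 := cardH2 hS L h hfinL p
  have c2' := cardH2 hS L' (h'.trans h) hfin p
  have c3 := cardH3 hS L h p
  have c3' := cardH3 hS L' (h'.trans h) p
  have hY2 : Finite (HH (perm (G := G) ℤ (ZMod p) (G ⧸ L)) 2) := by
    apply Nat.finite_of_card_ne_zero
    rw [c2]
    positivity
  have hY3 : Finite (HH (perm (G := G) ℤ (ZMod p) (G ⧸ L)) 3) := by
    apply Nat.finite_of_card_ne_zero
    rw [c3]
    exact hpp.ne_zero
  obtain ⟨hf1, heq⟩ := euler_step (fun M c => high4 hS.pd.toPDk M 4 le_rfl c) p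
    (Subgroup.quotientMapOfLE h' : G ⧸ L' → G ⧸ L) τ hc hX0 h1 hY2 hY3
  have c1 := cardH1 hS L h hfinL p
  have c1' := cardH1 hS L' (h'.trans h) hfin p
  obtain ⟨m, hm⟩ := Step_pow p (HH (perm (G := G) ℤ (ZMod p) (G ⧸ L)) 1) (fun a => by
    have := Hm_nsmul p (𝟙 (perm (G := G) ℤ (ZMod p) (G ⧸ L))) 1 a
    rw [p_zero, Hm_zero, Hm_id] at this
    exact this.symm)
  have hee : ee N p = m := by
    unfold ee
    rw [← c1, hm, Nat.log_pow hp1]
  have c1m : Nat.card (HH (perm (G := G) ℤ (ZMod p) (G ⧸ L')) 1) = p ^ m := by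
    rw [c1', ← c1, hm]
  rw [c2, c2', c3, c3', hm, c1m] at heq
  have e1 : p ^ (bb L' + (m + 1) * p) = p ^ (bb L * p + (m + 1)) := by
    rw [pow_add, pow_add, pow_mul, pow_mul, pow_succ]
    exact heq
  have e2 := Nat.pow_right_injective hp1 e1
  have e3 : (bb L' : ℤ) + (m + 1) * p = bb L * p + (m + 1) := by exact_mod_cast e2
  rw [hee]
  linarith

end Pool.Agent.PD3
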