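import Pool.Agent.PD3.SetupDef

/-!
# TransA: the representation on `Hom(H^2(G; ℤ[G/N']), ℚ)`

`N'` normal in `G`, `Γ = G/N'` acts on the `G`-set `G/N'` by right multiplication (commuting with
`G`), hence on `A = HH (ℤ[G/N']) 2`, and on `V = Hom(A, ℚ)` by `(q ψ)(a) = ψ (a · q)`; this is a left
representation of `Γ`.
-/

open CategoryTheory

namespace Pool.Agent.PD3

variable {G : Type} [Group G]

theorem rmul_smul (N' : Subgroup G) [N'.Normal] (q : G ⧸ N') (g : G) (x : G ⧸ N') :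
    (g • x) * q = g • (x * q) := by
  induction x using QuotientGroup.induction_on with | H x => ?_
  induction q using QuotientGroup.induction_on with | H q => ?_
  show ((g * x : G) : G ⧸ N') * q = ((g * (x * q) : G) : G ⧸ N')
  rw [← mul_assoc, QuotientGroup.mk_mul _ (g * x) q]

/-- right multiplication on `ℤ[G/N']`. -/
noncomputable abbrev rm (N' : Subgroup G) [N'.Normal] (q : G ⧸ N') :
    perm (G := G) ℤ ℤ (G ⧸ N') ⟶ perm (G := G) ℤ ℤ (G ⧸ N') :=
  permMap ℤ ℤ (fun x => x * q) (rmul_smul N' q)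

theorem rm_one (N' : Subgroup G) [N'.Normal] : rm N' 1 = 𝟙 _ := by
  apply hom_ext'
  intro m
  show (Finsupp.mapDomain (fun x : G ⧸ N' => x * 1) m : (G ⧸ N') →₀ ℤ) = m
  have h : (fun x : G ⧸ N' => x * 1) = id := by
    funext x
    rw [mul_one]
    rfl
  rw [h, Finsupp.mapDomain_id]

theorem rm_mul (N' : Subgroup G) [N'.Normal] (q r : G ⧸ N') : rm N' (q * r) = rm N' q ≫ rm N' r := by
  apply hom_ext'
  intro m
  show (Finsupp.mapDomain (fun x : G ⧸ N' => x * (q * r)) m : (G ⧸ N') →₀ ℤ) =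
    Finsupp.mapDomain (fun x : G ⧸ N' => x * r) (Finsupp.mapDomain (fun x : G ⧸ N' => x * q) m)
  rw [← Finsupp.mapDomain_comp]
  congr 1
  funext x
  show x * (q * r) = x * q * r
  rw [mul_assoc]

/-- the representation of `G/N'` on `Hom(H^2(G; ℤ[G/N']), ℚ)`. -/
noncomputable def rV (N' : Subgroup G) [N'.Normal] :
    Representation ℚ (G ⧸ N') (HH (perm (G := G) ℤ ℤ (G ⧸ N')) 2 →+ ℚ) where
  toFun q :=
    { toFun := fun ψ => ψ.comp (Hm (rm N' q) 2).toAddMonoidHom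
      map_add' := fun ψ φ => by ext; rfl
      map_smul' := fun c ψ => by ext; rfl }
  map_one' := by
    refine LinearMap.ext fun ψ => AddMonoidHom.ext fun a => ?_
    show ψ (Hm (rm N' 1) 2 a) = ψ a
    rw [rm_one, Hm_id]
  map_mul' q r := by
    refine LinearMap.ext fun ψ => AddMonoidHom.ext fun a => ?_
    show ψ (Hm (rm N' (q * r)) 2 a) = ψ (Hm (rm N' r) 2 (Hm (rm N' q) 2 a))
    rw [rm_mul, Hm_comp]

theorem rV_apply (N' : Subgroup G) [N'.Normal] (q : G ⧸ N')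
    (ψ : HH (perm (G := G) ℤ ℤ (G ⧸ N')) 2 →+ ℚ) (a : HH (perm (G := G) ℤ ℤ (G ⧸ N')) 2) :
    rV N' q ψ a = ψ (Hm (rm N' q) 2 a) := rfl

end Pool.Agent.PD3
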